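import Pool.Agent.Lib.TWD.FinV
import Pool.Agent.Lib.TWV.AllV

/-!
# The formal form, tame value groups: the tame leaf
-/

set_option autoImplicit false

namespace Pool.Agent.TWD

universe u

/-- The tame leaf, for all ground fields. -/
theorem leafV (p : ℕ) [Fact p.Prime] : LeafV.{u} p := fun k _ _ _ => TWV.tameLeafV p k

end Pool.Agent.TWD
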