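import Pool.Agent.Lib.JM_H15.Basic

/-!
# Valuations whose completion is isogenous to a tower: definitions
-/

set_option autoImplicit false

namespace Pool.Agent.TWD

open Pool.Agent.H15JM (RVal)

universe u

section

variable {k Ω : Type u} [Field k] [Field Ω] [Algebra k Ω]

/-- Every Cauchy sequence converges. -/
def Complete (v : RVal Ω) : Prop :=
  ∀ f : ℕ → Ω, (∀ c : ℝ, ∃ N, ∀ m n, N ≤ m → N ≤ n → v.Ge c (f m - f n)) →
    ∃ a, ∀ c : ℝ, ∃ N, ∀ n, N ≤ n → v.Ge c (a - f n)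

/-- `a` is in the closure of `S`. -/
def InCl (v : RVal Ω) (S : Set Ω) (a : Ω) : Prop := ∀ c : ℝ, ∃ b ∈ S, v.Ge c (a - b)

/-- `F` is the closure of the field `k(S)`. -/
def IsCl (v : RVal Ω) (F : IntermediateField k Ω) (S : Set Ω) : Prop :=
  ∀ a : Ω, a ∈ F ↔ InCl v (IntermediateField.adjoin k S : Set Ω) a

/-- `w` is a limit of `F` of radius `s`: there are elements of `F` whose distance from `w` is
arbitrarily near to `s`, and the elements algebraic over `F` are farther than `s`. -/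
def LimitOver (v : RVal Ω) (F : IntermediateField k Ω) (w : Ω) (s : ℝ) : Prop :=
  (∀ ε : ℝ, 0 < ε → ∃ a ∈ F, v.Ge (s - ε) (w - a)) ∧
    ∀ b : Ω, IsAlgebraic F b → w ≠ b ∧ v (w - b) < s

/-- `M` is the closure of `k(x, y, u, z)`, where, for the `p ^ n`-th roots `x n` of `x = x 0`, the
element `y` is a limit of radius `s` of the closure `E` of `k(x 0, x 1, ..)`, `u` is a limit of the
closure `C` of `k(x, y)` and `z` is a limit of the closure `D` of `k(x, y, u)`. Further, `x` has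
negative value, `x 1` is not in `C`, and the value group of `C` is divisible by `p`. -/
structure Tower (p : ℕ) (v : RVal Ω) (M : IntermediateField k Ω) (x : ℕ → Ω) (y u z : Ω)
    (s : ℝ) : Prop where
  root : ∀ n, x (n + 1) ^ p = x n
  ne : x 0 ≠ 0
  neg : v (x 0) < 0
  tower : ∃ (E C D : IntermediateField k Ω) (s' s'' : ℝ), IsCl v E (Set.range x) ∧
    IsCl v C {x 0, y} ∧ IsCl v D {x 0, y, u} ∧ IsCl v M {x 0, y, u, z} ∧
    LimitOver v E y s ∧ LimitOver v C u s' ∧ LimitOver v D z s'' ∧ x 1 ∉ C ∧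
    ∀ f ∈ C, f ≠ 0 → ∃ g ∈ C, g ≠ 0 ∧ v f = p * v g

/-- The radius `s` is a rational multiple of the value of `x 0`, or, for some `n`, a Hasse
derivative along `y` is not strict on the polynomials over the closure of `k(x n)`. -/
def NotStrict (k : Type u) [Field k] [Algebra k Ω] (v : RVal Ω) (x : ℕ → Ω) (y : Ω) (s : ℝ) :
    Prop :=
  (∃ n : ℕ, n ≠ 0 ∧ ∃ m : ℤ, (n : ℝ) * s = m * v (x 0)) ∨
    ∃ (n l : ℕ) (N : IntermediateField k Ω), 1 ≤ l ∧ IsCl v N {x n} ∧
      ¬ ∃ c : ℝ, 0 < c ∧ ∀ f : Polynomial Ω, (∀ i, f.coeff i ∈ N) → ∀ r : ℝ,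
        v.Ge r (f.eval y) → v.Ge (r - l * s + c) ((Polynomial.taylor y f).coeff l)

end

/-- The class of valuation rings `V` of `K`: `V` has rank one and residue field `k`, `K` has
transcendence degree four over `k`, and, for every complete algebraically closed field `Ω`, with
real valuation `v` of rational rank one, that contains `K`, induces `V`, and in which the elements
algebraic over `K` are dense: the closure `Kc` of `K` in `Ω` is isogenous to a closed field `M`
with the property `T`, that is `M ^ (p ^ e) ⊆ Kc` and `Kc ^ (p ^ e) ⊆ M` for some `e`. -/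
structure TowerVal (p : ℕ) {k K : Type u} [Field k] [Field K] [Algebra k K]
    (T : ∀ (Ω : Type u) [Field Ω] [Algebra k Ω], RVal Ω → IntermediateField k Ω → Prop)
    (V : ValuationSubring K) : Prop where
  rank : V ≠ ⊤ ∧ ∀ W, V ≤ W → W = V ∨ W = ⊤
  res : ∀ f ∈ V, ∃ c : k, V.valuation (f - algebraMap k K c) < 1
  trdeg : Algebra.trdeg k K = (4 : ℕ)
  tower : ∀ (Ω : Type u) [Field Ω] [Algebra k Ω] [IsAlgClosed Ω] (v : RVal Ω) (φ : K →ₐ[k] Ω),
    Complete v → (∀ a : Ω, InCl v {b | IsAlgebraic φ.fieldRange b} a) →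
      (∀ g : K, g ≠ 0 → (g ∈ V ↔ 0 ≤ v (φ g))) →
      (∃ γ : ℝ, ∀ a : Ω, a ≠ 0 → ∃ q : ℚ, v a = q * γ) →
      ∃ (M Kc : IntermediateField k Ω) (e : ℕ), IsCl v Kc (Set.range φ) ∧
        (∀ a ∈ M, a ^ p ^ e ∈ Kc) ∧ (∀ a ∈ Kc, a ^ p ^ e ∈ M) ∧ T Ω v M

/-- The towers. -/
def IsTower (p : ℕ) (k : Type u) [Field k] (Ω : Type u) [Field Ω] [Algebra k Ω] (v : RVal Ω)
    (M : IntermediateField k Ω) : Prop :=
  ∃ (x : ℕ → Ω) (y u z : Ω) (s : ℝ), Tower p v M x y u z s

/-- The towers whose first floor is not strict. -/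
def IsTowerNS (p : ℕ) (k : Type u) [Field k] (Ω : Type u) [Field Ω] [Algebra k Ω] (v : RVal Ω)
    (M : IntermediateField k Ω) : Prop :=
  ∃ (x : ℕ → Ω) (y u z : Ω) (s : ℝ), Tower p v M x y u z s ∧ NotStrict k v x y s

end Pool.Agent.TWD
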