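import Pool.Agent.Lib.TWD.Defs

/-!
# Valuations whose completion is isogenous to a tower: definitions, without base field
-/

set_option autoImplicit false

namespace Pool.Agent.TWD

open Pool.Agent.H15JM (RVal)

universe u

/-- The class of valuation rings `V` of `K`: for every complete algebraically closed field `Ω`, with
real valuation `v` of rational rank one, that contains `K`, induces `V`, and in which the elements
algebraic over `K` are dense, and for every algebraically closed field `κ`, in the closure of `K`,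
on which `v` is trivial and which represents all residues of `V`: the closure `Kc` of `K` is
isogenous to a tower `M` over `κ`, that is `M ^ (p ^ e) ⊆ Kc` and `Kc ^ (p ^ e) ⊆ M` for some
`e`. -/
def FormalTower (p : ℕ) {K : Type u} [Field K] (V : ValuationSubring K) : Prop :=
  ∀ (κ Ω : Type u) [Field κ] [Field Ω] [Algebra κ Ω] [IsAlgClosed κ] [IsAlgClosed Ω] (v : RVal Ω)
    (φ : K →+* Ω), Complete v → (∀ a : Ω, InCl v {b | IsAlgebraic φ.fieldRange b} a) →
      (∀ g : K, g ≠ 0 → (g ∈ V ↔ 0 ≤ v (φ g))) →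
      (∃ γ : ℝ, ∀ a : Ω, a ≠ 0 → ∃ q : ℚ, v a = q * γ) →
      (∀ c : κ, c ≠ 0 → v (algebraMap κ Ω c) = 0) →
      (∀ c : κ, InCl v (Set.range φ) (algebraMap κ Ω c)) →
      (∀ f ∈ V, ∃ c : κ, φ f = algebraMap κ Ω c ∨ 0 < v (φ f - algebraMap κ Ω c)) →
      ∃ (M Kc : IntermediateField κ Ω) (e : ℕ), IsCl v Kc (Set.range φ) ∧
        (∀ a ∈ M, a ^ p ^ e ∈ Kc) ∧ (∀ a ∈ Kc, a ^ p ^ e ∈ M) ∧ IsTower p κ Ω v M

end Pool.Agent.TWD
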