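import Pool.Agent.Lib.TWD.ForV
import Pool.Agent.Lib.TWV.EntV

/-!
# The formal form of log uniformization, tame value groups of any rational rank: final theorem
-/

set_option autoImplicit false

namespace Pool.Agent.TWD

open Pool.Agent.H15JM (RVal)
open Pool.Agent.LU2 (IsR1 IndVal Rel)
open Pool.Agent.LU2G (CompGroup compRank centerRing chart LogUniformizable)
open Pool.Agent.TW (compIndex)
open Pool.Agent.TWV (PF vals PFc ZB exists_zb_of_index exists_compHom)

universe u

/-- The value group of `V`. -/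
theorem pfr_of_index {p : ℕ} [hp : Fact p.Prime] {K : Type} [Field K] {V : ValuationSubring K}
    (hR : IsR1 V) {r : ℕ} (hr : compRank V ⊤ = r) (hi : compIndex p V ⊤ = p ^ r) :
    PFR p r K V := by
  obtain ⟨w, hw, -⟩ := hR.exists_real
  have hw' : Rel V w := hw
  let φ : (⊤ : ValuationSubring K) →+* K := (⊤ : ValuationSubring K).subtype
  have hφ : Function.Surjective φ := fun x => ⟨⟨x, ValuationSubring.mem_top x⟩, rfl⟩
  obtain ⟨ψ, hψ, hran⟩ := exists_compHom (V₁ := V) (V₂ := ⊤) φ hφ (W := V) (fun x => Iff.rfl)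
    (fun x hx => by
      have hx0 : (x : K) ≠ 0 := hx
      refine IsUnit.of_mul_eq_one (⟨(x : K)⁻¹, ValuationSubring.mem_top _⟩ :
        (⊤ : ValuationSubring K)) ?_
      apply Subtype.ext
      exact mul_inv_cancel₀ hx0) hw'
  obtain ⟨a, ha⟩ := exists_zb_of_index (p := p) (r := r) hi hr ψ hψ
  rw [hran] at ha
  choose x hx0 hxa using ha.mem
  refine ⟨⟨w, hw', r, a, ha.rat⟩, x, (LU2.Rel.indVal_iff hw').2 ⟨hx0, ?_⟩⟩
  simp only [hxa]
  exact ha.ind

theorem isR1_of_coatom {K : Type} [Field K] {V : ValuationSubring K} (h : IsCoatom V) :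
    IsR1 V := by
  refine ⟨h.1, fun W hW => ?_⟩
  rcases hW.eq_or_lt with h1 | h1
  · exact Or.inl h1.symm
  · exact Or.inr (h.2 W h1)

/-- The formal statement. -/
theorem logUniformizable_formalV (p : ℕ) [Fact p.Prime] (hT : LeafV.{0} p) (A : Type)
    [CommRing A] [IsDomain A]
    [IsNoetherianRing A] (V : ValuationSubring (FractionRing A))
    (hV : ∀ a : A, algebraMap A (FractionRing A) a ∈ V) (hrank : IsCoatom V)
    (hpA : (p : A) = 0) (I : Ideal A) (g : A) (hg : g ∈ I)
    (hg0 : g ≠ 0) (hgmin : ∀ a ∈ I, V.valuation (algebraMap A (FractionRing A) a) ≤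
      V.valuation (algebraMap A (FractionRing A) g))
    (R : Subalgebra A (FractionRing A)) (hR : R = centerRing V (chart I g))
    (hk : IsAlgClosed (LUF.centerField R V)) (hz : LUF.centerDegree R V = 0)
    (hreg : LUF.RegularFormalFibre R V) (n : ℕ)
    (hn : LUF.formalDim R V = n) (r : ℕ) (hN : n ≤ r + 3) (hr : compRank V ⊤ = r)
    (hi : compIndex p V ⊤ = p ^ r) :
    LogUniformizable V :=
  logUniformizable_formalPd p Fact.out A V hV hrank hpA I g hg hg0 hgmin R hR hk hz hreg n hn hN
    (bbp_V p hT r) (denseP_V p r) (pfr_of_index (isR1_of_coatom hrank) hr hi)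

end Pool.Agent.TWD
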