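import Pool.Agent.Lib.LUC.H3c
import Pool.Agent.Lib.TWM.Roots
import Pool.Agent.Lib.LUC.ClDefs

/-!
# The formal form of log uniformization, completions isogenous to a tower: preparations

* `lurV_of_base'`: `LUC.lurV_of_base` with the information that `K'` is in the closure of `K`;
* `near_alg`: the roots of the polynomials over the closure of `K₀` are near to algebraic elements.
-/

set_option autoImplicit false

namespace Pool.Agent.TWD

open Pool.Agent.H15JM (RVal)
open Pool.Agent.LU1 (VPos)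
open Pool.Agent.LUC
open Polynomial

universe u

section

variable {Ω : Type u} [Field Ω] [IsAlgClosed Ω] {w : RVal Ω} {K₀ : Subfield Ω}

/-- The roots of the polynomials over the closure of `K₀` are near to algebraic elements. -/
theorem near_alg {P : Polynomial Ω} (hP : P.Monic) (hcl : ∀ i, P.coeff i ∈ Cl w K₀) {z : Ω}
    (hz : P.eval z = 0) (c : ℝ) : ∃ b : Ω, IsAlgebraic K₀ b ∧ w.Ge c (z - b) := by
  classical
  set n := P.natDegree with hn
  have hn0 : n ≠ 0 := by
    intro h0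
    have h1 : P = 1 := (hP.natDegree_eq_zero).1 h0
    rw [h1, eval_one] at hz
    exact one_ne_zero hz
  choose a ha hac using fun i : ℕ => hcl i ((n : ℝ) * c - i * w z)
  let Q : Polynomial Ω := X ^ n + ∑ i ∈ Finset.range n, C (a i) * X ^ i
  have hdeg : (∑ i ∈ Finset.range n, C (a i) * X ^ i : Polynomial Ω).degree < n := by
    rw [degree_lt_iff_coeff_zero]
    intro i hi
    rw [finsetSum_coeff]
    refine Finset.sum_eq_zero fun j hj => ?_
    rw [coeff_C_mul, coeff_X_pow, if_neg (by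
      have := Finset.mem_range.1 hj
      omega), mul_zero]
  have hQm : Q.Monic := monic_X_pow_add hdeg
  have hQd : Q.natDegree = n := natDegree_eq_of_degree_eq_some (by
    rw [degree_add_eq_left_of_degree_lt (by rwa [degree_X_pow]), degree_X_pow])
  have hPe : P = X ^ n + ∑ i ∈ Finset.range n, C (P.coeff i) * X ^ i := hP.as_sum
  have hev : Q.eval z = ∑ i ∈ Finset.range n, (a i - P.coeff i) * z ^ i := by
    have h1 : Q.eval z = Q.eval z - P.eval z := by rw [hz, sub_zero]
    rw [h1]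
    conv_lhs => rw [hPe]
    simp only [Q, eval_add, eval_pow, eval_X, eval_finsetSum, eval_mul, eval_C]
    rw [add_sub_add_left_eq_sub, ← Finset.sum_sub_distrib]
    exact Finset.sum_congr rfl fun i _ => by ring
  have hge : w.Ge (w Q.leadingCoeff + Q.natDegree * c) (Q.eval z) := by
    rw [hQm.leadingCoeff, w.map_one, zero_add, hQd, hev]
    refine RVal.Ge.sum _ _ fun i _ => ?_
    intro h0
    have h1 : a i - P.coeff i ≠ 0 := left_ne_zero_of_mul h0
    have h2 : z ^ i ≠ 0 := right_ne_zero_of_mul h0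
    rw [w.map_mul h1 h2]
    have h5 : P.coeff i - a i ≠ 0 := by
      rw [← neg_ne_zero, neg_sub]
      exact h1
    have h3 : w (a i - P.coeff i) = w (P.coeff i - a i) := by
      rw [← neg_sub, w.map_neg _ h5]
    have h4 := hac i h5
    rw [h3]
    by_cases hz0 : z = 0
    · have hi : i = 0 := by
        by_contra hi
        exact h2 (by rw [hz0, zero_pow hi])
      subst hi
      rw [pow_zero, w.map_one]
      simpa using h4
    · rw [w.map_pow hz0]
      linarith
  obtain ⟨θ, h1, h2⟩ := TWM.Roots.near_root (v := w) (P := Q) (by rw [hQd]; exact hn0) hge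
  refine ⟨θ, ?_, h2⟩
  have hco : ∀ i, Q.coeff i ∈ K₀ := by
    intro i
    simp only [Q, coeff_add, coeff_X_pow, finsetSum_coeff, coeff_C_mul]
    refine K₀.add_mem ?_ (K₀.sum_mem fun j _ => K₀.mul_mem (ha j) ?_)
    · split_ifs
      · exact K₀.one_mem
      · exact K₀.zero_mem
    · split_ifs
      · exact K₀.one_mem
      · exact K₀.zero_mem
  obtain ⟨Q', hQ'⟩ : ∃ Q' : Polynomial K₀, Q'.map (algebraMap K₀ Ω) = Q := by
    have h3 : Q ∈ Polynomial.lifts (algebraMap K₀ Ω) := by
      rw [Polynomial.lifts_iff_coeff_lifts]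
      intro i
      exact ⟨⟨_, hco i⟩, rfl⟩
    obtain ⟨g, hg⟩ := h3
    exact ⟨g, hg⟩
  refine ⟨Q', ?_, ?_⟩
  · rintro rfl
    rw [Polynomial.map_zero] at hQ'
    exact hQm.ne_zero hQ'.symm
  · rw [aeval_def, ← eval_map, hQ']
    exact h1

end

/-- `LUC.lurV_of_base`, where `K'` is in the closure of `K`. -/
theorem lurV_of_base' {S K Ω : Type u} [CommRing S] [IsDomain S] [Field K] [Field Ω]
    [IsAlgClosed Ω] [Algebra S K] [Algebra K Ω] [Algebra S Ω] [IsScalarTower S K Ω]
    [Algebra.IsAlgebraic K Ω] [FaithfulSMul S K] [Algebra (FractionRing S) K]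
    [IsScalarTower S (FractionRing S) K] [Algebra.EssFiniteType S K] (s : Set K)
    (hs : IsTranscendenceBasis (FractionRing S) ((↑) : s → K))
    (hsep : Algebra.IsSeparable (IntermediateField.adjoin (FractionRing S) s) K)
    (V : ValuationSubring K) (w : RVal Ω) (hV : ∀ f : K, f ∈ V ↔ w.Ge 0 (algebraMap K Ω f))
    (hS : ∀ s : S, algebraMap S K s ∈ V)
    (hpos : ∃ c : K, c ≠ 0 ∧ 0 < w (algebraMap K Ω c)) (R₀ : Subring Ω) {m : ℕ}
    (x : Fin m → Ω) (hB : Base w R₀ (algebraMap S Ω).range x) {e : ℕ}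
    (he : Algebra.trdeg S K = e)
    (hL : ∀ (t : Fin e → Ω) (q : ℕ) (K₀ K' : Subfield Ω) (B : Finset Ω) (α : Fin q → Ω) (u : Ω)
      (H : Polynomial Ω), AlgebraicIndependent (algebraMap S Ω).range t →
      (algebraMap K Ω).fieldRange ≤ K' → (∀ f ∈ K', f ∈ Cl w (algebraMap K Ω).fieldRange) →
      Setup w R₀ (algebraMap S Ω).range x t K₀ K' B α u H → LUs w R₀ K₀) : LUrV S V := by
  classical
  let ι : K →+* Ω := algebraMap K Ω
  have hι : Function.Injective ι := ι.injective
  have hι0 : ∀ f : K, ι f ≠ 0 ↔ f ≠ 0 := fun f => (_root_.map_ne_zero ι)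
  -- the primitive element
  obtain ⟨e', t, θ, P, htV, ht, hθV, hfrac, hP, hPθ, hP', htr⟩ :=
    exists_primitive s hs hsep V
  obtain rfl : e' = e := by
    rw [he] at htr
    exact_mod_cast htr.symm
  let t' : Fin e' → Ω := fun j => ι (t j)
  have ht' : AlgebraicIndependent (algebraMap S Ω).range t' := algInd_range ht
  have himg : ∀ X : Set K, ∀ f : K, f ∈ Algebra.adjoin S X →
      ι f ∈ adj (algebraMap S Ω).range (ι '' X) := fun X f hf =>
    (mem_adjoin_iff (S := S) (K := K) (Ω := Ω) X (ι f)).2 ⟨f, hf, rfl⟩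
  have hr1 : ι '' (Set.range t) = Set.range t' := by rw [← Set.range_comp]; rfl
  have hr2 : ι '' (Set.range t ∪ {θ}) = Set.range t' ∪ {ι θ} := by
    rw [Set.image_union, hr1, Set.image_singleton]
  have hquo : QuoIs (adj (algebraMap S Ω).range (Set.range t' ∪ {ι θ})) ι.fieldRange := by
    rw [← hr2]
    constructor
    · intro f hf
      obtain ⟨g, -, rfl⟩ := (mem_adjoin_iff _ _).1 hf
      exact ⟨g, rfl⟩
    · rintro _ ⟨f, rfl⟩
      obtain ⟨c, hc, d, hd, hd0, rfl⟩ := hfrac f
      exact ⟨ι c, himg _ _ hc, ι d, himg _ _ hd, (hι0 d).2 hd0, map_div₀ ι c d⟩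
  obtain ⟨N, PN, f, u₁, θN, hPN⟩ := exists_PN hB (fun j => (hV _).1 (htV j)) ι.fieldRange
    (ι θ) ((hV _).1 hθV) hquo (P.map ι) (fun i => by
      rw [← hr1, Polynomial.coeff_map]
      exact himg _ _ (hP i)) (by rw [Polynomial.eval_map_apply, hPθ, map_zero]) (by
      rw [Polynomial.derivative_map, Polynomial.eval_map_apply]
      exact (hι0 _).2 hP')
  obtain ⟨q, K₀, B, α, u, H, hset⟩ := hPN.setup
  have hKK' : ι.fieldRange ≤ Subfield.closure ((ι.fieldRange : Set Ω) ∪ {u₁}) := fun f hf =>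
    Subfield.subset_closure (Or.inl hf)
  have hu₁ : u₁ ∈ Cl w ι.fieldRange := root_mem_cl ι.fieldRange f hPN.f_ge
    (fun i => Cl.subset (hPN.f_mem i)) hPN.f1_ne hPN.f1 hPN.u₁_root hPN.u₁_pos
  have hKcl : ∀ g ∈ Subfield.closure ((ι.fieldRange : Set Ω) ∪ {u₁}),
      g ∈ Cl w ι.fieldRange := by
    have h1 : Subfield.closure ((ι.fieldRange : Set Ω) ∪ {u₁}) ≤ clF w ι.fieldRange := by
      rw [Subfield.closure_le]
      rintro g (hg | hg)
      · exact Cl.subset hg
      · rw [Set.mem_singleton_iff] at hg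
        rw [hg]
        exact hu₁
    exact fun g hg => h1 hg
  obtain ⟨c, hc0, hwc⟩ := hpos
  -- the field `K'`
  have hLT := hset.lut ht' (hL t' q K₀ _ B α u H ht' hKK' hKcl hset)
  -- descent
  have hΩ : ∀ g : Ω, IsAlgebraic ι.fieldRange g := by
    intro g
    obtain ⟨Q, hQ, hQ0⟩ := (Algebra.IsAlgebraic.isAlgebraic (R := K) g)
    refine ⟨Q.map ι.rangeRestrictField, ?_, ?_⟩
    · rwa [Polynomial.map_ne_zero_iff ι.rangeRestrictField.injective]
    · rw [Polynomial.aeval_def, Polynomial.eval₂_map]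
      exact hQ0
  obtain ⟨θ', hθ', hcl⟩ := exists_etData ι.fieldRange hΩ f hPN.f_mem hPN.f_ge hPN.f1_ne hPN.f1
    hPN.u₁_root hPN.u₁_pos
  rw [← hcl] at hLT
  have := hB.noeth
  have hLK := LUT.desc (algebraMap S Ω).range hB.ge ι.fieldRange θ' hθ'
    ⟨ι c, ⟨c, rfl⟩, (hι0 c).2 hc0, hwc⟩ hLT
  have hLs := LUT.lus (algebraMap S Ω).range hB.ge ι.fieldRange hLK
  exact LUs.lurV (w := w) hV hS hLs

end Pool.Agent.TWD
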