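import Pool.Agent.Lib.TWD.TowA
import Pool.Agent.Lib.TWC.PFi
import Pool.Agent.Lib.TWEX.Leaf

/-!
# Valuations whose completion is isogenous to a tower: the theorems

* `critM_tower`: `MobQ0` for the fields whose closure is isogenous to a tower over `cl k(x, y)`;
* `exists_smooth_centres_tower`, `logUniformizable_tower`: the geometric statements.
-/

set_option autoImplicit false

open AlgebraicGeometry CategoryTheory

namespace Pool.Agent.TWD

open Pool.Agent.LU2 Pool.Agent.LU2G Pool.Agent.LU2H
open Pool.Agent.TW (CritM)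

universe u

/-- **`MobQ0` for the fields whose closure is isogenous to a tower over `cl k(x, y)`.** -/
theorem critM_tower (p : ℕ) [Fact p.Prime] (k : Type u) [Field k] [IsAlgClosed k] [CharP k p] :
    CritM p k (QT3m p k) :=
  TW.critM_t3m p k (TWC.PF.pairRatC p k) (TWEX.strLeafC p k)

/-- **The geometric statement.** -/
theorem exists_smooth_centres_tower (p : ℕ) [Fact p.Prime] (k : Type) [Field k] [IsAlgClosed k]
    [CharP k p] (X : Scheme.{0}) [IsIntegral X] (f : X ⟶ Spec (CommRingCat.of k))
    [LocallyOfFiniteType f] (m : ℕ) (V : Fin m → ValuationSubring X.functionField)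
    (hV : ∀ i, @TowerVal p k X.functionField _ _ (consts f).toAlgebra (IsTower p k) (V i))
    (c : ∀ i, Spec (CommRingCat.of (V i)) ⟶ X)
    (hc : ∀ i, Spec.map (CommRingCat.ofHom (algebraMap (V i) X.functionField)) ≫
      c i = X.fromSpecStalk (genericPoint X)) :
    ∃ (Y : Scheme.{0}) (π : Y ⟶ X), IsIntegral Y ∧ IsProper π ∧
      (∀ W : X.Opens, (∀ (i : Fin m) (V' : ValuationSubring X.functionField) (h : V i ≤ V'),
        V' ≠ ⊤ → (coarser h ≫ c i) (IsLocalRing.closedPoint V') ∈ W →
          IsSmoothAt f ((coarser h ≫ c i) (IsLocalRing.closedPoint V'))) → IsIso (π ∣_ W)) ∧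
      ∀ i, ∃ c' : Spec (CommRingCat.of (V i)) ⟶ Y, c' ≫ π = c i ∧
        IsSmoothAt (π ≫ f) (c' (IsLocalRing.closedPoint (V i))) :=
  exists_smooth_centres_crit p k (critM_tower p k) X f m V hV c hc

/-- **The statement for affine models.** -/
theorem logUniformizable_tower (p : ℕ) [Fact p.Prime] (k : Type) [Field k] [IsAlgClosed k]
    [CharP k p] (A : Type) [CommRing A] [IsDomain A] [Algebra k A] [Algebra.EssFiniteType k A]
    (V : ValuationSubring (FractionRing A)) (hV : ∀ a : A, algebraMap A (FractionRing A) a ∈ V)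
    (h : TowerVal (k := k) p (IsTower p k) V) : LU2G.LogUniformizable V :=
  logUniformizable_crit p k (critM_tower p k) A V hV h

end Pool.Agent.TWD
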