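import Pool.Agent.Lib.TWD.ForA
import Pool.Agent.Lib.TWD.Tow
import Pool.Agent.Lib.TWF.FZ

/-!
# The formal form of log uniformization, completions isogenous to a tower: the function fields

* `lus_tow_alg`: function fields of transcendence degree at most four;
* `ClC.of_cl`: the class `ClC` depends only on the closure;
* `lus_tow`: the fields `K₀` of `LUC.Setup`;
* `lurV_tow`: the class over regular local rings with a coefficient field.
-/

set_option autoImplicit false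

open Polynomial

namespace Pool.Agent.TWD

open Pool.Agent.H15JM (RVal)
open Pool.Agent.LU1 (VPos)
open Pool.Agent.LU2 (IsR1 vring rcomap rel_vring)
open Pool.Agent.LUC
open Pool.Agent.D2 (Ctx0 residue_ext0)
open Pool.Agent.D2P (clI mem_clI)
open Pool.Agent.TWM (CompleteV Dense Cld clI_mono clI_clI le_clI)
open Pool.Agent.TA (CtxR)
open Pool.Agent.TW (ClC CProp T3m Isg Ctx ctx_of_ctxR)
open Pool.Agent.ALLF (ctxR_of_ext exists_max_ind)

universe u

section

variable {k Ω : Type u} [Field k] [Field Ω] [Algebra k Ω] {v : RVal Ω} {p : ℕ}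
  {E E' : IntermediateField k Ω} {Q : CProp k}

/-- The class `ClC` depends only on the closure. -/
theorem clC_of_cl (h : ClC p Q v E) (h1 : ∀ f ∈ E, f ∈ Cl v E'.toSubfield)
    (h2 : ∀ f ∈ E', f ∈ Cl v E.toSubfield) : ClC p Q v E' := by
  obtain ⟨Ω', iF, iA, ι, v', iC, h3, h4, M, h5, h6, h7⟩ := h
  have h8 : clI v' (E'.map ι) = clI v' (E.map ι) := by
    refine le_antisymm ?_ ?_
    · rw [← clI_clI (v := v') (E.map ι)]
      refine clI_mono ?_
      rintro _ ⟨a, ha, rfl⟩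
      exact h4.cl_iff.2 (h2 a ha)
    · rw [← clI_clI (v := v') (E'.map ι)]
      refine clI_mono ?_
      rintro _ ⟨a, ha, rfl⟩
      exact h4.cl_iff.2 (h1 a ha)
  exact ⟨Ω', iF, iA, ι, v', iC, h3, h4, M, h5, by rw [h8]; exact h6, h7⟩

/-- The class `ClC` for a dense subfield. -/
theorem clC_comap {Ω₀ : Type u} [Field Ω₀] [Algebra k Ω₀] {v₀ : RVal Ω₀} {j : Ω₀ →ₐ[k] Ω}
    (hj : Dense v₀ v j) {E₀ : IntermediateField k Ω₀} (h : ClC p Q v (E₀.map j)) :
    ClC p Q v₀ E₀ := by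
  obtain ⟨Ω', iF, iA, ι, v', iC, h3, h4, M, h5, h6, h7⟩ := h
  refine ⟨Ω', iF, iA, ι.comp j, v', iC, h3, ⟨fun x hx => ?_, fun x c => ?_⟩, M, h5, ?_, h7⟩
  · rw [AlgHom.comp_apply, h4.val _ (hj.ne_zero hx), hj.val x hx]
  · obtain ⟨a, ha⟩ := h4.dense x c
    obtain ⟨b, hb⟩ := hj.dense a c
    refine ⟨b, ?_⟩
    have h8 : x - ι.comp j b = (x - ι a) + ι (a - j b) := by
      rw [AlgHom.comp_apply, map_sub]
      ring
    rw [h8]
    exact ha.add (h4.ge_iff.2 hb)
  · rw [← IntermediateField.map_map]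
    exact h6

end

/-- **The function fields of transcendence degree at most four.** -/
theorem lus_tow_alg (p : ℕ) [Fact p.Prime] {κ K Ω : Type u} [Field κ] [IsAlgClosed κ]
    [CharP κ p] [Field K] [Algebra κ K] [Field Ω] [IsAlgClosed Ω] [Algebra κ Ω] [Algebra K Ω]
    [IsScalarTower κ K Ω] [Algebra.IsAlgebraic K Ω] (hK : (⊤ : IntermediateField κ K).FG)
    (v : RVal K) (hc0 : Ctx0 κ v) (w : RVal Ω)
    (hw : ∀ g : K, g ≠ 0 → w (algebraMap K Ω g) = v g) (hpos : ∃ c : K, c ≠ 0 ∧ 0 < v c)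
    (htr : Algebra.trdeg κ K ≤ ((4 : ℕ) : Cardinal))
    (hQ : Ctx κ w 1 → ClC p (T3m p κ) w (IsScalarTower.toAlgHom κ K Ω).fieldRange) :
    LUs w (algebraMap κ Ω).range (algebraMap K Ω).fieldRange := by
  classical
  obtain ⟨n, hn⟩ := Cardinal.lt_aleph0.1 (lt_of_le_of_lt htr Cardinal.natCast_lt_aleph0)
  have hn4 : n ≤ 4 := by
    rw [hn] at htr
    exact_mod_cast htr
  obtain ⟨r, x, hx0, hx, hspan⟩ := exists_max_ind v hc0.triv hn
  have hctx : CtxR κ w n r := ctxR_of_ext v hc0 w hw hn x hx0 hx hspan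
  have hr : 0 < r := by
    rcases Nat.eq_zero_or_pos r with h0 | h0
    · exfalso
      subst h0
      obtain ⟨c, hc0, hc⟩ := hpos
      have h1 := hspan c hc0
      rw [Set.range_eq_empty, Submodule.span_empty, Submodule.mem_bot] at h1
      rw [h1] at hc
      exact lt_irrefl _ hc
    · exact h0
  let ι : K →ₐ[κ] Ω := IsScalarTower.toAlgHom κ K Ω
  let L : IntermediateField κ Ω := ι.fieldRange
  have hL : L.toSubfield = (algebraMap K Ω).fieldRange := by
    ext f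
    constructor
    · rintro ⟨g, hg⟩
      exact ⟨g, hg⟩
    · rintro ⟨g, hg⟩
      exact ⟨g, hg⟩
  have hLfg : L.FG := by
    obtain ⟨S, hS⟩ := hK
    refine ⟨S.image ι, ?_⟩
    rw [Finset.coe_image, ← IntermediateField.adjoin_map, hS]
    exact (AlgHom.fieldRange_eq_map ι).symm
  have halg : ∀ g : Ω, IsAlgebraic L g := by
    intro g
    obtain ⟨P, hP0, hP⟩ := (Algebra.IsAlgebraic.isAlgebraic g : IsAlgebraic K g)
    let j : K →+* L := (ι.rangeRestrict : K →ₐ[κ] ι.range).toRingHom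
    refine ⟨P.map j, ?_, ?_⟩
    · exact (Polynomial.map_ne_zero_iff j.injective).2 hP0
    · rw [Polynomial.aeval_def, Polynomial.eval₂_map]
      exact hP
  have e : K ≃ₐ[κ] L := AlgEquiv.ofInjectiveField ι
  rw [← hL]
  by_cases h2 : n ≤ r + 2
  · exact TW.lus_twoR p hctx hr h2 hLfg halg
  · obtain rfl : r = 1 := by omega
    obtain rfl : n = 4 := by omega
    have hc : Ctx κ w 1 := ctx_of_ctxR hctx hr
    have htrL : Algebra.trdeg κ L = (4 : ℕ) := e.trdeg_eq.symm.trans hn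
    have hq := hQ hc
    have : CharP Ω p := charP_of_injective_algebraMap (algebraMap κ Ω).injective p
    exact TW.lus_of_herM p (critM_tower p κ) hc hLfg halg htrL (TWC.bd_of_t3m hLfg htrL hq)
      (TW.her_clc hq)

/-- **The fields `K₀` of `LUC.Setup`.** -/
theorem lus_tow (p : ℕ) [Fact p.Prime] {κ Ω : Type u} [Field κ] [IsAlgClosed κ] [CharP κ p]
    [Field Ω] [IsAlgClosed Ω] [Algebra κ Ω] {w : RVal Ω} {S : Subring Ω} {m e q : ℕ}
    {x : Fin m → Ω} {t : Fin e → Ω} {K₀ K' : Subfield Ω} {B : Finset Ω} {α : Fin q → Ω} {u : Ω}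
    {H : Polynomial Ω} (h : Setup w (algebraMap κ Ω).range S x t K₀ K' B α u H)
    (h0 : Ctx0 κ w) (hm : m + e ≤ 4) (E : IntermediateField κ Ω) (hE : E.toSubfield ≤ K')
    (hcl : ∀ f ∈ K', f ∈ Cl w E.toSubfield) (halg : ∀ g : Ω, IsAlgebraic E g)
    (hpos : ∃ c ∈ K', c ≠ 0 ∧ 0 < w c) (hQ : Ctx κ w 1 → ClC p (T3m p κ) w E) :
    LUs w (algebraMap κ Ω).range K₀ := by
  classical
  have hκK : ∀ c : κ, algebraMap κ Ω c ∈ K₀ := fun c =>
    h.quo₀.1 _ (base_le_adj _ _ ⟨c, rfl⟩)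
  let i0 : Algebra κ K₀ := ((algebraMap κ Ω).codRestrict K₀ hκK).toAlgebra
  have i1 : IsScalarTower κ K₀ Ω := IsScalarTower.of_algebraMap_eq fun c => rfl
  -- `K₀ ≤ K'`
  have hS : S ≤ K'.toSubring := by
    intro s hs
    exact h.quo.1 s (base_le_adj _ _ hs)
  have hKK : K₀ ≤ K' := by
    intro f hf
    obtain ⟨a, ha, b, hb, -, rfl⟩ := h.quo₀.2 f hf
    have h1 : adj (algebraMap κ Ω).range (B : Set Ω) ≤ K'.toSubring := by
      refine adj_le (fun s hs => hS (h.base.le hs)) fun b hb => ?_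
      exact h.quo.1 b (mem_adj (Or.inl hb))
    exact K'.div_mem (h1 ha) (h1 hb)
  -- the algebraic closure of `K₀`
  let Ω₀ : IntermediateField K₀ Ω := algebraicClosure K₀ Ω
  let i2 : Algebra κ Ω₀ := ((algebraMap K₀ Ω₀).comp (algebraMap κ K₀)).toAlgebra
  have i3 : IsScalarTower κ K₀ Ω₀ := IsScalarTower.of_algebraMap_eq fun c => rfl
  have i4 : IsAlgClosed Ω₀ := (algebraicClosure.isAlgClosure K₀ Ω).isAlgClosed
  have i5 : Algebra.IsAlgebraic K₀ Ω₀ := (algebraicClosure.isAlgClosure K₀ Ω).isAlgebraic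
  let j : Ω₀ →ₐ[κ] Ω := { Ω₀.val.toRingHom with commutes' := fun c => rfl }
  have hj : ∀ a : Ω₀, j a = (a : Ω) := fun a => rfl
  let w₀ : RVal Ω₀ := rcomap w j.toRingHom
  have hw₀ : ∀ a : Ω₀, w₀ a = w (a : Ω) := fun a => rfl
  let v₀ : RVal K₀ := rcomap w K₀.subtype
  have hv₀ : ∀ a : K₀, v₀ a = w (a : Ω) := fun a => rfl
  have hD : Dense w₀ w j := by
    refine ⟨fun a _ => rfl, fun a c => ?_⟩
    obtain ⟨P, hP0, hP⟩ := halg a
    let P' : Polynomial Ω := (P * C P.leadingCoeff⁻¹).map (algebraMap E Ω)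
    have h1 : P'.Monic := (monic_mul_leadingCoeff_inv hP0).map _
    have h2 : P'.eval a = 0 := by
      rw [eval_map, eval₂_mul]
      have h3 : eval₂ (algebraMap E Ω) a P = 0 := hP
      rw [h3, zero_mul]
    obtain ⟨b, hb, hab⟩ := near_alg (w := w) (K₀ := K₀) h1 (fun i => by
      rw [coeff_map]
      exact h.cl _ (hE ((P * C P.leadingCoeff⁻¹).coeff i).2)) h2 c
    exact ⟨⟨b, mem_algebraicClosure_iff.2 hb⟩, hab⟩
  -- the class
  let L₀ : IntermediateField κ Ω₀ := (IsScalarTower.toAlgHom κ K₀ Ω₀).fieldRange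
  have hL₀ : (L₀.map j).toSubfield = K₀ := by
    ext f
    constructor
    · rintro ⟨_, ⟨g, rfl⟩, rfl⟩
      exact g.2
    · intro hf
      exact ⟨algebraMap K₀ Ω₀ ⟨f, hf⟩, ⟨⟨f, hf⟩, rfl⟩, rfl⟩
  have hQ₀ : Ctx κ w₀ 1 → ClC p (T3m p κ) w₀ L₀ := by
    intro h1
    refine clC_comap hD (clC_of_cl (hQ (hD.ctx h1)) (fun f hf => ?_) fun f hf => ?_)
    · rw [hL₀]
      exact h.cl f (hE hf)
    · refine hcl f (hKK ?_)
      rw [← hL₀]
      exact hf
  -- the field `K₀`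
  have hc0 : Ctx0 κ v₀ := by
    refine ⟨fun c hc => h0.triv c hc, fun g hg hg0 => ?_⟩
    obtain ⟨c, hc, hc1⟩ := h0.res (g : Ω) (fun h1 => hg (Subtype.ext h1)) hg0
    refine ⟨c, hc, fun h2 => ?_⟩
    exact hc1 fun h3 => h2 (Subtype.ext h3)
  have hpos₀ : ∃ c : K₀, c ≠ 0 ∧ 0 < v₀ c := by
    obtain ⟨c, hcK, hc0, hcw⟩ := hpos
    obtain ⟨c₀, hc₀, hc₀0, hc₀w, -⟩ := Cl.exists_val (h.cl c hcK) 0 hc0
    refine ⟨⟨c₀, hc₀⟩, fun h1 => hc₀0 (congrArg Subtype.val h1), ?_⟩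
    rw [hv₀]
    exact hc₀w.symm ▸ hcw
  have h5 : LUs w₀ (algebraMap κ Ω₀).range (algebraMap K₀ Ω₀).fieldRange :=
    lus_tow_alg p h.fg v₀ hc0 w₀ (fun g _ => rfl) hpos₀
      (h.trdeg_le.trans (by exact_mod_cast hm)) hQ₀
  -- back to `Ω`
  set V₀ : ValuationSubring K₀ := vring v₀ with hV₀
  have hV1 : ∀ f : K₀, f ∈ V₀ ↔ w₀.Ge 0 (algebraMap K₀ Ω₀ f) := by
    intro f
    rw [(rel_vring v₀).mem_iff]
    constructor
    · intro h1 h2
      exact h1 (by simpa using h2)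
    · intro h1 h2
      exact h1 (by simpa using h2)
  have hkV : ∀ c : κ, algebraMap κ K₀ c ∈ V₀ := by
    intro c
    rw [(rel_vring v₀).mem_iff]
    intro h1
    have h2 : c ≠ 0 := by
      rintro rfl
      exact h1 (map_zero _)
    rw [hv₀]
    exact (h0.triv c h2).ge
  have hL := LUs.lurV hV1 hkV h5
  have hL' := LUrV.lus (w := w) (Ω := Ω) (V := V₀) (fun f => by
    rw [(rel_vring v₀).mem_iff]
    constructor
    · intro h1 h2
      exact h1 (by simpa using h2)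
    · intro h1 h2
      exact h1 (by simpa using h2)) hkV hL
  have hr : (algebraMap K₀ Ω).fieldRange = K₀ := by
    ext f
    constructor
    · rintro ⟨y, rfl⟩
      exact y.2
    · intro hf
      exact ⟨⟨f, hf⟩, rfl⟩
  rw [hr] at hL'
  exact hL'

/-- **The class over regular local rings with a coefficient field.** -/
theorem lurV_tow (p : ℕ) [Fact p.Prime] {κ S K : Type u} [Field κ] [IsAlgClosed κ] [CharP κ p]
    [CommRing S] [IsDomain S] [IsRegularLocalRing S] [Field K] [Algebra κ S] [Algebra S K]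
    [Algebra κ K] [IsScalarTower κ S K] [FaithfulSMul S K] [Algebra (FractionRing S) K]
    [IsScalarTower S (FractionRing S) K] [Algebra.EssFiniteType S K]
    (hres : ∀ s : S, ∃ c : κ, s - algebraMap κ S c ∈ IsLocalRing.maximalIdeal S) {m : ℕ}
    (hdim : ringKrullDim S = m) (s : Set K)
    (hs : IsTranscendenceBasis (FractionRing S) ((↑) : s → K))
    (hsep : Algebra.IsSeparable (IntermediateField.adjoin (FractionRing S) s) K)
    (V : ValuationSubring K) (hR : IsR1 V) (hS : ∀ s : S, algebraMap S K s ∈ V)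
    (hmS : ∀ s ∈ IsLocalRing.maximalIdeal S, V.valuation (algebraMap S K s) < 1)
    (hz : ∀ f ∈ V, ∃ c : κ, V.valuation (f - algebraMap κ K c) < 1)
    (hN : Algebra.trdeg S K + m ≤ ((4 : ℕ) : Cardinal))
    (hQ : ∀ (Ω : Type u) [Field Ω] [IsAlgClosed Ω] [Algebra K Ω] [Algebra κ Ω]
      [IsScalarTower κ K Ω] [Algebra.IsAlgebraic K Ω] (w : RVal Ω),
      (∀ g : K, g ∈ V ↔ w.Ge 0 (algebraMap K Ω g)) → Ctx κ w 1 →
        ClC p (T3m p κ) w (IsScalarTower.toAlgHom κ K Ω).fieldRange) :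
    LUrV S V := by
  classical
  obtain ⟨v, w, hrel, hw, hV, hVpos, c', hc0, hcV⟩ := exists_entry V hR
  let Ω : Type u := AlgebraicClosure K
  let ι : K →+* Ω := algebraMap K Ω
  have hι0 : ∀ f : K, ι f ≠ 0 ↔ f ≠ 0 := fun f => (_root_.map_ne_zero ι)
  have hinj : Function.Injective (algebraMap S Ω) := by
    rw [IsScalarTower.algebraMap_eq S K Ω]
    exact ι.injective.comp (FaithfulSMul.algebraMap_injective S K)
  obtain ⟨x, hB⟩ := exists_base (k := κ) hinj w hres hdim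
    (fun s => by rw [IsScalarTower.algebraMap_apply S K Ω]; exact (hV _).1 (hS s))
    (fun s hs => by rw [IsScalarTower.algebraMap_apply S K Ω]; exact hVpos _ (hmS s hs))
  obtain ⟨e, -, -, -, -, -, -, -, -, -, -, htr⟩ := exists_primitive s hs hsep V
  have hk : ∀ c : κ, algebraMap κ K c ∈ V := by
    intro c
    rw [IsScalarTower.algebraMap_apply κ S K]
    exact hS _
  have hN' : m + e ≤ 4 := by
    rw [htr] at hN
    have : e + m ≤ 4 := by exact_mod_cast hN
    omega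
  -- the residue field of the algebraic closure
  have htriv : ∀ c : κ, c ≠ 0 → v (algebraMap κ K c) = 0 := by
    intro c hc
    have hc' : algebraMap κ K c ≠ 0 := by rwa [_root_.map_ne_zero]
    have h1 := (hrel _ hc').1 (hk c)
    have h2 := (hrel _ (inv_ne_zero hc')).1 (by rw [← map_inv₀]; exact hk c⁻¹)
    rw [v.map_inv hc'] at h2
    linarith
  have hctx : Ctx0 κ v := by
    refine ⟨htriv, fun g hg hg0 => ?_⟩
    obtain ⟨c, hc⟩ := hz g ((hrel g hg).2 hg0.ge)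
    have hc1 := (hrel.lt_one_iff' _).1 hc
    refine ⟨c, ?_, hc1⟩
    rintro rfl
    rw [_root_.map_zero, sub_zero] at hc1
    have h1 := hc1 hg
    rw [hg0] at h1
    exact lt_irrefl _ h1
  have hwctx : Ctx0 κ w := by
    refine ⟨fun c hc => ?_, fun g hg hg0 => residue_ext0 v hctx w hw g hg hg0⟩
    rw [IsScalarTower.algebraMap_apply κ K Ω, hw _ (by rwa [_root_.map_ne_zero])]
    exact htriv c hc
  let E : IntermediateField κ Ω := (IsScalarTower.toAlgHom κ K Ω).fieldRange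
  have hE : E.toSubfield = (algebraMap K Ω).fieldRange := by
    ext f
    constructor
    · rintro ⟨g, hg⟩
      exact ⟨g, hg⟩
    · rintro ⟨g, hg⟩
      exact ⟨g, hg⟩
  have halg : ∀ g : Ω, IsAlgebraic E g := by
    intro g
    obtain ⟨P, hP0, hP⟩ := (Algebra.IsAlgebraic.isAlgebraic g : IsAlgebraic K g)
    let j : K →+* E := ((IsScalarTower.toAlgHom κ K Ω).rangeRestrict).toRingHom
    refine ⟨P.map j, ?_, ?_⟩
    · exact (Polynomial.map_ne_zero_iff j.injective).2 hP0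
    · rw [Polynomial.aeval_def, Polynomial.eval₂_map]
      exact hP
  refine lurV_of_base' s hs hsep V w hV hS ⟨c', hc0, by rw [hw c' hc0]; exact hcV⟩ _ x hB htr
    fun t q K₀ K' B α u H ht hKK' hcl hset => ?_
  refine lus_tow p hset hwctx hN' E (by rw [hE]; exact hKK') (by rw [hE]; exact hcl) halg
    ⟨ι c', hKK' ⟨c', rfl⟩, (hι0 c').2 hc0, by rw [hw c' hc0]; exact hcV⟩ fun h1 => ?_
  exact hQ Ω w hV h1

end Pool.Agent.TWD
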