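import Pool.Agent.Lib.TWD.ForB
import Pool.Agent.Lib.TWD.DefsF
import Pool.Agent.Lib.TWF.FZ2

/-!
# The formal form of log uniformization, completions isogenous to a tower: local rings

* `FormalTower.dense`: the class `FormalTower` passes to immediate dense extensions;
* `lurV_complete_tow`: complete local domains;
* `lus_local_tow`: noetherian local domains.
-/

set_option autoImplicit false

open Polynomial

namespace Pool.Agent.TWD

open IsLocalRing
open Pool.Agent.H15JM (RVal)
open Pool.Agent.LU1 (VPos)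
open Pool.Agent.LU2 (IsR1 IndVal IndRes DefLE Rel vring rcomap rel_vring)
open Pool.Agent.LU2G (LUr centerRing chart compRank LogUniformizable)
open Pool.Agent.LUC
open Pool.Agent.LCD
open Pool.Agent.LUZ
open Pool.Agent.D2P (clI mem_clI)
open Pool.Agent.TWM (CompleteV Dense Cld clI_mono clI_clI le_clI exists_complete)
open Pool.Agent.TW (ClC CProp T3m Isg Ctx)

universe u

theorem isAlg_range {K Ω : Type u} [Field K] [Field Ω] (φ : K →+* Ω) {b : Ω}
    {P : Polynomial Ω} (hP : P ≠ 0) (hco : ∀ i, P.coeff i ∈ φ.fieldRange) (hb : P.eval b = 0) :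
    IsAlgebraic φ.fieldRange b := by
  obtain ⟨Q, hQ⟩ : ∃ Q : Polynomial φ.fieldRange, Q.map (algebraMap φ.fieldRange Ω) = P := by
    have h3 : P ∈ Polynomial.lifts (algebraMap φ.fieldRange Ω) := by
      rw [Polynomial.lifts_iff_coeff_lifts]
      intro i
      exact ⟨⟨_, hco i⟩, rfl⟩
    obtain ⟨g, hg⟩ := h3
    exact ⟨g, hg⟩
  refine ⟨Q, ?_, ?_⟩
  · rintro rfl
    rw [Polynomial.map_zero] at hQ
    exact hP hQ.symm
  · rw [aeval_def, ← eval_map, hQ]
    exact hb

/-- **The class `FormalTower` passes to dense extensions.** -/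
theorem FormalTower.dense {p : ℕ} {K K' : Type u} [Field K] [Field K'] {V : ValuationSubring K}
    {V' : ValuationSubring K'} (h : FormalTower p V) {w : RVal K'} (hrel : Rel V' w)
    (j : K →+* K') (hj : ∀ g : K, g ≠ 0 → (g ∈ V ↔ 0 ≤ w (j g)))
    (hd : ∀ (x : K') (B : ℝ), ∃ y : K, w.Ge B (x - j y)) (hR : IsR1 V') : FormalTower p V' := by
  intro κ Ω _ _ _ _ _ v φ hc halg hV hγ htriv hκ hres
  have hφ0 : ∀ x : K', φ x ≠ 0 ↔ x ≠ 0 := fun x => _root_.map_ne_zero φ
  -- an element of positive value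
  obtain ⟨t₀, ht₀, ht₀'⟩ : ∃ t : K', t ≠ 0 ∧ 0 < v (φ t) := by
    obtain ⟨g, hg⟩ : ∃ g : K', g ∉ V' := by
      by_contra hcon
      push Not at hcon
      exact hR.1 (eq_top_iff.2 fun x _ => hcon x)
    have hg0 : g ≠ 0 := by
      rintro rfl
      exact hg V'.zero_mem
    refine ⟨g⁻¹, inv_ne_zero hg0, ?_⟩
    have h1 : ¬ 0 ≤ v (φ g) := fun h2 => hg ((hV g hg0).2 h2)
    rw [map_inv₀, v.map_inv ((hφ0 g).2 hg0)]
    linarith [not_le.1 h1]
  -- density for `v`
  have hd' : ∀ (x : K') (c : ℝ), ∃ y : K, v.Ge c (φ x - φ (j y)) := by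
    intro x c
    obtain ⟨n, hn⟩ := exists_nat_ge (c / v (φ t₀))
    have ht : t₀ ^ n ≠ 0 := pow_ne_zero _ ht₀
    have hn' : c ≤ v (φ (t₀ ^ n)) := by
      rw [map_pow, v.map_pow ((hφ0 _).2 ht₀)]
      rwa [div_le_iff₀ ht₀'] at hn
    obtain ⟨y, hy⟩ := hd x (w (t₀ ^ n))
    refine ⟨y, fun h0 => ?_⟩
    have h1 : x - j y ≠ 0 := by
      intro h2
      apply h0
      rw [← map_sub, h2, map_zero]
    have h2 : (x - j y) / t₀ ^ n ≠ 0 := div_ne_zero h1 ht
    have h3 : (x - j y) / t₀ ^ n ∈ V' := by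
      rw [hrel.mem_iff]
      intro _
      rw [w.map_div h1 ht]
      linarith [hy h1]
    have h4 := (hV _ h2).1 h3
    rw [map_div₀, v.map_div ((hφ0 _).2 h1) ((hφ0 _).2 ht)] at h4
    rw [← map_sub]
    linarith
  -- the closures
  have hcl : ∀ x : K', φ x ∈ Cl v (φ.comp j).fieldRange := by
    intro x c
    obtain ⟨y, hy⟩ := hd' x c
    exact ⟨φ (j y), ⟨y, rfl⟩, hy⟩
  have hcl' : ∀ f ∈ φ.fieldRange, f ∈ Cl v (φ.comp j).fieldRange := by
    rintro _ ⟨x, rfl⟩
    exact hcl x
  obtain ⟨M, Kc, e, h1, h2, h3, h4⟩ := h κ Ω v (φ.comp j) hc (fun a c => by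
    obtain ⟨b, ⟨P, hP0, hP⟩, hab⟩ := halg a c
    let P' : Polynomial Ω := (P * C P.leadingCoeff⁻¹).map (algebraMap φ.fieldRange Ω)
    have h1 : P'.Monic := (monic_mul_leadingCoeff_inv hP0).map _
    have h2 : P'.eval b = 0 := by
      rw [eval_map, eval₂_mul]
      have h3 : eval₂ (algebraMap φ.fieldRange Ω) b P = 0 := hP
      rw [h3, zero_mul]
    obtain ⟨b', hb', hbb⟩ := near_alg (w := v) (K₀ := (φ.comp j).fieldRange) h1 (fun i => by
      rw [coeff_map]
      exact hcl' _ ((P * C P.leadingCoeff⁻¹).coeff i).2) h2 c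
    refine ⟨b', hb', ?_⟩
    have h3 : a - b' = (a - b) + (b - b') := by ring
    rw [h3]
    exact hab.add hbb) (fun g hg => by
    rw [hj g hg, RingHom.comp_apply, ← hV _ ((map_ne_zero j).2 hg), hrel.mem_iff]
    exact ⟨fun h1 _ => h1, fun h1 => h1 ((map_ne_zero j).2 hg)⟩) hγ htriv (fun c => by
      intro B
      obtain ⟨_, ⟨x, rfl⟩, hx⟩ := hκ c B
      obtain ⟨y, hy⟩ := hd' x B
      refine ⟨φ (j y), ⟨y, rfl⟩, ?_⟩
      have h3 : algebraMap κ Ω c - φ (j y) = (algebraMap κ Ω c - φ x) + (φ x - φ (j y)) := by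
        ring
      rw [h3]
      exact hx.add hy) (fun f hf => by
      have h1 : j f ∈ V' := by
        rw [hrel.mem_iff]
        intro h0
        exact (hj f ((map_ne_zero j).1 h0)).1 hf
      exact hres (j f) h1)
  refine ⟨M, Kc, e, isCl_iff.2 ?_, h2, h3, h4⟩
  rw [h1.eq]
  refine le_antisymm (clI_mono (IntermediateField.adjoin.mono κ _ _ ?_)) ?_
  · rintro _ ⟨y, rfl⟩
    exact ⟨j y, rfl⟩
  · rw [← clI_clI (v := v) (IntermediateField.adjoin κ (Set.range (φ.comp j)))]
    refine clI_mono (IntermediateField.adjoin_le_iff.2 ?_)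
    rintro _ ⟨x, rfl⟩
    rw [SetLike.mem_coe, mem_clI]
    intro B
    obtain ⟨y, hy⟩ := hd' x B
    exact ⟨φ (j y), IntermediateField.subset_adjoin κ _ ⟨y, rfl⟩, hy⟩

/-- The class for a field over its field of coefficients. -/
theorem FormalTower.clC {p : ℕ} [Fact p.Prime] {κ K Ω : Type u} [Field κ] [IsAlgClosed κ]
    [Field K] [Algebra κ K] [Field Ω] [IsAlgClosed Ω] [Algebra K Ω] [Algebra κ Ω]
    [IsScalarTower κ K Ω] [Algebra.IsAlgebraic K Ω] {V : ValuationSubring K}
    (h : FormalTower p V) (hz : ∀ f ∈ V, ∃ c : κ, V.valuation (f - algebraMap κ K c) < 1)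
    (w : RVal Ω) (hV : ∀ g : K, g ∈ V ↔ w.Ge 0 (algebraMap K Ω g)) (hx : Ctx κ w 1) :
    ClC p (T3m p κ) w (IsScalarTower.toAlgHom κ K Ω).fieldRange := by
  obtain ⟨Ω', iF, iA, ι, w', iC, hc, hD⟩ := exists_complete κ w
  let φ : K →+* Ω' := ι.toRingHom.comp (algebraMap K Ω)
  have hφ : ∀ g : K, φ g = ι (algebraMap K Ω g) := fun g => rfl
  have hφ0 : ∀ x : K, φ x ≠ 0 ↔ x ≠ 0 := fun x => _root_.map_ne_zero φ
  have hK0 : ∀ x : K, algebraMap K Ω x ≠ 0 ↔ x ≠ 0 := fun x => _root_.map_ne_zero _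
  have hφκ : ∀ c : κ, φ (algebraMap κ K c) = algebraMap κ Ω' c := by
    intro c
    rw [hφ, ← IsScalarTower.algebraMap_apply, ι.commutes]
  obtain ⟨M, Kc, e, h1, h2, h3, h4⟩ := h κ Ω' w' φ hc (fun a c => by
    obtain ⟨b, hb⟩ := hD.dense a c
    refine ⟨ι b, ?_, hb⟩
    obtain ⟨P, hP0, hP⟩ := (Algebra.IsAlgebraic.isAlgebraic b : IsAlgebraic K b)
    refine isAlg_range φ (P := P.map φ) ?_ (fun i => ?_) ?_
    · exact (Polynomial.map_ne_zero_iff φ.injective).2 hP0
    · rw [coeff_map]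
      exact ⟨P.coeff i, rfl⟩
    · have h5 : P.map φ = (P.map (algebraMap K Ω)).map ι.toRingHom := by
        rw [Polynomial.map_map]
      rw [h5]
      have h6 : (ι b : Ω') = ι.toRingHom b := rfl
      rw [h6, Polynomial.eval_map_apply, eval_map]
      have h7 : eval₂ (algebraMap K Ω) b P = 0 := hP
      rw [h7, map_zero]) (fun g hg => by
      rw [hV g, hφ, hD.val _ ((hK0 g).2 hg)]
      exact ⟨fun h5 => h5 ((hK0 g).2 hg), fun h5 _ => h5⟩) (by
      obtain ⟨X, hX0, hX, hspan⟩ := (hD.ctx hx).rank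
      refine ⟨w' (X 0), fun a ha => ?_⟩
      have h5 := hspan a ha
      rw [Set.range_unique, Submodule.mem_span_singleton] at h5
      obtain ⟨q, hq⟩ := h5
      exact ⟨q, by rw [← hq]; exact (Rat.smul_def q _)⟩) (hD.ctx hx).triv
    (fun c B => ⟨φ (algebraMap κ K c), ⟨_, rfl⟩, by
      rw [hφκ, sub_self]
      exact RVal.Ge.zero⟩) (fun f hf => by
      obtain ⟨c, hc⟩ := hz f hf
      refine ⟨c, ?_⟩
      by_cases h0 : φ f = algebraMap κ Ω' c
      · exact Or.inl h0
      right
      have h5 : φ f - algebraMap κ Ω' c = φ (f - algebraMap κ K c) := by rw [map_sub, hφκ]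
      have h6 : f - algebraMap κ K c ≠ 0 := by
        intro h7
        rw [h7, map_zero, sub_eq_zero] at h5
        exact h0 h5
      rw [h5, hφ, hD.val _ ((hK0 _).2 h6)]
      by_contra hcon
      -- the inverse is in `V`
      have h7 : (f - algebraMap κ K c)⁻¹ ∈ V := by
        rw [hV, map_inv₀]
        intro _
        rw [w.map_inv ((hK0 _).2 h6)]
        linarith [not_lt.1 hcon]
      rw [← V.valuation_le_one_iff, map_inv₀] at h7
      have h8 : V.valuation (f - algebraMap κ K c) ≠ 0 := (_root_.map_ne_zero _).2 h6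
      have h9 := (one_lt_inv₀ (zero_lt_iff.2 h8)).2 hc
      exact absurd h7 (not_le.2 h9))
  obtain ⟨x, y, u, z, s, h5⟩ := h4
  obtain ⟨h6, h7⟩ := h5.t3
  have hset : Set.range φ = (((IsScalarTower.toAlgHom κ K Ω).fieldRange.map ι :
      IntermediateField κ Ω') : Set Ω') := by
    ext a
    constructor
    · rintro ⟨g, rfl⟩
      exact ⟨algebraMap K Ω g, ⟨g, rfl⟩, rfl⟩
    · rintro ⟨_, ⟨g, rfl⟩, rfl⟩
      exact ⟨g, rfl⟩
  have e1 : clI w' ((IsScalarTower.toAlgHom κ K Ω).fieldRange.map ι) = Kc := by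
    rw [h1.eq, hset, IntermediateField.adjoin_self]
  exact ⟨Ω', iF, iA, ι, w', iC, hc, hD, M, h7.cld, by rw [e1]; exact ⟨e, h3, h2⟩,
    x, y, s, h6, h7⟩

theorem lurV_complete_tow (p : ℕ) (hp : p.Prime) {k C K : Type u} [Field k] [IsAlgClosed k]
    [CommRing C] [IsDomain C] [CharP C p] [IsLocalRing C] [IsNoetherianRing C]
    [IsAdicComplete (maximalIdeal C) C] (ι : k →+* ResidueField C)
    (hι : Function.Surjective ι) [Field K] [Algebra C K]
    [IsFractionRing C K] {m : ℕ} (hdim : ringKrullDim C = m) (V : ValuationSubring K)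
    (hR : IsR1 V) (hC : ∀ c : C, algebraMap C K c ∈ V)
    (hmC : ∀ c ∈ maximalIdeal C, V.valuation (algebraMap C K c) < 1)
    (hm : maximalIdeal C ≠ ⊥)
    (hz : ∀ f ∈ V, ∃ c : C, V.valuation (f - algebraMap C K c) < 1)
    (hN : m ≤ 4) (hT : FormalTower p V) :
    LUrV C V := by
  classical
  have i0 : Fact p.Prime := ⟨hp⟩
  let κ : Type u := ResidueField C
  have iκ : CharP κ p := (CharP.charP_iff_prime_eq_zero hp).2 (by
    have h1 : (p : C) = 0 := CharP.cast_eq_zero C p
    have h2 := congrArg (residue C) h1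
    rwa [map_natCast, map_zero] at h2)
  have ik : CharP k p := (RingHom.charP_iff ι ι.injective p).2 iκ
  have iκc : IsAlgClosed κ :=
    IsAlgClosed.of_ringEquiv k κ (RingEquiv.ofBijective ι ⟨ι.injective, hι⟩)
  obtain ⟨σk, hσk⟩ := exists_lift_perfect p C k ι
  let i1 : Algebra k C := σk.toAlgebra
  have hsurj : Function.Surjective (algebraMap k (ResidueField C)) := by
    intro y
    obtain ⟨c, hc⟩ := hι y
    exact ⟨c, (hσk c).trans hc⟩
  have i3 : Algebra.EssFiniteType k (ResidueField C) := by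
    have h1 : Algebra.FiniteType k (ResidueField C) :=
      Algebra.FiniteType.of_surjective (Algebra.ofId k (ResidueField C)) hsurj
    infer_instance
  obtain ⟨σ, hσ, hσk', S, hσS, hfin, ⟨hreg, hSdim, hmax⟩, hsep⟩ :=
    exists_separable_base2 p k C hm hdim K
  have j1 : FaithfulSMul S C := by
    rw [faithfulSMul_iff_algebraMap_injective]
    exact Subtype.val_injective
  have j2 : FaithfulSMul S K := by
    rw [faithfulSMul_iff_algebraMap_injective, IsScalarTower.algebraMap_eq S C K]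
    exact (IsFractionRing.injective C K).comp Subtype.val_injective
  let L := FractionRing S
  let j3 : Algebra L K := FractionRing.liftAlgebra S K
  have j4 : IsScalarTower S L K := FractionRing.isScalarTower_liftAlgebra S K
  have j5 : FiniteDimensional L K := finiteDimensional_frac S C K
  have j6 : Algebra.IsSeparable L K := hsep j3 j4
  let j0 : Algebra κ S := (σ.codRestrict S hσS).toAlgebra
  let j7 : Algebra κ K := ((algebraMap C K).comp σ).toAlgebra
  have j8 : IsScalarTower κ S K := IsScalarTower.of_algebraMap_eq fun _ => rfl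
  have j9 : Algebra.EssFiniteType C K := Algebra.EssFiniteType.of_isLocalization _ (nonZeroDivisors C)
  have j10 : Algebra.EssFiniteType S K := Algebra.EssFiniteType.comp S C K
  have j11 : Algebra.IsAlgebraic L K := inferInstance
  have j12 : Algebra.IsAlgebraic S K :=
    (IsFractionRing.comap_isAlgebraic_iff (A := S) (C := K)).2 j11
  have hempty : IsTranscendenceBasis L ((↑) : (∅ : Set K) → K) := by
    obtain ⟨s, hs⟩ := exists_isTranscendenceBasis L K
    have h1 : IsEmpty s := hs.isEmpty_iff_isAlgebraic.2 j11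
    have h2 : s = ∅ := Set.isEmpty_coe_sort.1 h1
    rwa [h2] at hs
  have hsep' : Algebra.IsSeparable (IntermediateField.adjoin L (∅ : Set K)) K :=
    Algebra.isSeparable_tower_top_of_isSeparable L _ K
  have htr : Algebra.trdeg S K = 0 := trdeg_eq_zero_iff.2 j12
  have hσc : ∀ c : C, c - σ (residue C c) ∈ maximalIdeal C := by
    intro c
    rw [← residue_eq_zero_iff, map_sub, hσ, sub_self]
  have hzκ : ∀ f ∈ V, ∃ c : κ, V.valuation (f - algebraMap κ K c) < 1 := by
    intro f hf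
    obtain ⟨c, hc⟩ := hz f hf
    refine ⟨residue C c, ?_⟩
    have h1 : f - algebraMap κ K (residue C c) =
        (f - algebraMap C K c) + algebraMap C K (c - σ (residue C c)) := by
      rw [map_sub]
      change f - algebraMap C K (σ (residue C c)) = _
      ring
    rw [h1]
    exact lt_of_le_of_lt (V.valuation.map_add _ _) (max_lt hc (hmC _ (hσc c)))
  have hS : LUrV S V := by
    refine lurV_tow p (κ := κ) (S := S) (K := K) ?_ hSdim ∅ hempty hsep' V hR
      (fun s => hC s) (fun s hs => hmC _ ((hmax s).1 hs)) hzκ ?_ ?_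
    · intro s
      exact ⟨residue C s, (hmax _).2 (hσc s)⟩
    · rw [htr, zero_add]
      exact_mod_cast hN
    · intro Ω _ _ _ _ _ _ w hVw hx
      exact hT.clC hzκ w hVw hx
  exact lurV_of_finite (S := S) V hS

theorem lus_local_tow (p : ℕ) (hp : p.Prime) {R K : Type u} [CommRing R] [IsDomain R]
    [IsLocalRing R] [IsNoetherianRing R] [IsAlgClosed (ResidueField R)]
    [Field K] [Algebra R K] [IsFractionRing R K] {V : ValuationSubring K}
    {v : RVal K} (hR : IsR1 V) (hrel : Rel V v) (hge : ∀ r : R, algebraMap R K r ∈ V)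
    (hpos : ∀ r ∈ maximalIdeal R, V.valuation (algebraMap R K r) < 1)
    (hm : maximalIdeal R ≠ ⊥) (hp0 : (p : R) = 0)
    (hreg : ∀ Q : Ideal (Hat R), ∀ _ : Q.IsPrime, Q.comap (algebraMap R (Hat R)) = ⊥ →
      IsRegularLocalRing (Localization.AtPrime Q))
    (H : Ideal (Hat R)) (hH : ∀ f, f ∈ H ↔ f ∈ impl (K := K) v) {m : ℕ}
    (hdim : ringKrullDim (Hat R ⧸ H) = m)
    (hz : ∀ f ∈ V, ∃ c : R, V.valuation (f - algebraMap R K c) < 1)
    (hN : m ≤ 4) (hT : FormalTower p V) :
    ∃ (Ω : Type u) (_ : Field Ω) (w : RVal Ω) (j : K →+* Ω), (∀ x : K, x ≠ 0 → w (j x) = v x) ∧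
      LUs w (j.comp (algebraMap R K)).range j.fieldRange := by
  obtain ⟨Ω, i0, w, π, j, h, hred⟩ := exists_HD hrel hge hpos hm hreg H hH
  refine ⟨Ω, i0, w, j, h.val, hred ?_⟩
  have i1 : IsLocalRing π.range := range_isLocal π
  have i2 : IsNoetherianRing π.range := range_isNoetherian π
  have i3 : IsAdicComplete (maximalIdeal π.range) π.range := range_isAdicComplete π
  have i5 : IsFractionRing π.range Ω := h.isFractionRing
  have hdim' : ringKrullDim π.range = m := by
    rw [range_dim, h.ker, hdim]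
  have hR' : IsR1 (vring w) :=
    LCD.isR1_of_real (fun f => (rel_vring w).mem_iff f) (h.isR1 hrel hR)
  have hC : ∀ c : π.range, algebraMap π.range Ω c ∈ vring w := by
    rintro ⟨_, f, rfl⟩
    exact h.ge f
  have hmC : ∀ c ∈ maximalIdeal π.range, (vring w).valuation (algebraMap π.range Ω c) < 1 := by
    intro c hc
    rw [(rel_vring w).lt_one_iff']
    exact h.pos c hc
  have hinj : Function.Injective (π.rangeRestrict.comp (algebraMap R (Hat R))) := by
    intro x y hxy
    have h1 : π (algebraMap R (Hat R) x) = π (algebraMap R (Hat R) y) := congrArg Subtype.val hxy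
    rw [h.comp, h.comp] at h1
    exact IsFractionRing.injective R K (j.injective h1)
  obtain ⟨e, he⟩ := exists_residue_equiv π
  have i6 : CharP π.range p := (CharP.charP_iff_prime_eq_zero hp).2 (by
    have h2 := congrArg (π.rangeRestrict.comp (algebraMap R (Hat R))) hp0
    rwa [map_natCast, map_zero] at h2)
  have hm' : maximalIdeal π.range ≠ ⊥ := by
    obtain ⟨t, ht, ht0⟩ := Submodule.exists_mem_ne_zero_of_ne_bot hm
    intro h0
    have h1 := HD.mem_max (π := π) t ht
    rw [h0, Ideal.mem_bot] at h1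
    exact ht0 (hinj (h1.trans (map_zero _).symm))
  refine lurV_complete_tow p hp (k := ResidueField R) e.toRingHom e.surjective hdim' (vring w) hR'
    hC hmC hm' ?_ hN ?_
  · intro f hf
    obtain ⟨y, hy⟩ := h.dens f 1
    have hf' := (rel_vring w).mem_iff f |>.1 hf
    have hyge : w.Ge 0 (j y) := by
      have h1 : j y = f - (f - j y) := by ring
      rw [h1]
      exact RVal.Ge.sub hf' (hy.mono zero_le_one)
    have hyV : y ∈ V := by
      rw [hrel.mem_iff]
      intro h0
      have h1 := hyge ((map_ne_zero j).2 h0)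
      rwa [h.val y h0] at h1
    obtain ⟨c, hc⟩ := hz y hyV
    refine ⟨⟨π (algebraMap R (Hat R) c), _, rfl⟩, ?_⟩
    rw [(rel_vring w).lt_one_iff']
    have h2 : f - algebraMap π.range Ω ⟨π (algebraMap R (Hat R) c), _, rfl⟩ =
        (f - j y) + j (y - algebraMap R K c) := by
      change f - π (algebraMap R (Hat R) c) = _
      rw [h.comp, map_sub]
      ring
    rw [h2]
    refine VPos.add (fun h0 => lt_of_lt_of_le one_pos (hy h0)) ?_
    intro h0
    have h0' := (map_ne_zero j).1 h0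
    rw [h.val _ h0']
    exact (hrel.lt_one_iff' _).1 hc h0'
  · refine hT.dense (rel_vring w) j (fun g hg => ?_) h.dens hR'
    rw [h.val g hg, hrel.mem_iff]
    exact ⟨fun h1 => h1 hg, fun h1 _ => h1⟩

end Pool.Agent.TWD
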