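import Pool.Agent.Lib.TWD.GenF
import Pool.Agent.Lib.TWV.LusV
import Pool.Agent.Lib.TWV.ClsV

/-!
# The formal form of log uniformization, tame value groups of any rational rank

* `PFR p r`: the class of the valuation rings whose value group, localized at `p`, is in a finitely
  generated module, and has `r` independent elements;
* `lus_V_alg`: function fields of transcendence degree at most `r + 3`;
* `lus_V_setup`: the fields `K₀` of `LUC.Setup`;
* `bbp_V`, `denseP_V`: the hypotheses of `logUniformizable_formalPd` for the class `PFR p r`.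
-/

set_option autoImplicit false

open Polynomial

namespace Pool.Agent.TWD

open Pool.Agent.H15JM (RVal)
open Pool.Agent.LU1 (VPos)
open Pool.Agent.LU2 (IsR1 IndVal Rel vring rcomap rel_vring)
open Pool.Agent.LUC
open Pool.Agent.D2 (Ctx0 residue_ext0)
open Pool.Agent.D2P (clI mem_clI)
open Pool.Agent.TWM (CompleteV Dense Cld clI_mono clI_clI le_clI)
open Pool.Agent.TA (CtxR)
open Pool.Agent.TW (Ctx ctx_of_ctxR)
open Pool.Agent.TWS (VG)
open Pool.Agent.TWV (PF vals PFc TameLeafV)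
open Pool.Agent.ALLF (ctxR_of_ext exists_max_ind)

universe u

/-- The localization at `p` of the value group of `V` is in a finitely generated module, and the
value group has `r` independent elements. -/
def PFR (p r : ℕ) (K : Type u) [Field K] (V : ValuationSubring K) : Prop :=
  PFc p V ∧ ∃ x : Fin r → K, IndVal V x

/-- The tame leaf, for all ground fields. -/
def LeafV (p : ℕ) : Prop :=
  ∀ (k : Type u) [Field k] [IsAlgClosed k] [CharP k p], TameLeafV p k

/-- The number of independent elements of a span. -/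
theorem card_le_of_span {M : Type*} [AddCommGroup M] [Module ℚ M] {r s : ℕ} {a : Fin r → M}
    {b : Fin s → M} (ha : LinearIndependent ℚ a)
    (h : ∀ i, a i ∈ Submodule.span ℚ (Set.range b)) : r ≤ s := by
  classical
  have hfin : Module.Finite ℚ (Submodule.span ℚ (Set.range b)) :=
    Module.Finite.span_of_finite ℚ (Set.finite_range b)
  let a' : Fin r → Submodule.span ℚ (Set.range b) := fun i => ⟨a i, h i⟩
  have ha' : LinearIndependent ℚ a' := by
    refine LinearIndependent.of_comp (Submodule.subtype _) ?_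
    exact ha
  have h1 := ha'.fintype_card_le_finrank
  have h2 := finrank_range_le_card (R := ℚ) b
  rw [Fintype.card_fin] at h1 h2
  exact h1.trans h2

/-- **The function fields of transcendence degree at most `r + 3`.** -/
theorem lus_V_alg (p : ℕ) [Fact p.Prime] (hT : LeafV.{u} p) {κ K Ω : Type u} [Field κ]
    [IsAlgClosed κ] [CharP κ p] [Field K] [Algebra κ K] [Field Ω] [IsAlgClosed Ω] [Algebra κ Ω]
    [Algebra K Ω] [IsScalarTower κ K Ω] [Algebra.IsAlgebraic K Ω]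
    (hK : (⊤ : IntermediateField κ K).FG)
    (v : RVal K) (hc0 : Ctx0 κ v) (w : RVal Ω)
    (hw : ∀ g : K, g ≠ 0 → w (algebraMap K Ω g) = v g) (hpos : ∃ c : K, c ≠ 0 ∧ 0 < v c)
    {r₀ : ℕ} (htr : Algebra.trdeg κ K ≤ ((r₀ + 3 : ℕ) : Cardinal)) (hP : PF p (vals v))
    (x₀ : Fin r₀ → K) (hx₀0 : ∀ i, x₀ i ≠ 0) (hx₀ : LinearIndependent ℚ fun i => v (x₀ i)) :
    LUs w (algebraMap κ Ω).range (algebraMap K Ω).fieldRange := by
  classical
  obtain ⟨n, hn⟩ := Cardinal.lt_aleph0.1 (lt_of_le_of_lt htr Cardinal.natCast_lt_aleph0)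
  have hn4 : n ≤ r₀ + 3 := by
    rw [hn] at htr
    exact_mod_cast htr
  obtain ⟨r, x, hx0, hx, hspan⟩ := exists_max_ind v hc0.triv hn
  have hctx : CtxR κ w n r := ctxR_of_ext v hc0 w hw hn x hx0 hx hspan
  have hr : 0 < r := by
    rcases Nat.eq_zero_or_pos r with h0 | h0
    · exfalso
      subst h0
      obtain ⟨c, hc0, hc⟩ := hpos
      have h1 := hspan c hc0
      rw [Set.range_eq_empty, Submodule.span_empty, Submodule.mem_bot] at h1
      rw [h1] at hc
      exact lt_irrefl _ hc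
    · exact h0
  have hrr : r₀ ≤ r := card_le_of_span hx₀ fun i => hspan _ (hx₀0 i)
  let ι : K →ₐ[κ] Ω := IsScalarTower.toAlgHom κ K Ω
  let L : IntermediateField κ Ω := ι.fieldRange
  have hL : L.toSubfield = (algebraMap K Ω).fieldRange := by
    ext f
    constructor
    · rintro ⟨g, hg⟩
      exact ⟨g, hg⟩
    · rintro ⟨g, hg⟩
      exact ⟨g, hg⟩
  have hLfg : L.FG := by
    obtain ⟨S, hS⟩ := hK
    refine ⟨S.image ι, ?_⟩
    rw [Finset.coe_image, ← IntermediateField.adjoin_map, hS]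
    exact (AlgHom.fieldRange_eq_map ι).symm
  have halg : ∀ g : Ω, IsAlgebraic L g := by
    intro g
    obtain ⟨P, hP0, hP⟩ := (Algebra.IsAlgebraic.isAlgebraic g : IsAlgebraic K g)
    let j : K →+* L := (ι.rangeRestrict : K →ₐ[κ] ι.range).toRingHom
    refine ⟨P.map j, ?_, ?_⟩
    · exact (Polynomial.map_ne_zero_iff j.injective).2 hP0
    · rw [Polynomial.aeval_def, Polynomial.eval₂_map]
      exact hP
  have e : K ≃ₐ[κ] L := AlgEquiv.ofInjectiveField ι
  rw [← hL]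
  by_cases h2 : n ≤ r + 2
  · exact TW.lus_twoR p hctx hr h2 hLfg halg
  · have hc : Ctx κ w r := ctx_of_ctxR hctx hr
    have htrL : Algebra.trdeg κ L = (n : ℕ) := e.trdeg_eq.symm.trans hn
    have : CharP Ω p := charP_of_injective_algebraMap (algebraMap κ Ω).injective p
    refine TWV.lus_V p (hT κ) hc hLfg halg htrL (Or.inr ⟨by omega, hP.sub ?_⟩)
    rintro _ ⟨_, ⟨g, rfl⟩, hg0, rfl⟩
    have hg0' : g ≠ 0 := by
      rintro rfl
      exact hg0 (map_zero _)
    exact ⟨g, hg0', (hw g hg0').symm⟩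

/-- **The fields `K₀` of `LUC.Setup`.** -/
theorem lus_V_setup (p : ℕ) [Fact p.Prime] (hT : LeafV.{u} p) {κ Ω : Type u} [Field κ]
    [IsAlgClosed κ] [CharP κ p]
    [Field Ω] [IsAlgClosed Ω] [Algebra κ Ω] {w : RVal Ω} {S : Subring Ω} {m e q : ℕ}
    {x : Fin m → Ω} {t : Fin e → Ω} {K₀ K' : Subfield Ω} {B : Finset Ω} {α : Fin q → Ω} {u : Ω}
    {H : Polynomial Ω} (h : Setup w (algebraMap κ Ω).range S x t K₀ K' B α u H)
    (h0 : Ctx0 κ w) {r₀ : ℕ} (hm : m + e ≤ r₀ + 3) (E : IntermediateField κ Ω)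
    (hE : E.toSubfield ≤ K')
    (hcl : ∀ f ∈ K', f ∈ Cl w E.toSubfield)
    (hpos : ∃ c ∈ K', c ≠ 0 ∧ 0 < w c)
    (hP : PF p (VG w E)) (x₀ : Fin r₀ → Ω) (hx₀E : ∀ i, x₀ i ∈ E) (hx₀0 : ∀ i, x₀ i ≠ 0)
    (hx₀ : LinearIndependent ℚ fun i => w (x₀ i)) :
    LUs w (algebraMap κ Ω).range K₀ := by
  classical
  have hκK : ∀ c : κ, algebraMap κ Ω c ∈ K₀ := fun c =>
    h.quo₀.1 _ (base_le_adj _ _ ⟨c, rfl⟩)
  let i0 : Algebra κ K₀ := ((algebraMap κ Ω).codRestrict K₀ hκK).toAlgebra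
  have i1 : IsScalarTower κ K₀ Ω := IsScalarTower.of_algebraMap_eq fun c => rfl
  -- `K₀ ≤ K'`
  have hS : S ≤ K'.toSubring := by
    intro s hs
    exact h.quo.1 s (base_le_adj _ _ hs)
  have hKK : K₀ ≤ K' := by
    intro f hf
    obtain ⟨a, ha, b, hb, -, rfl⟩ := h.quo₀.2 f hf
    have h1 : adj (algebraMap κ Ω).range (B : Set Ω) ≤ K'.toSubring := by
      refine adj_le (fun s hs => hS (h.base.le hs)) fun b hb => ?_
      exact h.quo.1 b (mem_adj (Or.inl hb))
    exact K'.div_mem (h1 ha) (h1 hb)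
  -- the algebraic closure of `K₀`
  let Ω₀ : IntermediateField K₀ Ω := algebraicClosure K₀ Ω
  let i2 : Algebra κ Ω₀ := ((algebraMap K₀ Ω₀).comp (algebraMap κ K₀)).toAlgebra
  have i3 : IsScalarTower κ K₀ Ω₀ := IsScalarTower.of_algebraMap_eq fun c => rfl
  have i4 : IsAlgClosed Ω₀ := (algebraicClosure.isAlgClosure K₀ Ω).isAlgClosed
  have i5 : Algebra.IsAlgebraic K₀ Ω₀ := (algebraicClosure.isAlgClosure K₀ Ω).isAlgebraic
  let j : Ω₀ →ₐ[κ] Ω := { Ω₀.val.toRingHom with commutes' := fun c => rfl }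
  let w₀ : RVal Ω₀ := rcomap w j.toRingHom
  let v₀ : RVal K₀ := rcomap w K₀.subtype
  have hv₀ : ∀ a : K₀, v₀ a = w (a : Ω) := fun a => rfl
  -- the field `K₀`
  have hc0 : Ctx0 κ v₀ := by
    refine ⟨fun c hc => h0.triv c hc, fun g hg hg0 => ?_⟩
    obtain ⟨c, hc, hc1⟩ := h0.res (g : Ω) (fun h1 => hg (Subtype.ext h1)) hg0
    refine ⟨c, hc, fun h2 => ?_⟩
    exact hc1 fun h3 => h2 (Subtype.ext h3)
  have hpos₀ : ∃ c : K₀, c ≠ 0 ∧ 0 < v₀ c := by
    obtain ⟨c, hcK, hc0, hcw⟩ := hpos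
    obtain ⟨c₀, hc₀, hc₀0, hc₀w, -⟩ := Cl.exists_val (h.cl c hcK) 0 hc0
    refine ⟨⟨c₀, hc₀⟩, fun h1 => hc₀0 (congrArg Subtype.val h1), ?_⟩
    rw [hv₀]
    exact hc₀w.symm ▸ hcw
  have hP₀ : PF p (vals v₀) := by
    refine hP.sub ?_
    rintro _ ⟨g, hg, rfl⟩
    have hg0 : (g : Ω) ≠ 0 := fun h2 => hg (Subtype.ext h2)
    obtain ⟨g₀, hg₀, hg₀0, hg₀w, -⟩ := Cl.exists_val (hcl g (hKK g.2)) 0 hg0
    exact ⟨g₀, hg₀, hg₀0, hg₀w⟩
  have hx₁ : ∀ i, ∃ y : K₀, y ≠ 0 ∧ v₀ y = w (x₀ i) := by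
    intro i
    obtain ⟨f₀, hf₀, hf₀0, hf₀w, -⟩ := Cl.exists_val (h.cl _ (hE (hx₀E i))) 0 (hx₀0 i)
    exact ⟨⟨f₀, hf₀⟩, fun h1 => hf₀0 (congrArg Subtype.val h1), hf₀w⟩
  choose x₁ hx₁0 hx₁w using hx₁
  have hx₁i : LinearIndependent ℚ fun i => v₀ (x₁ i) := by
    simp only [hx₁w]
    exact hx₀
  have h5 : LUs w₀ (algebraMap κ Ω₀).range (algebraMap K₀ Ω₀).fieldRange :=
    lus_V_alg p hT h.fg v₀ hc0 w₀ (fun g _ => rfl) hpos₀
      (h.trdeg_le.trans (by exact_mod_cast hm)) hP₀ x₁ hx₁0 hx₁i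
  -- back to `Ω`
  set V₀ : ValuationSubring K₀ := vring v₀ with hV₀
  have hV1 : ∀ f : K₀, f ∈ V₀ ↔ w₀.Ge 0 (algebraMap K₀ Ω₀ f) := by
    intro f
    rw [(rel_vring v₀).mem_iff]
    constructor
    · intro h1 h2
      exact h1 (by simpa using h2)
    · intro h1 h2
      exact h1 (by simpa using h2)
  have hkV : ∀ c : κ, algebraMap κ K₀ c ∈ V₀ := by
    intro c
    rw [(rel_vring v₀).mem_iff]
    intro h1
    have h2 : c ≠ 0 := by
      rintro rfl
      exact h1 (map_zero _)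
    rw [hv₀]
    exact (h0.triv c h2).ge
  have hL := LUs.lurV hV1 hkV h5
  have hL' := LUrV.lus (w := w) (Ω := Ω) (V := V₀) (fun f => by
    rw [(rel_vring v₀).mem_iff]
    constructor
    · intro h1 h2
      exact h1 (by simpa using h2)
    · intro h1 h2
      exact h1 (by simpa using h2)) hkV hL
  have hr : (algebraMap K₀ Ω).fieldRange = K₀ := by
    ext f
    constructor
    · rintro ⟨y, rfl⟩
      exact y.2
    · intro hf
      exact ⟨⟨f, hf⟩, rfl⟩
  rw [hr] at hL'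
  exact hL'

/-- **The class over regular local rings with a coefficient field.** -/
theorem bbp_V (p : ℕ) [Fact p.Prime] (hT : LeafV.{u} p) (r : ℕ) :
    BBPd.{u} p (r + 3) (PFR p r) := by
  intro κ S K _ _ _ _ _ _ _ _ _ _ _ _ _ _ _ hres m hdim s hs hsep V hR hS hmS hz hN hQ
  classical
  obtain ⟨v, w, hrel, hw, hV, hVpos, c', hc0, hcV⟩ := exists_entry V hR
  let Ω : Type u := AlgebraicClosure K
  let ι : K →+* Ω := algebraMap K Ω
  have hι0 : ∀ f : K, ι f ≠ 0 ↔ f ≠ 0 := fun f => (_root_.map_ne_zero ι)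
  have hinj : Function.Injective (algebraMap S Ω) := by
    rw [IsScalarTower.algebraMap_eq S K Ω]
    exact ι.injective.comp (FaithfulSMul.algebraMap_injective S K)
  obtain ⟨x, hB⟩ := exists_base (k := κ) hinj w hres hdim
    (fun s => by rw [IsScalarTower.algebraMap_apply S K Ω]; exact (hV _).1 (hS s))
    (fun s hs => by rw [IsScalarTower.algebraMap_apply S K Ω]; exact hVpos _ (hmS s hs))
  obtain ⟨e, -, -, -, -, -, -, -, -, -, -, htr⟩ := exists_primitive s hs hsep V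
  have hk : ∀ c : κ, algebraMap κ K c ∈ V := by
    intro c
    rw [IsScalarTower.algebraMap_apply κ S K]
    exact hS _
  have hN' : m + e ≤ r + 3 := by
    rw [htr] at hN
    have : e + m ≤ r + 3 := by exact_mod_cast hN
    omega
  -- the residue field of the algebraic closure
  have htriv : ∀ c : κ, c ≠ 0 → v (algebraMap κ K c) = 0 := by
    intro c hc
    have hc' : algebraMap κ K c ≠ 0 := by rwa [_root_.map_ne_zero]
    have h1 := (hrel _ hc').1 (hk c)
    have h2 := (hrel _ (inv_ne_zero hc')).1 (by rw [← map_inv₀]; exact hk c⁻¹)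
    rw [v.map_inv hc'] at h2
    linarith
  have hctx : Ctx0 κ v := by
    refine ⟨htriv, fun g hg hg0 => ?_⟩
    obtain ⟨c, hc⟩ := hz g ((hrel g hg).2 hg0.ge)
    have hc1 := (hrel.lt_one_iff' _).1 hc
    refine ⟨c, ?_, hc1⟩
    rintro rfl
    rw [_root_.map_zero, sub_zero] at hc1
    have h1 := hc1 hg
    rw [hg0] at h1
    exact lt_irrefl _ h1
  have hwctx : Ctx0 κ w := by
    refine ⟨fun c hc => ?_, fun g hg hg0 => residue_ext0 v hctx w hw g hg hg0⟩
    rw [IsScalarTower.algebraMap_apply κ K Ω, hw _ (by rwa [_root_.map_ne_zero])]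
    exact htriv c hc
  let E : IntermediateField κ Ω := (IsScalarTower.toAlgHom κ K Ω).fieldRange
  have hE : E.toSubfield = (algebraMap K Ω).fieldRange := by
    ext f
    constructor
    · rintro ⟨g, hg⟩
      exact ⟨g, hg⟩
    · rintro ⟨g, hg⟩
      exact ⟨g, hg⟩
  obtain ⟨hPc, y, hy⟩ := hQ
  obtain ⟨hy0, hyi⟩ := (LU2.Rel.indVal_iff hrel).1 hy
  have hP := hPc.of_rel hrel
  refine lurV_of_base' s hs hsep V w hV hS ⟨c', hc0, by rw [hw c' hc0]; exact hcV⟩ _ x hB htr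
    fun t q K₀ K' B α u H ht hKK' hcl hset => ?_
  refine lus_V_setup p hT hset hwctx hN' E (by rw [hE]; exact hKK') (by rw [hE]; exact hcl)
    ⟨ι c', hKK' ⟨c', rfl⟩, (hι0 c').2 hc0, by rw [hw c' hc0]; exact hcV⟩ (hP.sub ?_)
    (fun i => ι (y i)) (fun i => ⟨y i, rfl⟩) (fun i => (hι0 _).2 (hy0 i)) ?_
  · rintro _ ⟨_, ⟨g, rfl⟩, hg0, rfl⟩
    have hg0' : g ≠ 0 := (hι0 g).1 hg0
    exact ⟨g, hg0', (hw g hg0').symm⟩
  · have e1 : (fun i => w (ι (y i))) = fun i => v (y i) := by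
      funext i
      exact hw _ (hy0 i)
    rw [e1]
    exact hyi

/-- **The class passes to dense extensions.** -/
theorem denseP_V (p r : ℕ) : DenseP.{u} (PFR p r) := by
  intro K K' _ _ V V' h w hrel j hj hd hR
  have hrelK : Rel V (rcomap w j) := fun g hg => hj g hg
  obtain ⟨hPc, x, hx⟩ := h
  have hP := hPc.of_rel hrelK
  obtain ⟨hx0, hxi⟩ := (LU2.Rel.indVal_iff hrelK).1 hx
  refine ⟨⟨w, hrel, hP.sub ?_⟩, fun i => j (x i), (LU2.Rel.indVal_iff hrel).2
    ⟨fun i => (_root_.map_ne_zero j).2 (hx0 i), hxi⟩⟩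
  rintro _ ⟨g', hg', rfl⟩
  -- an element of `K` with the value of `g'`
  obtain ⟨y, hy⟩ := hd g' (w g' + 1)
  have h2 : j y ≠ 0 ∧ w (j y) = w g' := by
    by_cases h3 : g' - j y = 0
    · have h4 : g' = j y := sub_eq_zero.1 h3
      rw [← h4]
      exact ⟨hg', rfl⟩
    · have h4 := hy h3
      have h5 : w g' < w (-(g' - j y)) := by
        rw [w.map_neg _ h3]
        linarith
      have h6 := w.add_of_lt hg' (neg_ne_zero.2 h3) h5
      have h7 : g' + -(g' - j y) = j y := by ring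
      rw [h7] at h6
      exact h6
  exact ⟨y, (_root_.map_ne_zero j).1 h2.1, h2.2⟩

end Pool.Agent.TWD
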