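import Pool.Agent.Lib.TWD.GenE
import Pool.Agent.Lib.TWD.GenD

/-!
# The formal form of log uniformization for a class of valuation rings: final theorem
-/

set_option autoImplicit false

namespace Pool.Agent.TWD

open IsLocalRing
open Pool.Agent.H15JM (RVal)
open Pool.Agent.LU1 (VPos)
open Pool.Agent.LU2 (IsR1 IndVal IndRes DefLE Rel vring rcomap rel_vring)
open Pool.Agent.LU2G (LUr centerRing chart compRank LogUniformizable)
open Pool.Agent.LUC
open Pool.Agent.LCD
open Pool.Agent.LUZ

universe u

section Local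

variable {P : ∀ (K : Type u) [Field K], ValuationSubring K → Prop}

theorem lus_local_Pd' (p : ℕ) (hp : p.Prime) {d : ℕ} {R K : Type u} [CommRing R] [IsDomain R]
    [IsLocalRing R] [IsNoetherianRing R] [IsAlgClosed (ResidueField R)]
    [Field K] [Algebra R K] [IsFractionRing R K] {V : ValuationSubring K}
    {v : RVal K} (hR : IsR1 V) (hrel : Rel V v) (hge : ∀ r : R, algebraMap R K r ∈ V)
    (𝔪 : Ideal R) (h𝔪 : 𝔪 = maximalIdeal R)
    (hpos : ∀ r ∈ 𝔪, V.valuation (algebraMap R K r) < 1)
    (hm : 𝔪 ≠ ⊥) (hp0 : (p : R) = 0)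
    (hreg : ∀ Q : Ideal (AdicCompletion 𝔪 R), ∀ _ : Q.IsPrime,
      Q.comap (algebraMap R (AdicCompletion 𝔪 R)) = ⊥ →
      IsRegularLocalRing (Localization.AtPrime Q)) {m : ℕ}
    (hdim : ringKrullDim (AdicCompletion 𝔪 R ⧸ Ideal.span (implV (K := K) V 𝔪)) = m)
    (hz : ∀ f ∈ V, ∃ c : R, V.valuation (f - algebraMap R K c) < 1)
    (hN : m ≤ d) (hBB : BBPd p d P) (hD : DenseP P) (hT : P _ V) :
    ∃ (Ω : Type u) (_ : Field Ω) (w : RVal Ω) (j : K →+* Ω), (∀ x : K, x ≠ 0 → w (j x) = v x) ∧
      LUs w (j.comp (algebraMap R K)).range j.fieldRange := by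
  subst h𝔪
  refine lus_local_Pd p hp hR hrel hge hpos hm hp0 hreg
    (Ideal.span (implV (K := K) V (maximalIdeal R))) (fun f => ?_) hdim hz hN hBB hD hT
  obtain ⟨Ω, i0, w, π, j, -, -, -, -, h5, -⟩ := exists_hat (R := R) v
    (fun r => (hrel.mem_iff _).1 (hge r)) (fun r hr => (hrel.lt_one_iff' _).1 (hpos r hr)) hm
  rw [implV_eq hrel hR]
  have h6 : (impl v : Set (Hat R)) = (RingHom.ker π : Set (Hat R)) := by
    ext g
    rw [SetLike.mem_coe, RingHom.mem_ker, h5]
  rw [h6, Ideal.span_eq]
  rfl

end Local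

section Final

variable {P : ∀ (K : Type) [Field K], ValuationSubring K → Prop}

variable {A : Type} [CommRing A] [IsDomain A] {V : ValuationSubring (FractionRing A)}

/-- Log uniformization over the local ring of a chart. -/
theorem exists_lus_center_Pd (p : ℕ) (hp : p.Prime) {d : ℕ} (B : Subalgebra A (FractionRing A))
    [IsNoetherianRing B] (hB : ∀ z ∈ B, z ∈ V) (hR : IsR1 V) {v : RVal (FractionRing A)}
    (hrel : Rel V v) (hpA : (p : A) = 0)
    [IsAlgClosed (centerField V B)] (halg : Algebra.IsAlgebraic (centerField V B) (ResidueField V))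
    (hreg : ∀ Q : Ideal (CenterCompletion V B), ∀ _ : Q.IsPrime,
      Q.comap (algebraMap (centerRing V B) (CenterCompletion V B)) = ⊥ →
      IsRegularLocalRing (Localization.AtPrime Q))
    (m : ℕ) (hm : ringKrullDim (CenterCompletion V B ⧸ implicitIdeal V B) = m)
    (hN : m ≤ d) (hBB : BBPd p d P) (hD : DenseP P) (hT : P _ V) :
    ∃ (Ω : Type) (_ : Field Ω) (w : RVal Ω) (j : FractionRing A →+* Ω),
      (∀ x : FractionRing A, x ≠ 0 → w (j x) = v x) ∧
      LUs w (j.comp (algebraMap (centerRing V B) (FractionRing A))).range j.fieldRange := by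
  have i1 : IsLocalRing (centerRing V B) := isLocalRing_center hB
  have i2 : IsNoetherianRing (centerRing V B) := isNoetherian_center
  have i3 : IsFractionRing (centerRing V B) (FractionRing A) := isFractionRing_center
  have hpos : ∀ r ∈ centerIdeal V B, V.valuation
      (algebraMap (centerRing V B) (FractionRing A) r) < 1 := by
    intro r hr
    rw [centerIdeal_eq hB] at hr
    exact (mem_max_center hB r).1 hr
  have hmem : ∀ r : centerRing V B, V.valuation (r : FractionRing A) < 1 →
      r ∈ centerIdeal V B := fun r hr => Ideal.subset_span hr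
  have hbot : centerIdeal V B ≠ ⊥ := by
    intro h0
    apply hR.1
    rw [eq_top_iff]
    intro x _
    obtain ⟨a, b, hb, rfl⟩ := IsFractionRing.div_surjective (A := centerRing V B) x
    have hb1 : V.valuation (algebraMap (centerRing V B) (FractionRing A) b) = 1 := by
      refine le_antisymm ((V.valuation_le_one_iff _).2 (centerRing_le hB b)) ?_
      by_contra hcon
      have h1 := hmem b (not_le.1 hcon)
      rw [h0, Ideal.mem_bot] at h1
      exact nonZeroDivisors.ne_zero hb h1
    rw [← V.valuation_le_one_iff, map_div₀, hb1, div_one]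
    exact (V.valuation_le_one_iff _).2 (centerRing_le hB a)
  have hp0 : ((p : ℕ) : centerRing V B) = 0 := by
    have h1 := congrArg (algebraMap A (centerRing V B)) hpA
    rwa [map_natCast, map_zero] at h1
  -- the residue field
  obtain ⟨e, he⟩ := exists_center_residue hB
  have i4 : IsAlgClosed (ResidueField (centerRing V B)) :=
    IsAlgClosed.of_ringEquiv _ _ e.symm
  have hz : ∀ f ∈ V, ∃ c : centerRing V B,
      V.valuation (f - algebraMap (centerRing V B) (FractionRing A) c) < 1 := by
    intro f hf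
    obtain ⟨y, hy⟩ := (IsAlgClosed.algebraMap_bijective_of_isIntegral
      (k := centerField V B) (K := ResidueField V)).2 (residue V ⟨f, hf⟩)
    obtain ⟨c, hc⟩ := residue_surjective (e.symm y)
    refine ⟨c, ?_⟩
    have h1 : e (residue _ c) = y := by rw [hc, e.apply_symm_apply]
    have h2 : resMap hB c = residue V ⟨f, hf⟩ := by
      rw [← he c, h1]
      exact hy
    have h3 : residue V (⟨f, hf⟩ - ⟨algebraMap (centerRing V B) (FractionRing A) c,
        centerRing_le hB c⟩) = 0 := by
      rw [map_sub, ← h2, resMap_apply, sub_self]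
    rw [residue_eq_zero_iff, V.valuation_lt_one_iff] at h3
    exact h3
  exact lus_local_Pd' p hp hR hrel (centerRing_le hB) (centerIdeal V B)
    (centerIdeal_eq hB) hpos hbot hp0 hreg hm hz hN hBB hD hT

/-- Log uniformization of valuations of rank one over noetherian domains. -/
theorem logUniformizable_Pd (p : ℕ) (hp : p.Prime) {d : ℕ} (A : Type) [CommRing A] [IsDomain A]
    [IsNoetherianRing A] (V : ValuationSubring (FractionRing A))
    (hV : ∀ a : A, algebraMap A (FractionRing A) a ∈ V) (hrank : IsCoatom V)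
    (hpA : (p : A) = 0) (I : Ideal A) (g : A) (hg : g ∈ I)
    (hg0 : g ≠ 0) (hgmin : ∀ a ∈ I, V.valuation (algebraMap A (FractionRing A) a) ≤
      V.valuation (algebraMap A (FractionRing A) g))
    [IsAlgClosed (centerField V (chart I g))]
    (halg : Algebra.IsAlgebraic (centerField V (chart I g)) (ResidueField V))
    (hreg : ∀ Q : Ideal (CenterCompletion V (chart I g)), ∀ _ : Q.IsPrime,
      Q.comap (algebraMap (centerRing V (chart I g)) (CenterCompletion V (chart I g))) = ⊥ →
      IsRegularLocalRing (Localization.AtPrime Q))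
    (m : ℕ)
    (hm : ringKrullDim (CenterCompletion V (chart I g) ⧸ implicitIdeal V (chart I g)) = m)
    (hN : m ≤ d) (hBB : BBPd p d P) (hD : DenseP P) (hT : P _ V) :
    LogUniformizable V := by
  classical
  have hR : IsR1 V := by
    refine ⟨hrank.1, fun W hW => ?_⟩
    rcases hW.eq_or_lt with h1 | h1
    · exact Or.inl h1.symm
    · exact Or.inr (hrank.2 W h1)
  obtain ⟨v, hrel, -⟩ := hR.exists_real
  have hrel : Rel V v := hrel
  have hB : ∀ z ∈ chart I g, z ∈ V := chart_le hV I g hg0 hgmin
  have i0 : IsNoetherianRing (chart I g) := isNoetherian_chart I g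
  obtain ⟨Ω, i1, w, j, hval, hLU⟩ := exists_lus_center_Pd p hp (chart I g) hB hR hrel hpA halg
    hreg m hm hN hBB hD hT
  let i4 : Algebra (FractionRing A) Ω := j.toAlgebra
  let i5 : Algebra A Ω := (j.comp (algebraMap A (FractionRing A))).toAlgebra
  have i6 : IsScalarTower A (FractionRing A) Ω := IsScalarTower.of_algebraMap_eq fun _ => rfl
  have hVw : ∀ f : FractionRing A, f ∈ V ↔ w.Ge 0 (algebraMap (FractionRing A) Ω f) := by
    intro f
    rw [hrel.mem_iff]
    constructor
    · intro h1 h0
      have h2 := (map_ne_zero j).1 h0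
      change 0 ≤ w (j f)
      rw [hval f h2]
      exact h1 h2
    · intro h1 h0
      rw [← hval f h0]
      exact h1 ((map_ne_zero j).2 h0)
  have hA' : ∀ a ∈ (algebraMap A Ω).range, w.Ge 0 a := by
    rintro _ ⟨a, rfl⟩
    exact (hVw _).1 (hV a)
  obtain ⟨F, hF, hchart⟩ := exists_chart_eq I g
  have hg' : algebraMap A Ω g ≠ 0 := by
    intro h
    have h1 : algebraMap A (FractionRing A) g = 0 := (map_eq_zero j).1 h
    exact hg0 (IsFractionRing.injective A (FractionRing A) (h1.trans (map_zero _).symm))
  have hv : ∀ a ∈ I, w.Ge (w (algebraMap A Ω g)) (algebraMap A Ω a) := by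
    intro a ha
    have h1 : algebraMap A (FractionRing A) g ≠ 0 := fun h =>
      hg0 (IsFractionRing.injective A (FractionRing A) (h.trans (map_zero _).symm))
    exact (F2.val_le_iff hVw _ h1).1 (hgmin a ha)
  have himg : (fun x => x / algebraMap A Ω g) '' ((F.image (algebraMap A Ω) : Finset Ω) : Set Ω) =
      algebraMap (FractionRing A) Ω '' ((fun a => algebraMap A (FractionRing A) a /
        algebraMap A (FractionRing A) g) '' (F : Set A)) := by
    rw [Finset.coe_image, Set.image_image, Set.image_image]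
    refine Set.image_congr fun a _ => ?_
    change _ = j _
    rw [map_div₀]
    rfl
  have hlv : lv w (adj (algebraMap A Ω).range ((fun x => x / algebraMap A Ω g) ''
      ((F.image (algebraMap A Ω) : Finset Ω) : Set Ω))) =
      (j.comp (algebraMap (centerRing V (chart I g)) (FractionRing A))).range := by
    rw [himg, F2.map_adjoin, ← hchart, F2.map_locV hVw]
    ext x
    constructor
    · rintro ⟨z, hz, rfl⟩
      exact ⟨⟨z, hz⟩, rfl⟩
    · rintro ⟨z, rfl⟩
      exact ⟨z, z.2, rfl⟩
  have hfin : LUs w (algebraMap A Ω).range (algebraMap (FractionRing A) Ω).fieldRange := by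
    refine LUs.of_chart hA' (algebraMap A Ω g) ⟨g, rfl⟩ hg' (F.image (algebraMap A Ω)) ?_ ?_
    · intro x hx
      obtain ⟨a, ha, rfl⟩ := Finset.mem_image.1 hx
      exact ⟨⟨a, rfl⟩, hv a (hF a ha)⟩
    · rw [hlv]
      exact hLU
  exact LUM.logUniformizable_of_LU A A V hV (LUrV.lu (LUs.lurV hVw hV hfin))

/-- The final form, for the residue field `centerField`. -/
theorem logUniformizable_formalPd (p : ℕ) (hp : p.Prime) {d : ℕ} (A : Type) [CommRing A] [IsDomain A]
    [IsNoetherianRing A] (V : ValuationSubring (FractionRing A))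
    (hV : ∀ a : A, algebraMap A (FractionRing A) a ∈ V) (hrank : IsCoatom V)
    (hpA : (p : A) = 0) (I : Ideal A) (g : A) (hg : g ∈ I)
    (hg0 : g ≠ 0) (hgmin : ∀ a ∈ I, V.valuation (algebraMap A (FractionRing A) a) ≤
      V.valuation (algebraMap A (FractionRing A) g))
    (R : Subalgebra A (FractionRing A)) (hR : R = centerRing V (chart I g))
    (hk : IsAlgClosed (LUF.centerField R V)) (hz : LUF.centerDegree R V = 0)
    (hreg : LUF.RegularFormalFibre R V) (n : ℕ)
    (hn : LUF.formalDim R V = n) (hN : n ≤ d) (hBB : BBPd p d P)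
    (hD : DenseP P) (hT : P _ V) :
    LogUniformizable V := by
  subst hR
  have hB : ∀ z ∈ chart I g, z ∈ V := chart_le hV I g hg0 hgmin
  have e := centerField_centerRing hB
  have h1 : Algebra.IsAlgebraic (LUF.centerField (centerRing V (chart I g)) V)
      (ResidueField V) := trdeg_eq_zero_iff.1 hz
  revert hk h1
  rw [e]
  intro hk h1
  exact logUniformizable_Pd p hp A V hV hrank hpA I g hg hg0 hgmin h1 hreg n hn hN hBB hD hT

end Final

end Pool.Agent.TWD
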