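import Pool.Agent.Lib.D2.HRK
import Pool.Agent.Lib.TWH.H1
import Pool.Agent.Lib.TWV.AllV
import Pool.Agent.Lib.TWV.EntV
import Pool.Agent.Lib.LU2G.CompOf

/-!
# TANK W: henselian rationality of the small real valuations, every `p`

* `exists_param`: log uniformization gives `z` with `E` in the henselization of `k(z)`;
* `of_family`: from a family `z` in the algebraic closure to the statement of `HRK`;
* `Small`: dimension at most `r + 2`, or at most `r + 3` and `[Γ : p Γ] = p ^ r`;
* `exists_rationalS`: henselian rationality.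
-/

set_option autoImplicit false

namespace Pool.Agent.HRD

open Pool.Agent.H15JM (RVal)
open Pool.Agent.LU1 (VPos fixO mem_fixO decG)
open Pool.Agent.LU2 (IsR1 IndVal IndRes Rel vring rel_vring)
open Pool.Agent.LU2G (compRank)
open Pool.Agent.LUC (Cl QuoIs LUs)
open Pool.Agent.D2 (Ctx0)
open Pool.Agent.D2.HR (exists_ctx decG_eq fix_of_cl)
open Pool.Agent.D2P (hen)
open Pool.Agent.TW (compIndex)
open Pool.Agent.TWS (VG)
open Pool.Agent.TWV (PF PFc vals)

universe u

section

variable {k Ω : Type u} [Field k] [Field Ω] [Algebra k Ω] {v : RVal Ω}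

/-- Log uniformization gives parameters `z` such that `E` is in the henselization of `k(z)`. -/
theorem exists_param [IsAlgClosed Ω] [IsAlgClosed k] (h : Ctx0 k v) {E : IntermediateField k Ω}
    (hE : E.FG) {n : ℕ} (htr : Algebra.trdeg k E = n)
    (hLU : LUs v (algebraMap k Ω).range E.toSubfield) :
    ∃ z : Fin n → Ω, (∀ i, z i ∈ E) ∧ (∀ i, 0 < v (z i)) ∧ AlgebraicIndependent k z ∧
      hen v E = hen v (IntermediateField.adjoin k (Set.range z)) := by
  classical
  obtain ⟨A, hA, hQ⟩ := TW.H1.exists_quo v hE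
  obtain ⟨n', z, J, O, hM, hdim⟩ := hLU A hA hQ ∅ (fun t ht => absurd ht (Finset.notMem_empty t))
  obtain ⟨g, hg, hg0, -, G, hG, hO⟩ := hM.chart
  -- the generators of the chart
  set F : Finset Ω := A ∪ G.image (fun x => x / g) with hFdef
  have hFcoe : (F : Set Ω) = (A : Set Ω) ∪ (fun x => x / g) '' (G : Set Ω) := by
    rw [hFdef, Finset.coe_union, Finset.coe_image]
  have hF : ∀ f ∈ F, v.Ge 0 f := by
    intro f hf
    rcases Finset.mem_union.1 hf with hf | hf
    · exact hA f hf
    · obtain ⟨y, hy, rfl⟩ := Finset.mem_image.1 hf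
      intro h0
      have hy0 : y ≠ 0 := by
        rintro rfl
        exact h0 (zero_div _)
      rw [v.map_div hy0 hg0]
      have := (hG y hy).2 hy0
      linarith
  have hQF : QuoIs (LUC.adj (algebraMap k Ω).range (F : Set Ω)) E.toSubfield := by
    have hFE : ∀ f ∈ (F : Set Ω), f ∈ E.toSubfield := by
      intro f hf
      rcases Finset.mem_union.1 (Finset.mem_coe.1 hf) with hf | hf
      · exact hQ.1 f (LUC.mem_adj hf)
      · obtain ⟨y, hy, rfl⟩ := Finset.mem_image.1 hf
        exact div_mem (hQ.1 y (hG y hy).1) (hQ.1 g hg)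
    refine ⟨fun f hf => ?_, fun f hf => ?_⟩
    · exact LUC.adj_le (B := E.toSubfield.toSubring)
        (fun x hx => hQ.1 x (LUC.base_le_adj _ _ hx)) hFE hf
    · obtain ⟨a, ha, b, hb, hb0, e⟩ := hQ.2 f hf
      have hle : LUC.adj (algebraMap k Ω).range (A : Set Ω) ≤
          LUC.adj (algebraMap k Ω).range (F : Set Ω) := LUC.adj_mono le_rfl (by
        rw [hFcoe]
        exact Set.subset_union_left)
      exact ⟨a, hle ha, b, hle hb, hb0, e⟩
  have hO' : O = LUC.lv v (LUC.adj (algebraMap k Ω).range (F : Set Ω)) := by rw [hO, hFcoe]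
  obtain ⟨m, hm, hm'⟩ := TW.dim_eq_trdeg h F hF hQF
  have hn : n' = n := by
    rw [← hO', hdim] at hm'
    have h1 : n' = m := by exact_mod_cast hm'
    rw [htr] at hm
    have h2 : n = m := by exact_mod_cast hm
    omega
  subst hn
  have hpar := hM.par
  rw [hO'] at hpar
  obtain ⟨hzi, hhen⟩ := TW.hen_of_chart h hE htr F hF hQF hpar
  refine ⟨z, fun i => ?_, hpar.pos, hzi, hhen⟩
  obtain ⟨a, ha, b, hb, -, -, hab⟩ := hpar.mem i
  rw [hab]
  exact div_mem (hQF.1 a ha) (hQF.1 b hb)

end

section Family

variable {k K : Type u} [Field k] [Field K] [Algebra k K] [IsAlgClosed k]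

omit [IsAlgClosed k] in
/-- From a family in the algebraic closure to the statement of `HRK`. -/
theorem of_family (p : ℕ) (hK : (⊤ : IntermediateField k K).FG) (V : ValuationSubring K)
    {v : RVal K} {w : RVal (AlgebraicClosure K)} (hrel : Rel V v)
    (hw : ∀ g : K, g ≠ 0 → w (algebraMap K (AlgebraicClosure K) g) = v g) {n : ℕ}
    (z' : Fin n → AlgebraicClosure K)
    (hzL : ∀ i, ∃ a : K, algebraMap K (AlgebraicClosure K) a = z' i)
    (hpos : ∀ i, 0 < w (z' i)) (hai : AlgebraicIndependent k z')
    (hcl : ∀ a : K, algebraMap K (AlgebraicClosure K) a ∈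
      hen w (IntermediateField.adjoin k (Set.range z'))) :
    ∃ z : Fin n → K, AlgebraicIndependent k z ∧ (∀ i, V.valuation (z i) < 1) ∧
      FiniteDimensional (IntermediateField.adjoin k (Set.range z)) K ∧
      Algebra.IsSeparable (IntermediateField.adjoin k (Set.range z)) K ∧
      (∀ a : K, ∃ c ∈ IntermediateField.adjoin k (Set.range z),
        V.valuation c = V.valuation a) ∧
      (∃ W : ValuationSubring (AlgebraicClosure K),
        W.comap (algebraMap K (AlgebraicClosure K)) = V ∧
        ∀ F : IntermediateField k (AlgebraicClosure K),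
          F = IntermediateField.adjoin k
            (Set.range fun i => algebraMap K (AlgebraicClosure K) (z i)) →
          ∀ (N : IntermediateField F (AlgebraicClosure K)) [FiniteDimensional F N]
            [IsGalois F N], (∀ a : K, algebraMap K (AlgebraicClosure K) a ∈ N) →
            ∃ ν : ℕ, p ^ ν ≤ 2 ^ n * n.factorial ∧
              (fixingSubgroup (N ≃ₐ[F] N) {x : N | (x : AlgebraicClosure K) ∈
                Set.range (algebraMap K (AlgebraicClosure K))}).relIndex
                  ((W.comap (algebraMap N (AlgebraicClosure K))).decompositionSubgroup F) =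
                    p ^ ν) ∧
      (∀ a b : K, b ≠ 0 → ∃ c ∈ IntermediateField.adjoin k (Set.range z),
          V.valuation (a - c) < V.valuation b) := by
  classical
  let Ω : Type u := AlgebraicClosure K
  let ι : K →ₐ[k] Ω := IsScalarTower.toAlgHom k K Ω
  have hιinj : Function.Injective ι := ι.injective
  obtain ⟨F, hFdef⟩ : ∃ F : IntermediateField k (AlgebraicClosure K),
    F = IntermediateField.adjoin k (Set.range z') := ⟨_, rfl⟩
  rw [← hFdef] at hcl
  choose z hz using hzL
  have hz1 : ∀ i, ι (z i) = z' i := hz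
  have hrange : Set.range (fun i => ι (z i)) = Set.range z' := congrArg Set.range (funext hz1)
  have hzi : AlgebraicIndependent k z := by
    refine AlgebraicIndependent.of_comp ι ?_
    have h1 : ι ∘ z = z' := funext hz1
    rw [h1]
    exact hai
  have hzne : ∀ i, z i ≠ 0 := hzi.ne_zero
  let F₀ : IntermediateField k K := IntermediateField.adjoin k (Set.range z)
  have hF₀ : F₀.map ι = F := by
    show (IntermediateField.adjoin k (Set.range z)).map ι = _
    rw [IntermediateField.adjoin_map, hFdef, ← hrange]
    congr 1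
    exact (Set.range_comp ι z).symm
  have hmemF : ∀ g : Ω, g ∈ F ↔ ∃ a ∈ F₀, ι a = g := by
    intro g
    rw [← hF₀]
    exact IntermediateField.mem_map F₀
  have hclF : ∀ a : K, ι a ∈ Cl w F.toSubfield := fun a => (D2P.mem_hen.1 (hcl a)).1
  have hsep : ∀ a : K, IsSeparable F (ι a) := fun a => (D2P.mem_hen.1 (hcl a)).2
  -- separability
  have hsepK : ∀ a : K, IsSeparable F₀ a := by
    intro a
    have h1 : IsSeparable F (ι a) := hsep a
    let f : F₀ →+* F :=
      { toFun := fun c => ⟨ι c, (hmemF _).2 ⟨c, c.2, rfl⟩⟩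
        map_one' := by ext; exact ι.map_one
        map_mul' := fun c d => by ext; exact ι.map_mul _ _
        map_zero' := by ext; exact ι.map_zero
        map_add' := fun c d => by ext; exact ι.map_add _ _ }
    have hf : Function.Bijective f := by
      refine ⟨f.injective, fun g => ?_⟩
      obtain ⟨c, hc, hcg⟩ := (hmemF _).1 g.2
      exact ⟨⟨c, hc⟩, Subtype.ext hcg⟩
    let fe : F₀ ≃+* F := RingEquiv.ofBijective f hf
    have h2 : ((minpoly F (ι a)).map (fe.symm : F →+* F₀)).Separable :=
      Polynomial.Separable.map (show (minpoly F (ι a)).Separable from h1)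
    have h3 : Polynomial.aeval a ((minpoly F (ι a)).map (fe.symm : F →+* F₀)) = 0 := by
      apply hιinj
      rw [map_zero]
      have h4 : (ι : K →+* Ω).comp ((algebraMap F₀ K).comp (fe.symm : F →+* F₀)) =
          algebraMap F Ω := by
        ext g
        have h5 : fe (fe.symm g) = g := fe.apply_symm_apply g
        exact congrArg (fun t : F => (t : Ω)) h5
      rw [Polynomial.aeval_def, Polynomial.eval₂_map]
      have h6 := Polynomial.hom_eval₂ (minpoly F (ι a))
        ((algebraMap F₀ K).comp (fe.symm : F →+* F₀)) (ι : K →+* Ω) a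
      rw [h4] at h6
      exact h6.trans (minpoly.aeval F (ι a))
    exact h2.of_dvd (minpoly.dvd F₀ a h3)
  have hsepA : Algebra.IsSeparable F₀ K := ⟨hsepK⟩
  obtain ⟨S, hS⟩ := hK
  have hfd : FiniteDimensional F₀ K := by
    have h1 : IntermediateField.adjoin F₀ (S : Set K) = ⊤ := by
      rw [eq_top_iff]
      intro a _
      have h2 : a ∈ (⊤ : IntermediateField k K) := IntermediateField.mem_top
      rw [← hS] at h2
      have h3 : IntermediateField.adjoin k (S : Set K) ≤
          (IntermediateField.adjoin F₀ (S : Set K)).restrictScalars k := by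
        rw [IntermediateField.adjoin_le_iff]
        exact fun s hs => IntermediateField.subset_adjoin F₀ _ hs
      exact h3 h2
    have h2 : FiniteDimensional F₀ (IntermediateField.adjoin F₀ (S : Set K)) :=
      IntermediateField.finiteDimensional_adjoin fun s _ => (hsepK s).isIntegral
    rw [h1] at h2
    exact (IntermediateField.topEquiv (F := F₀) (E := K)).toLinearEquiv.finiteDimensional
  refine ⟨z, hzi, fun i => ?_, hfd, hsepA, fun a => ?_, ⟨vring w, ?_, ?_⟩, fun a b hb => ?_⟩
  · rw [hrel.lt_one_iff (hzne i), ← hw _ (hzne i), hz]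
    exact hpos i
  · by_cases ha : a = 0
    · exact ⟨0, zero_mem _, by rw [ha]⟩
    · obtain ⟨c', hc', hc0, hcv, -⟩ := LUC.Cl.exists_val (hclF a) 0
        (fun h => ha (hιinj (by rw [h, map_zero])))
      obtain ⟨c, hc, rfl⟩ := (hmemF _).1 hc'
      have hc00 : c ≠ 0 := fun h => hc0 (by rw [h, map_zero])
      refine ⟨c, hc, ?_⟩
      rw [hrel.eq_iff hc00 ha, ← hw _ hc00, ← hw _ ha]
      exact hcv
  · ext a
    rw [ValuationSubring.mem_comap]
    by_cases ha : a = 0
    · subst ha
      rw [map_zero]
      exact ⟨fun _ => V.zero_mem, fun _ => (vring w).zero_mem⟩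
    · rw [hrel a ha, ← hw a ha]
      have h1 : algebraMap K Ω a ≠ 0 := (_root_.map_ne_zero _).2 ha
      exact ⟨fun h => h h1, fun h _ => h⟩
  · intro F' hF'
    have hFF : F' = F := by
      rw [hF']
      show IntermediateField.adjoin k (Set.range fun i => ι (z i)) = _
      rw [hrange, hFdef]
    rw [hFF]
    intro N _ _ hKN
    refine ⟨0, ?_, ?_⟩
    · rw [pow_zero]
      exact Nat.one_le_iff_ne_zero.2 (mul_ne_zero (pow_ne_zero _ two_ne_zero)
        (Nat.factorial_ne_zero n))
    · rw [pow_zero, Subgroup.relIndex_eq_one, ← decG_eq w F N]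
      intro σ hσ
      rw [mem_fixingSubgroup_iff]
      rintro m ⟨a, ha⟩
      refine fix_of_cl (v := w) F N m ?_ σ hσ
      rw [← ha]
      exact hclF a
  · obtain ⟨c', hc', hcb⟩ := hclF a (v b + 1)
    obtain ⟨c, hc, rfl⟩ := (hmemF _).1 hc'
    refine ⟨c, hc, ?_⟩
    by_cases h0 : a - c = 0
    · rw [h0, map_zero]
      exact zero_lt_iff.2 ((Valuation.ne_zero_iff _).2 hb)
    · rw [hrel.lt_iff h0 hb, ← hw _ h0]
      have h1 : ι a - ι c ≠ 0 := by
        rw [← map_sub]
        exact fun h => h0 (hιinj (by rw [h, map_zero]))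
      have h2 := hcb h1
      rw [← map_sub] at h2
      have h3 : w (ι (a - c)) = w (algebraMap K Ω (a - c)) := rfl
      rw [h3] at h2
      linarith

end Family

/-- The small valuation rings of rank one with residue field `k`, of dimension `n`: `n ≤ r + 2`, or
`n ≤ r + 3` and `[Γ : p Γ] = p ^ r`, where `Γ` is the value group and `r` is its rank. -/
def Small (p : ℕ) {K : Type} [Field K] (V : ValuationSubring K) (n : ℕ) : Prop :=
  (n : Cardinal) ≤ compRank V ⊤ + 2 ∨
    ∃ r : ℕ, compRank V ⊤ = r ∧ compIndex p V ⊤ = p ^ r ∧ n ≤ r + 3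

section Main

variable {k K : Type} [Field k] [Field K] [Algebra k K]

/-- `δ` bounds the dimension minus the rational rank. -/
theorem le_rank {V : ValuationSubring K} {v : RVal K} {w : RVal (AlgebraicClosure K)}
    (hrel : Rel V v) (hw : ∀ g : K, g ≠ 0 → w (algebraMap K (AlgebraicClosure K) g) = v g)
    {n r δ : ℕ} (hctx : TA.CtxR k w n r) (h : (n : Cardinal) ≤ compRank V ⊤ + (δ : ℕ)) :
    n ≤ r + δ := by
  classical
  obtain ⟨r', d, hr, hd, hrd⟩ := LU2G.exists_nat_split (T := (n : Cardinal)) (R := compRank V ⊤)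
    (D := (0 : Cardinal)) (δ := δ) Cardinal.natCast_lt_aleph0 (by simpa using h)
  have hd' : d ≤ 0 := by exact_mod_cast hd
  have hrd' : n ≤ r' + d + δ := by exact_mod_cast hrd
  obtain ⟨x, -, hx⟩ := LU2G.exists_units V ⊤ hr
  obtain ⟨hx0, hxi⟩ := hrel.indVal_iff.1 hx
  obtain ⟨Y, -, -, hY⟩ := hctx.rank
  have h2 := linearIndependent_le_span' _ hxi (Set.range fun i => w (Y i)) (by
    rintro _ ⟨i, rfl⟩
    show v (x i) ∈ _
    rw [← hw _ (hx0 i)]
    exact hY _ ((_root_.map_ne_zero _).2 (hx0 i)))
  rw [Cardinal.mk_fin] at h2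
  have h3 : Fintype.card (Set.range fun i => w (Y i)) ≤ r := by
    refine (Fintype.card_range_le _).trans ?_
    rw [Fintype.card_fin]
  have h4 : r' ≤ Fintype.card (Set.range fun i => w (Y i)) := by exact_mod_cast h2
  omega

variable [IsAlgClosed k]

/-- Henselian rationality from log uniformization in the algebraic closure. -/
theorem exists_rational_of_lus (p : ℕ) [Fact p.Prime] [CharP k p]
    (hK : (⊤ : IntermediateField k K).FG)
    (V : ValuationSubring K) (hk : ∀ c : k, algebraMap k K c ∈ V) (hR : IsR1 V)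
    (hres : ∀ f ∈ V, ∃ c : k, V.valuation (f - algebraMap k K c) < 1) {n : ℕ}
    (hn : Algebra.trdeg k K = n)
    (H : ∀ (v : RVal K) (w : RVal (AlgebraicClosure K)) (r : ℕ)
      (L : IntermediateField k (AlgebraicClosure K)), CharP (AlgebraicClosure K) p → Rel V v →
      (∀ g : K, g ≠ 0 → w (algebraMap K (AlgebraicClosure K) g) = v g) → TA.CtxR k w n r →
      TW.Ctx k w r → (∀ g, g ∈ L ↔ ∃ a : K, algebraMap K (AlgebraicClosure K) a = g) → L.FG →
      (∀ g : AlgebraicClosure K, IsAlgebraic L g) → Algebra.trdeg k L = n →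
      LUs w (algebraMap k (AlgebraicClosure K)).range L.toSubfield) :
    ∃ z : Fin n → K, AlgebraicIndependent k z ∧ (∀ i, V.valuation (z i) < 1) ∧
      FiniteDimensional (IntermediateField.adjoin k (Set.range z)) K ∧
      Algebra.IsSeparable (IntermediateField.adjoin k (Set.range z)) K ∧
      (∀ a : K, ∃ c ∈ IntermediateField.adjoin k (Set.range z),
        V.valuation c = V.valuation a) ∧
      (∃ W : ValuationSubring (AlgebraicClosure K),
        W.comap (algebraMap K (AlgebraicClosure K)) = V ∧
        ∀ F : IntermediateField k (AlgebraicClosure K),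
          F = IntermediateField.adjoin k
            (Set.range fun i => algebraMap K (AlgebraicClosure K) (z i)) →
          ∀ (N : IntermediateField F (AlgebraicClosure K)) [FiniteDimensional F N]
            [IsGalois F N], (∀ a : K, algebraMap K (AlgebraicClosure K) a ∈ N) →
            ∃ ν : ℕ, p ^ ν ≤ 2 ^ n * n.factorial ∧
              (fixingSubgroup (N ≃ₐ[F] N) {x : N | (x : AlgebraicClosure K) ∈
                Set.range (algebraMap K (AlgebraicClosure K))}).relIndex
                  ((W.comap (algebraMap N (AlgebraicClosure K))).decompositionSubgroup F) =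
                    p ^ ν) ∧
      (∀ a b : K, b ≠ 0 → ∃ c ∈ IntermediateField.adjoin k (Set.range z),
          V.valuation (a - c) < V.valuation b) := by
  classical
  obtain ⟨v, w, r, D, hnrD, hrel, hw, hctx⟩ := exists_ctx V hk hR hres hn
  have hcp : CharP (AlgebraicClosure K) p :=
    charP_of_injective_algebraMap (algebraMap k (AlgebraicClosure K)).injective p
  let ι : K →ₐ[k] AlgebraicClosure K := IsScalarTower.toAlgHom k K (AlgebraicClosure K)
  obtain ⟨L, hL⟩ : ∃ L : IntermediateField k (AlgebraicClosure K), L = ι.fieldRange := ⟨_, rfl⟩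
  have hmemL : ∀ g : AlgebraicClosure K, g ∈ L ↔ ∃ a : K, algebraMap K (AlgebraicClosure K) a = g :=
    fun g => by rw [hL]; exact Iff.rfl
  have hLfg : L.FG := by
    obtain ⟨S, hS⟩ := hK
    refine ⟨S.image ι, ?_⟩
    rw [Finset.coe_image, ← IntermediateField.adjoin_map, hS, hL]
    exact (AlgHom.fieldRange_eq_map ι).symm
  have halg : ∀ g : AlgebraicClosure K, IsAlgebraic L g := by
    intro g
    obtain ⟨P, hP0, hP⟩ := (Algebra.IsAlgebraic.isAlgebraic g : IsAlgebraic K g)
    let j : K →+* L :=
      { toFun := fun a => ⟨algebraMap K (AlgebraicClosure K) a, (hmemL _).2 ⟨a, rfl⟩⟩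
        map_one' := by ext; exact map_one _
        map_mul' := fun c d => by ext; exact map_mul _ _ _
        map_zero' := by ext; exact map_zero _
        map_add' := fun c d => by ext; exact map_add _ _ _ }
    refine ⟨P.map j, ?_, ?_⟩
    · exact (Polynomial.map_ne_zero_iff j.injective).2 hP0
    · rw [Polynomial.aeval_def, Polynomial.eval₂_map]
      exact hP
  have htr : Algebra.trdeg k L = n := by
    rw [← hctx.trdeg]
    have h1 : Algebra.IsAlgebraic L (AlgebraicClosure K) := ⟨halg⟩
    have h2 := trdeg_add_eq k L (A := AlgebraicClosure K)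
    have h3 : Algebra.trdeg L (AlgebraicClosure K) = 0 :=
      trdeg_eq_zero (R := L) (A := AlgebraicClosure K)
    rw [← h2, h3, add_zero]
  -- the rank is positive
  have hr0 : 0 < r := by
    rw [Nat.pos_iff_ne_zero]
    rintro rfl
    obtain ⟨Y, -, -, hY⟩ := hctx.rank
    have h0 : ∀ g : AlgebraicClosure K, g ≠ 0 → w g = 0 := by
      intro g hg
      have h1 := hY g hg
      rw [Set.range_eq_empty, Submodule.span_empty, Submodule.mem_bot] at h1
      exact h1
    apply hR.1
    rw [eq_top_iff]
    intro g _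
    by_cases hg : g = 0
    · rw [hg]; exact V.zero_mem
    · rw [hrel g hg, ← hw g hg, h0 _ ((_root_.map_ne_zero _).2 hg)]
  have h := TW.ctx_of_ctxR hctx hr0
  have hLU := H v w r L hcp hrel hw hctx h hmemL hLfg halg htr
  obtain ⟨z', hz'L, hz'0, hz'i, hhen⟩ := exists_param h.toCtx0 hLfg htr hLU
  refine of_family p hK V hrel hw z' (fun i => (hmemL _).1 (hz'L i)) hz'0 hz'i fun a => ?_
  rw [← hhen]
  exact D2P.le_hen L ((hmemL _).2 ⟨a, rfl⟩)

/-- Henselian rationality of the small valuation rings. -/
theorem exists_rational_small (p : ℕ) [Fact p.Prime] [CharP k p]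
    (hK : (⊤ : IntermediateField k K).FG)
    (V : ValuationSubring K) (hk : ∀ c : k, algebraMap k K c ∈ V) (hR : IsR1 V)
    (hres : ∀ f ∈ V, ∃ c : k, V.valuation (f - algebraMap k K c) < 1) {n : ℕ}
    (hn : Algebra.trdeg k K = n) (hs : Small p V n) :
    ∃ z : Fin n → K, AlgebraicIndependent k z ∧ (∀ i, V.valuation (z i) < 1) ∧
      FiniteDimensional (IntermediateField.adjoin k (Set.range z)) K ∧
      Algebra.IsSeparable (IntermediateField.adjoin k (Set.range z)) K ∧
      (∀ a : K, ∃ c ∈ IntermediateField.adjoin k (Set.range z),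
        V.valuation c = V.valuation a) ∧
      (∃ W : ValuationSubring (AlgebraicClosure K),
        W.comap (algebraMap K (AlgebraicClosure K)) = V ∧
        ∀ F : IntermediateField k (AlgebraicClosure K),
          F = IntermediateField.adjoin k
            (Set.range fun i => algebraMap K (AlgebraicClosure K) (z i)) →
          ∀ (N : IntermediateField F (AlgebraicClosure K)) [FiniteDimensional F N]
            [IsGalois F N], (∀ a : K, algebraMap K (AlgebraicClosure K) a ∈ N) →
            ∃ ν : ℕ, p ^ ν ≤ 2 ^ n * n.factorial ∧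
              (fixingSubgroup (N ≃ₐ[F] N) {x : N | (x : AlgebraicClosure K) ∈
                Set.range (algebraMap K (AlgebraicClosure K))}).relIndex
                  ((W.comap (algebraMap N (AlgebraicClosure K))).decompositionSubgroup F) =
                    p ^ ν) ∧
      (∀ a b : K, b ≠ 0 → ∃ c ∈ IntermediateField.adjoin k (Set.range z),
          V.valuation (a - c) < V.valuation b) := by
  refine exists_rational_of_lus p hK V hk hR hres hn ?_
  intro v w r L hcp hrel hw hctx h hmemL hLfg halg htr
  refine TWV.lus_V p (TWV.tameLeafV p k) h hLfg halg htr ?_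
  rcases hs with hs | ⟨r', hr', hi, hs⟩
  · exact Or.inl (le_rank hrel hw hctx (by rw [Nat.cast_ofNat]; exact hs))
  · by_cases h2 : n ≤ r + 2
    · exact Or.inl h2
    have h3 : n ≤ r + 3 := le_rank hrel hw hctx (by rw [hr']; exact_mod_cast hs)
    refine Or.inr ⟨by omega, ?_⟩
    have hP : PF p (vals v) := (TWV.pfc_of_index_top hR hr' hi).of_rel hrel
    refine hP.sub ?_
    rintro _ ⟨a, ha, ha0, rfl⟩
    obtain ⟨b, rfl⟩ := (hmemL _).1 ha
    have hb : b ≠ 0 := by
      rintro rfl
      exact ha0 (map_zero _)
    exact ⟨b, hb, (hw b hb).symm⟩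

/-- Henselian rationality for large `p`, or for small valuation rings. -/
theorem exists_rationalS (p : ℕ) [Fact p.Prime] [CharP k p]
    (hK : (⊤ : IntermediateField k K).FG)
    (V : ValuationSubring K) (hk : ∀ c : k, algebraMap k K c ∈ V) (hR : IsR1 V)
    (hres : ∀ f ∈ V, ∃ c : k, V.valuation (f - algebraMap k K c) < 1) {n : ℕ}
    (hn : Algebra.trdeg k K = n) :
    ∃ z : Fin n → K, AlgebraicIndependent k z ∧ (∀ i, V.valuation (z i) < 1) ∧
      FiniteDimensional (IntermediateField.adjoin k (Set.range z)) K ∧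
      Algebra.IsSeparable (IntermediateField.adjoin k (Set.range z)) K ∧
      (∀ a : K, ∃ c ∈ IntermediateField.adjoin k (Set.range z),
        V.valuation c = V.valuation a) ∧
      (∃ W : ValuationSubring (AlgebraicClosure K),
        W.comap (algebraMap K (AlgebraicClosure K)) = V ∧
        ∀ F : IntermediateField k (AlgebraicClosure K),
          F = IntermediateField.adjoin k
            (Set.range fun i => algebraMap K (AlgebraicClosure K) (z i)) →
          ∀ (N : IntermediateField F (AlgebraicClosure K)) [FiniteDimensional F N]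
            [IsGalois F N], (∀ a : K, algebraMap K (AlgebraicClosure K) a ∈ N) →
            ∃ ν : ℕ, p ^ ν ≤ 2 ^ n * n.factorial ∧
              (fixingSubgroup (N ≃ₐ[F] N) {x : N | (x : AlgebraicClosure K) ∈
                Set.range (algebraMap K (AlgebraicClosure K))}).relIndex
                  ((W.comap (algebraMap N (AlgebraicClosure K))).decompositionSubgroup F) =
                    p ^ ν) ∧
      (2 ^ n * n.factorial < p ∨ Small p V n → ∀ a b : K, b ≠ 0 →
        ∃ c ∈ IntermediateField.adjoin k (Set.range z),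
          V.valuation (a - c) < V.valuation b) := by
  by_cases hs : Small p V n
  · obtain ⟨z, h1, h2, h3, h4, h5, h6, h7⟩ := exists_rational_small p hK V hk hR hres hn hs
    exact ⟨z, h1, h2, h3, h4, h5, h6, fun _ => h7⟩
  · obtain ⟨z, h1, h2, h3, h4, h5, h6, h7⟩ :=
      D2.HR.exists_rationalK p Fact.out hK V hk hR hres hn
    exact ⟨z, h1, h2, h3, h4, h5, h6, fun h => h7 (h.resolve_right hs)⟩

end Main

end Pool.Agent.HRD
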