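import Pool.Agent.Lib.TWD.HRD
import Pool.Agent.Lib.TWW.Four

/-!
# TANK W: henselian rationality, dimension at most four

* `exists_rationalF`: large `p`, or dimension at most four, or small valuation rings.
-/

set_option autoImplicit false

namespace Pool.Agent.HRD

open Pool.Agent.LU2 (IsR1)

variable {k K : Type} [Field k] [Field K] [Algebra k K] [IsAlgClosed k]

/-- Henselian rationality for large `p`, or in dimension at most four, or for small valuation
rings. -/
theorem exists_rationalF (p : ℕ) [Fact p.Prime] [CharP k p]
    (hK : (⊤ : IntermediateField k K).FG)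
    (V : ValuationSubring K) (hk : ∀ c : k, algebraMap k K c ∈ V) (hR : IsR1 V)
    (hres : ∀ f ∈ V, ∃ c : k, V.valuation (f - algebraMap k K c) < 1) {n : ℕ}
    (hn : Algebra.trdeg k K = n) :
    ∃ z : Fin n → K, AlgebraicIndependent k z ∧ (∀ i, V.valuation (z i) < 1) ∧
      FiniteDimensional (IntermediateField.adjoin k (Set.range z)) K ∧
      Algebra.IsSeparable (IntermediateField.adjoin k (Set.range z)) K ∧
      (∀ a : K, ∃ c ∈ IntermediateField.adjoin k (Set.range z),
        V.valuation c = V.valuation a) ∧
      (∃ W : ValuationSubring (AlgebraicClosure K),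
        W.comap (algebraMap K (AlgebraicClosure K)) = V ∧
        ∀ F : IntermediateField k (AlgebraicClosure K),
          F = IntermediateField.adjoin k
            (Set.range fun i => algebraMap K (AlgebraicClosure K) (z i)) →
          ∀ (N : IntermediateField F (AlgebraicClosure K)) [FiniteDimensional F N]
            [IsGalois F N], (∀ a : K, algebraMap K (AlgebraicClosure K) a ∈ N) →
            ∃ ν : ℕ, p ^ ν ≤ 2 ^ n * n.factorial ∧
              (fixingSubgroup (N ≃ₐ[F] N) {x : N | (x : AlgebraicClosure K) ∈
                Set.range (algebraMap K (AlgebraicClosure K))}).relIndex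
                  ((W.comap (algebraMap N (AlgebraicClosure K))).decompositionSubgroup F) =
                    p ^ ν) ∧
      (2 ^ n * n.factorial < p ∨ n ≤ 4 ∨ Small p V n → ∀ a b : K, b ≠ 0 →
        ∃ c ∈ IntermediateField.adjoin k (Set.range z),
          V.valuation (a - c) < V.valuation b) := by
  by_cases h4 : n ≤ 4
  · obtain ⟨z, h1, h2, h3, h4, h5, h6, h7⟩ := exists_rational_of_lus p hK V hk hR hres hn
      fun v w r L hcp _ _ _ h _ hLfg halg htr =>
        TW.lus_four p _ w r h L hLfg halg (by rw [htr]; exact_mod_cast h4)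
    exact ⟨z, h1, h2, h3, h4, h5, h6, fun _ => h7⟩
  · obtain ⟨z, h1, h2, h3, h4', h5, h6, h7⟩ := exists_rationalS p hK V hk hR hres hn
    exact ⟨z, h1, h2, h3, h4', h5, h6, fun h =>
      h7 (h.elim Or.inl fun h => h.elim (fun h => absurd h h4) Or.inr)⟩

end Pool.Agent.HRD
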