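import Pool.Agent.Lib.TWD.Defs
import Pool.Agent.Lib.TWC.HandI

/-!
# Valuations whose completion is isogenous to a tower: the link with `HandI`

* `IsCl.eq`: the closure of `k(S)` is `clI`;
* `Tower.t3m`: the towers are the towers of `HandH`;
* `TowerVal.clc`: the class of valuation rings;
* `exists_smooth_centres_ns`, `logUniformizable_ns`: first floor not strict.
-/

set_option autoImplicit false

open AlgebraicGeometry CategoryTheory

namespace Pool.Agent.TWD

open Pool.Agent.LU2 Pool.Agent.LU2G Pool.Agent.LU2H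
open Pool.Agent.H15JM (RVal)
open Pool.Agent.LU1 (adj)
open Pool.Agent.D2P (clI mem_clI)
open Pool.Agent.TWM
open Pool.Agent.TWS (TowR VG)
open Pool.Agent.TWC (T2 RatR StrF CP EW Sd)
open Pool.Agent.TW (ClC CProp T3m T3ns Isg IsoTower Ctx)

universe u

section

variable {k Ω : Type u} [Field k] [Field Ω] [Algebra k Ω] {v : RVal Ω}
  {F F' A : IntermediateField k Ω} {S : Set Ω} {z : Ω} {s : ℝ}

theorem isCl_iff : IsCl v F S ↔ F = clI v (IntermediateField.adjoin k S) := by
  constructor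
  · intro h
    ext a
    rw [h a, mem_clI]
    exact Iff.rfl
  · rintro rfl a
    rw [mem_clI]
    exact Iff.rfl

theorem IsCl.eq (h : IsCl v F S) : F = clI v (IntermediateField.adjoin k S) := isCl_iff.1 h

theorem IsCl.cld (h : IsCl v F S) : Cld v F := by
  rw [h.eq]
  exact cld_clI v _

theorem adj_adjoin : adj (IntermediateField.adjoin k S) z =
    IntermediateField.adjoin k (S ∪ {z}) := by
  rw [adj, ← IntermediateField.adjoin_union]

/-- The closure of `k(S, z)`. -/
theorem IsCl.cadj (h : IsCl v F S) (h' : IsCl v F' (S ∪ {z})) : F' = TWM.cadj v F z := by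
  rw [h'.eq, h.eq, clI_adj_clI, adj_adjoin]

theorem isCl_cp {a b : Ω} (h : IsCl v F {a, b}) : F = CP (k := k) v a b := by
  have h1 : CP (k := k) v a b = TWM.cadj v (TWM.cadj v ⊥ a) b := rfl
  rw [h.eq, h1, show TWM.cadj v (⊥ : IntermediateField k Ω) a = clI v (adj ⊥ a) from rfl,
    clI_adj_clI, adj, adj, bot_sup_eq, ← IntermediateField.adjoin_union]
  rfl

theorem LimitOver.tl (h : LimitOver v F z s) : TL v F z s := ⟨h.1, h.2⟩

variable {p : ℕ} {M : IntermediateField k Ω} {x : ℕ → Ω} {y u : Ω}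

/-- The towers. -/
theorem Tower.t3 [Fact p.Prime] (h : Tower p v M x y u z s) :
    T2 p k v x y s ∧ TowR v 2 (CP (k := k) v (x 0) y) M := by
  obtain ⟨E, C, D, s', s'', hE, hC, hD, hM, h1, h2, h3, h4, h5⟩ := h.tower
  have eC := isCl_cp hC
  have eD : D = TWM.cadj v C u := hC.cadj (by
    rwa [Set.insert_union, Set.singleton_union])
  have eM : M = TWM.cadj v D z := hD.cadj (by
    rwa [Set.insert_union, Set.insert_union, Set.singleton_union])
  have eE : E = EW v (⊥ : IntermediateField k Ω) x := by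
    rw [hE.eq, EW, bot_sup_eq]
  refine ⟨⟨h.root, h.ne, h.neg, ?_, ?_, ?_⟩, ?_⟩
  · rw [← eE]
    exact h1.tl
  · rw [← eC]
    exact h4
  · rw [← eC, ← TW.pdiv_iff_vg]
    exact h5
  · rw [← eC]
    refine TowR.succ h2.tl ?_
    rw [← eD]
    refine TowR.succ h3.tl ?_
    rw [← eM]
    exact TowR.zero hM.cld

theorem NotStrict.ns (h : NotStrict k v x y s) : RatR (v (x 0)) s ∨ ¬ StrF k v x y s := by
  rcases h with ⟨n, hn, m, h1⟩ | ⟨n, l, N, hl, hN, h1⟩
  · exact Or.inl ⟨n, hn, m, h1⟩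
  · right
    intro hS
    obtain ⟨η, hη, h2⟩ := hS n l hl
    have eN : N = TWM.cadj v (⊥ : IntermediateField k Ω) (x n) := by
      rw [hN.eq, TWM.cadj, adj, bot_sup_eq]
    exact h1 ⟨η, hη, fun f hf r hr => h2 f (fun i => by rw [← eN]; exact hf i) r hr⟩

end

/-- The class of valuation rings. -/
theorem TowerVal.clc {p : ℕ} {k K : Type u} [Field k] [Field K] [Algebra k K]
    {T : ∀ (Ω : Type u) [Field Ω] [Algebra k Ω], RVal Ω → IntermediateField k Ω → Prop}
    {V : ValuationSubring K} (h : TowerVal (k := k) p T V) {Q : CProp k}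
    (hTQ : ∀ (Ω : Type u) [Field Ω] [Algebra k Ω] (v : RVal Ω) (M : IntermediateField k Ω),
      T Ω v M → Cld v M ∧ Q Ω v M)
    (Ω : Type u) [Field Ω] [Algebra k Ω] [IsAlgClosed Ω] (v : RVal Ω)
    (L : IntermediateField k Ω) (e : K ≃ₐ[k] L) (hx : Ctx k v 1)
    (he : ∀ g : K, g ≠ 0 → (g ∈ V ↔ 0 ≤ v (e g : Ω))) (halg : ∀ g : Ω, IsAlgebraic L g) :
    ClC p Q v L := by
  obtain ⟨Ω', iF, iA, ι, w, iC, hc, hD⟩ := exists_complete k v
  let φ : K →ₐ[k] Ω' := (ι.comp L.val).comp (e : K →ₐ[k] L)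
  have hφ : ∀ g : K, φ g = ι (e g : Ω) := fun g => rfl
  have hrange : φ.fieldRange = L.map ι := by
    ext a
    constructor
    · rintro ⟨g, rfl⟩
      exact ⟨e g, (e g).2, rfl⟩
    · rintro ⟨b, hb, rfl⟩
      refine ⟨e.symm ⟨b, hb⟩, ?_⟩
      change ι (e (e.symm ⟨b, hb⟩) : Ω) = ι b
      rw [e.apply_symm_apply]
  have hset : Set.range φ = ((L.map ι : IntermediateField k Ω') : Set Ω') := by
    rw [← hrange]
    exact (AlgHom.coe_fieldRange φ).symm
  have k1 : ∀ a : Ω', InCl w {b | IsAlgebraic φ.fieldRange b} a := by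
    intro a c
    obtain ⟨b, hb⟩ := hD.dense a c
    refine ⟨ι b, ?_, hb⟩
    change IsAlgebraic φ.fieldRange (ι b)
    rw [hrange]
    exact Dense.isAlgebraic_iff.2 (halg b)
  have k2 : ∀ g : K, g ≠ 0 → (g ∈ V ↔ 0 ≤ w (φ g)) := by
    intro g hg
    rw [he g hg, hφ, hD.val _ (by
      intro h5
      apply hg
      have h6 : e g = 0 := Subtype.ext h5
      exact (map_eq_zero_iff e e.injective).1 h6)]
  have k3 : ∃ γ : ℝ, ∀ a : Ω', a ≠ 0 → ∃ q : ℚ, w a = q * γ := by
    obtain ⟨X, hX0, hX, hspan⟩ := (hD.ctx hx).rank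
    refine ⟨w (X 0), fun a ha => ?_⟩
    have h5 := hspan a ha
    rw [Set.range_unique, Submodule.mem_span_singleton] at h5
    obtain ⟨q, hq⟩ := h5
    exact ⟨q, by rw [← hq]; exact (Rat.smul_def q _)⟩
  obtain ⟨M, Kc, n, h1, h2, h3, h4⟩ := h.tower Ω' w φ hc k1 k2 k3
  obtain ⟨h5, h6⟩ := hTQ Ω' w M h4
  have e1 : clI w (L.map ι) = Kc := by
    rw [h1.eq, hset, IntermediateField.adjoin_self]
  exact ⟨Ω', iF, iA, ι, w, iC, hc, hD, M, h5, by rw [e1]; exact ⟨n, h3, h2⟩, h6⟩

/-- First floor not strict. -/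
theorem TowerVal.isoTower {p : ℕ} [Fact p.Prime] {k K : Type u} [Field k] [Field K] [Algebra k K]
    {V : ValuationSubring K} (h : TowerVal (k := k) p (IsTowerNS p k) V) :
    IsoTower (k := k) p V where
  rank := h.rank
  res := h.res
  trdeg := h.trdeg
  tower Ω _ _ _ v L e hx he halg := h.clc (Q := T3ns p k) (fun Ω _ _ v M hT => by
    obtain ⟨x, y, u, z, s, h1, h2⟩ := hT
    obtain ⟨h3, h4⟩ := h1.t3
    exact ⟨h4.cld, x, y, s, h3, h4, h2.ns⟩) Ω v L e hx he halg

/-- The geometric statement, first floor not strict. -/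
theorem exists_smooth_centres_ns (p : ℕ) [Fact p.Prime] (k : Type) [Field k] [IsAlgClosed k]
    [CharP k p] (X : Scheme.{0}) [IsIntegral X] (f : X ⟶ Spec (CommRingCat.of k))
    [LocallyOfFiniteType f] (m : ℕ) (V : Fin m → ValuationSubring X.functionField)
    (hV : ∀ i, @TowerVal p k X.functionField _ _ (consts f).toAlgebra (IsTowerNS p k) (V i))
    (c : ∀ i, Spec (CommRingCat.of (V i)) ⟶ X)
    (hc : ∀ i, Spec.map (CommRingCat.ofHom (algebraMap (V i) X.functionField)) ≫
      c i = X.fromSpecStalk (genericPoint X)) :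
    ∃ (Y : Scheme.{0}) (π : Y ⟶ X), IsIntegral Y ∧ IsProper π ∧
      (∀ W : X.Opens, (∀ (i : Fin m) (V' : ValuationSubring X.functionField) (h : V i ≤ V'),
        V' ≠ ⊤ → (coarser h ≫ c i) (IsLocalRing.closedPoint V') ∈ W →
          IsSmoothAt f ((coarser h ≫ c i) (IsLocalRing.closedPoint V'))) → IsIso (π ∣_ W)) ∧
      ∀ i, ∃ c' : Spec (CommRingCat.of (V i)) ⟶ Y, c' ≫ π = c i ∧
        IsSmoothAt (π ≫ f) (c' (IsLocalRing.closedPoint (V i))) :=
  TW.exists_smooth_centres_iso p k X f m V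
    (fun i => (let _ : Algebra k X.functionField := (consts f).toAlgebra
      (hV i).isoTower)) c hc

/-- The statement for affine models, first floor not strict. -/
theorem logUniformizable_ns (p : ℕ) [Fact p.Prime] (k : Type) [Field k] [IsAlgClosed k]
    [CharP k p] (A : Type) [CommRing A] [IsDomain A] [Algebra k A] [Algebra.EssFiniteType k A]
    (V : ValuationSubring (FractionRing A)) (hV : ∀ a : A, algebraMap A (FractionRing A) a ∈ V)
    (h : TowerVal (k := k) p (IsTowerNS p k) V) : LU2G.LogUniformizable V :=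
  TW.logUniformizable_iso p k A V hV h.isoTower

end Pool.Agent.TWD
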