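import Pool.Agent.Lib.TWD.NMob
import Pool.Agent.Lib.TWE_h25.All

/-!
# TANK W: dimension four, with value group not `p`-divisible in rational rank one
-/

set_option autoImplicit false

namespace Pool.Agent.TW

open Pool.Agent.H15JM (RVal)
open Pool.Agent.LU1 (VPos adj)
open Pool.Agent.LUC (Cl LUs)
open Pool.Agent.D2 (Ctx0)
open Pool.Agent.D2P (hen mem_hen isAlgebraic_mono)

universe u

section

variable {k : Type u} [Field k] [IsAlgClosed k] (p : ℕ) [Fact p.Prime] [CharP k p]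

include p

/-- Dimension four, rational rank one, value group not `p`-divisible. -/
theorem lubN_four
    (hMob : ∀ (Ω : Type u) [Field Ω] [Algebra k Ω] [IsAlgClosed Ω] [CharP Ω p] (v : RVal Ω),
      Ctx k v 1 → MobQ0N p v k 1 4)
    (Ω : Type u) [Field Ω] [Algebra k Ω] [IsAlgClosed Ω] [CharP Ω p] (v : RVal Ω)
    (h : Ctx k v 1) : LUBN p v k 1 4 := by
  refine lub_transferN p h ?_
  intro Ω' _ _ _ _ v' h' E hE hΩ htr hBD hPD
  refine (lub_of_mobN p h' (n := 4) (by omega) (hMob Ω' v' h')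
    (fun m hm => lub_le_three p (by omega) Ω' v' 1 h') ?_ hE hΩ htr hBD hPD).2
  intro W hW E' hE' hΩ'' htr'
  exact lus_rank_dim p 4 2 le_rfl (fun v'' r'' h'' h1 _ => lub_four_rank p Ω' v'' r'' h'' h1)
    2 W 2 hW le_rfl rfl E' hE' hΩ'' htr'

/-- DIMENSION AT MOST FOUR, with value group not `p`-divisible in dimension four. -/
theorem lus_four_of_mobN
    (hMob : ∀ (Ω : Type u) [Field Ω] [Algebra k Ω] [IsAlgClosed Ω] [CharP Ω p] (v : RVal Ω),
      Ctx k v 1 → MobQ0N p v k 1 4)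
    (Ω : Type u) [Field Ω] [Algebra k Ω] [IsAlgClosed Ω] [CharP Ω p] (v : RVal Ω) (r : ℕ)
    (h : Ctx k v r) (E : IntermediateField k Ω) (hE : E.FG) (hΩ : ∀ g : Ω, IsAlgebraic E g)
    {n : ℕ} (htr : Algebra.trdeg k E = n) (hn : n ≤ 3 ∨ (n = 4 ∧ ¬ PDv p v E)) :
    LUs v (algebraMap k Ω).range E.toSubfield := by
  rcases hn with hn3 | ⟨rfl, hPD⟩
  · exact lus_dim_le_four p (by omega) (fun v' r' h' m _ hm =>
      lub_le_three p (hm.trans hn3) Ω v' r' h') h hE hΩ htr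
  have hfull : Full v E := full_of_alg hΩ
  have hrn : r ≤ 4 := hfull.rank_le h htr
  have hrpos := h.rpos
  by_cases hr : 2 ≤ r
  · obtain ⟨m, hm⟩ := Nat.exists_eq_add_of_le hrn
    exact lus_rank_dim p 4 2 le_rfl (fun v'' r'' h'' h1 _ => lub_four_rank p Ω v'' r'' h'' h1)
      m v r h hr hm.symm E hE hΩ htr
  obtain rfl : r = 1 := by omega
  by_cases hBD : BD p v E
  · exact LU.lusN p h hE hfull hBD hPD htr (lubN_four p hMob Ω v h) hΩ
  refine lus_codim_one_nbd p h (fun m' _ h2 => lub_le_three p (by omega) Ω v 1 h) hE hΩ htr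
    hBD ?_
  intro L₀ _ hfull₀ _ h2
  refine R3.defL h hfull₀ ?_
  rw [htr] at h2
  have h3 : Algebra.trdeg k L₀ < Cardinal.aleph0 :=
    ((self_le_add_right _ _).trans h2).trans_lt Cardinal.natCast_lt_aleph0
  obtain ⟨d, hd⟩ := Cardinal.lt_aleph0.1 h3
  rw [hd] at h2 ⊢
  have h4 : d + 2 ≤ 4 := by exact_mod_cast h2
  exact_mod_cast (by omega : d ≤ 1 + 1)

end

end Pool.Agent.TW
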