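import Pool.Agent.Lib.TWD.NAll
import Pool.Agent.Lib.TWE_h25.ClsP
import Pool.Agent.Lib.TW.TwoAll
import Pool.Agent.Lib.TW.TopN

/-!
# TANK W: the class of the real valuations of dimension at most four, with value group not `p`-divisible
in dimension four
-/

set_option autoImplicit false

namespace Pool.Agent.TW

open Pool.Agent.H15JM (RVal)
open Pool.Agent.LU2 Pool.Agent.LU2G Pool.Agent.LU2H
open Pool.Agent.LUC (LUs)
open Pool.Agent.D2 (lur_of_lurV)

universe u

/-- Residue field `k`, and transcendence degree at most three, or transcendence degree four and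
value group not `p`-divisible. -/
def NDivCls (p : ℕ) (k : Type u) [Field k] : Cls k := fun K _ _ V =>
  (∀ f ∈ V, ∃ c : k, V.valuation (f - algebraMap k K c) < 1) ∧
    ∃ m : ℕ, Algebra.trdeg k K = m ∧ (m ≤ 3 ∨ (m = 4 ∧ ∀ M : IntermediateField k K, M.FG →
      (∀ g : K, IsAlgebraic M g) → ¬ DivOn p V M))

theorem NDivCls.sub (p : ℕ) (k : Type u) [Field k] : (NDivCls p k).Sub := by
  rintro K _ _ V hk hfin ⟨h0, m, hm, h⟩ L
  refine ⟨ZeroCls.sub k K V hk hfin h0 L, ?_⟩
  have hLle : Algebra.trdeg k L ≤ Algebra.trdeg k K :=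
    _root_.trdeg_le_of_injective L.val L.val.injective
  obtain ⟨m', hm'⟩ := Cardinal.lt_aleph0.1 (hLle.trans_lt hfin)
  have hmm : m' ≤ m := by
    rw [hm, hm'] at hLle
    exact_mod_cast hLle
  refine ⟨m', hm', ?_⟩
  by_cases h3 : m' ≤ 3
  · exact Or.inl h3
  rcases h with h | ⟨rfl, h⟩
  · exact absurd (hmm.trans h) h3
  obtain rfl : m' = 4 := by omega
  refine Or.inr ⟨rfl, fun M' hM' halg' => ?_⟩
  have hMfg : (M'.map L.val).FG := by
    obtain ⟨S, hS⟩ := hM'
    classical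
    refine ⟨S.image L.val, ?_⟩
    rw [Finset.coe_image, ← IntermediateField.adjoin_map, hS]
  have htM' : Algebra.trdeg k M' = 4 := by
    have h1 : Algebra.IsAlgebraic M' L := ⟨halg'⟩
    have h2 := trdeg_add_eq k M' (A := L)
    rw [trdeg_eq_zero (R := M') (A := L), add_zero, hm'] at h2
    exact_mod_cast h2
  have htM : Algebra.trdeg k (M'.map L.val) = (4 : ℕ) := by
    rw [← (M'.equivMap L.val).trdeg_eq, htM']
    rfl
  have htop : Algebra.trdeg k (⊤ : IntermediateField k K) = (4 : ℕ) := by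
    rw [IntermediateField.topEquiv.trdeg_eq, hm]
  have halg : ∀ g : K, IsAlgebraic (M'.map L.val : IntermediateField k K) g :=
    isAlgebraic_of_trdeg_eq htM htop fun g => isAlgebraic_algebraMap
      (⟨g, IntermediateField.mem_top⟩ : (⊤ : IntermediateField k K))
  refine fun hD => h _ hMfg halg ?_
  rintro _ ⟨f, hf, rfl⟩ hf0
  obtain ⟨g, hg, hg0, h1, h2⟩ := hD f hf (fun h0 => hf0 (by rw [h0]; rfl))
  rw [ValuationSubring.mem_comap] at h1 h2
  refine ⟨L.val g, ⟨g, hg, rfl⟩, fun h0 => hg0 (Subtype.ext h0), ?_, ?_⟩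
  · simpa using h1
  · simpa using h2

/-- The exit. -/
theorem realCls_ndiv (p : ℕ) [Fact p.Prime] {k : Type u} [Field k] [IsAlgClosed k] [CharP k p]
    (hMob : ∀ (Ω : Type u) [Field Ω] [Algebra k Ω] [IsAlgClosed Ω] [CharP Ω p] (v : RVal Ω),
      Ctx k v 1 → MobQ0N p v k 1 4) :
    RealCls (NDivCls p k) := by
  rintro K _ _ hK V hk hR ⟨hres, m, hm, hcase⟩
  refine lur_of_lurV (lurV_at (m := m) V ?_ hK hk hR hres hm)
  intro Ω _ _ _ v r L e hctx hr hV hL halg
  have : CharP Ω p := charP_of_injective_algebraMap (algebraMap k Ω).injective p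
  refine lus_four_of_mobN p hMob Ω v r (ctx_of_ctxR hctx hr) L hL halg (n := m) ?_ ?_
  · rw [← e.trdeg_eq, hm]
  rcases hcase with h3 | ⟨rfl, h4⟩
  · exact Or.inl h3
  · refine Or.inr ⟨rfl, ?_⟩
    have h5 := h4 ⊤ hK fun g => isAlgebraic_algebraMap
      (⟨g, IntermediateField.mem_top⟩ : (⊤ : IntermediateField k K))
    let e' : K →ₐ[k] Ω := L.val.comp e.toAlgHom
    refine fun h6 => h5 ((DivOn.pdv e' ?_ hV).2 h6)
    ext x
    constructor
    · rintro ⟨y, -, rfl⟩
      exact (e y).2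
    · intro hx
      refine ⟨e.symm ⟨x, hx⟩, IntermediateField.mem_top, ?_⟩
      change ((e (e.symm ⟨x, hx⟩) : L) : Ω) = x
      rw [e.apply_symm_apply]

end Pool.Agent.TW
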