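import Pool.Agent.Lib.TWD.NCls
import Pool.Agent.Lib.TWF.TopJ

/-!
# TANK W, dimension four, value group not `p`-divisible: the criterion

* `critM_ndiv`: `MobQ0` for the fields with value group not `p`-divisible, from the tame leaf;
* `mobQ0N_one_four`, `realCls_ndiv_of`: the class `NDivCls`.
-/

set_option autoImplicit false

namespace Pool.Agent.TW

open Pool.Agent.H15JM (RVal)
open Pool.Agent.LU2 Pool.Agent.LU2G Pool.Agent.LU2H
open Pool.Agent.TWS7 (PDiv)

universe u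

/-- `MobQ0` for the fields with value group not `p`-divisible. -/
theorem critM_ndiv (p : ℕ) [Fact p.Prime] (k : Type u) [Field k] [IsAlgClosed k] [CharP k p]
    (hT : TWF.TameLeaf p k) : CritM p k fun _ _ _ _ v E => ¬ PDiv p v E := by
  intro Ω _ _ _ _ v hc K₀ hK hΩ htr hBDK hH hL hlow hd g hgK hg hBD
  rcases TWF.cover p (TWF.rowJs p k) hc hK hΩ htr hBDK hH hg hBD with h1 | h1
  · exact Or.inl h1
  · exact hT Ω v hc K₀ hK hΩ htr hBDK hH hL hlow ⟨hd, h1⟩ g hgK hg hBD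

theorem mobQ0N_one_four (p : ℕ) [Fact p.Prime] {k Ω : Type u} [Field k] [IsAlgClosed k]
    [CharP k p] (hT : TWF.TameLeaf p k) [Field Ω] [Algebra k Ω] [IsAlgClosed Ω] [CharP Ω p]
    {v : RVal Ω} (h : Ctx k v 1) : MobQ0N p v k 1 4 :=
  fun K₀ hK hΩ htr hBDK hP hH hL hlow g hgK hg hBD =>
    critM_ndiv p k hT Ω v h K₀ hK hΩ (by exact_mod_cast htr) hBDK hH hL hlow hP g hgK hg hBD

/-- The exit. -/
theorem realCls_ndiv_of (p : ℕ) [Fact p.Prime] {k : Type u} [Field k] [IsAlgClosed k] [CharP k p]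
    (hT : TWF.TameLeaf p k) : RealCls (NDivCls p k) :=
  realCls_ndiv p fun _ _ _ _ _ _ h => mobQ0N_one_four p hT h

end Pool.Agent.TW
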