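import Pool.Agent.Lib.TWD.NFor
import Pool.Agent.Lib.TWD.NTop
import Pool.Agent.Lib.LU2G.CompDefs

/-!
# The formal form of log uniformization, value group not `p`-divisible: final theorem

* `mobN_of`: the motions, from the tame leaf;
* `ndv_of_compGroup`: the value group as `CompGroup V ⊤`;
* `logUniformizable_formalN`: the formal statement.
-/

set_option autoImplicit false

namespace Pool.Agent.TWD

open Pool.Agent.H15JM (RVal)
open Pool.Agent.LU2G (CompGroup centerRing chart LogUniformizable)

universe u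

theorem mobN_of (p : ℕ) [Fact p.Prime]
    (hT : ∀ (k : Type u) [Field k] [IsAlgClosed k] [CharP k p], TWF.TameLeaf p k) :
    MobN.{u} p := fun k _ _ _ _ _ _ _ _ _ h => TW.mobQ0N_one_four p (hT k) h

/-- The value group of `V`. -/
theorem ndv_of_compGroup {K : Type} [Field K] {p : ℕ} {V : ValuationSubring K}
    (h : ∃ a : CompGroup V ⊤, ∀ b : CompGroup V ⊤, a ≠ p • b) : NDV p K V := by
  obtain ⟨a, ha⟩ := h
  obtain ⟨x, hx⟩ := QuotientGroup.mk_surjective (Additive.toMul a)
  refine ⟨((x : Kˣ) : K), Units.ne_zero _, fun g hg hcon => ?_⟩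
  obtain ⟨h1, h2⟩ := hcon
  have hgu : Units.mk0 g hg ∈ (⊤ : ValuationSubring K).unitGroup := by
    rw [ValuationSubring.mem_unitGroup_iff]
    apply le_antisymm
    · exact (ValuationSubring.valuation_le_one_iff _ _).2 (ValuationSubring.mem_top _)
    · have h3 := (ValuationSubring.valuation_le_one_iff (⊤ : ValuationSubring K) g⁻¹).2
        (ValuationSubring.mem_top _)
      rw [map_inv₀] at h3
      exact (inv_le_one₀ (zero_lt_iff.2 ((Valuation.ne_zero_iff _).2 hg))).1 h3
  let y : (⊤ : ValuationSubring K).unitGroup := ⟨Units.mk0 g hg, hgu⟩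
  apply ha (Additive.ofMul (QuotientGroup.mk y))
  rw [← ofMul_pow, ← QuotientGroup.mk_pow]
  apply Additive.toMul.injective
  rw [← hx]
  change (QuotientGroup.mk x : (⊤ : ValuationSubring K).unitGroup ⧸
    V.unitGroup.subgroupOf (⊤ : ValuationSubring K).unitGroup) = QuotientGroup.mk (y ^ p)
  rw [QuotientGroup.eq, Subgroup.mem_subgroupOf, ValuationSubring.mem_unitGroup_iff]
  have e3 : (((x⁻¹ * y ^ p : (⊤ : ValuationSubring K).unitGroup) : Kˣ) : K) =
      g ^ p / ((x : Kˣ) : K) := by
    push_cast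
    rw [div_eq_mul_inv, mul_comm]
    rfl
  rw [e3]
  apply le_antisymm
  · exact (ValuationSubring.valuation_le_one_iff _ _).2 h2
  · have hne : g ^ p / ((x : Kˣ) : K) ≠ 0 := div_ne_zero (pow_ne_zero p hg) (Units.ne_zero _)
    have h5 := (ValuationSubring.valuation_le_one_iff V _).2 h1
    rw [← inv_div, map_inv₀] at h5
    exact (inv_le_one₀ (zero_lt_iff.2 ((Valuation.ne_zero_iff _).2 hne))).1 h5

/-- The formal statement. -/
theorem logUniformizable_formalN (p : ℕ) [Fact p.Prime] (hMob : MobN.{0} p) (A : Type)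
    [CommRing A] [IsDomain A]
    [IsNoetherianRing A] (V : ValuationSubring (FractionRing A))
    (hV : ∀ a : A, algebraMap A (FractionRing A) a ∈ V) (hrank : IsCoatom V)
    (hpA : (p : A) = 0) (I : Ideal A) (g : A) (hg : g ∈ I)
    (hg0 : g ≠ 0) (hgmin : ∀ a ∈ I, V.valuation (algebraMap A (FractionRing A) a) ≤
      V.valuation (algebraMap A (FractionRing A) g))
    (R : Subalgebra A (FractionRing A)) (hR : R = centerRing V (chart I g))
    (hk : IsAlgClosed (LUF.centerField R V)) (hz : LUF.centerDegree R V = 0)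
    (hreg : LUF.RegularFormalFibre R V) (n : ℕ)
    (hn : LUF.formalDim R V = n) (hN : n ≤ 4)
    (hG : ∃ a : CompGroup V ⊤, ∀ b : CompGroup V ⊤, a ≠ p • b) :
    LogUniformizable V :=
  logUniformizable_formalP p Fact.out A V hV hrank hpA I g hg hg0 hgmin R hR hk hz hreg n hn hN
    (bbp_nd p hMob) (denseP_nd p) (ndv_of_compGroup hG)

end Pool.Agent.TWD
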