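import Pool.Agent.Lib.TWD.GenD
import Pool.Agent.Lib.TWD.NCls

/-!
# The formal form of log uniformization, value group not `p`-divisible

* `NDV p V`: the value group of `V` is not `p`-divisible;
* `lus_nd_alg`: function fields of transcendence degree at most four;
* `lus_nd`: the fields `K₀` of `LUC.Setup`;
* `bbp_nd`, `denseP_nd`: the hypotheses of `logUniformizable_formalP` for the class `NDV p`.
-/

set_option autoImplicit false

open Polynomial

namespace Pool.Agent.TWD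

open Pool.Agent.H15JM (RVal)
open Pool.Agent.LU1 (VPos)
open Pool.Agent.LU2 (IsR1 Rel vring rcomap rel_vring)
open Pool.Agent.LUC
open Pool.Agent.D2 (Ctx0 residue_ext0)
open Pool.Agent.D2P (clI mem_clI)
open Pool.Agent.TWM (CompleteV Dense Cld clI_mono clI_clI le_clI)
open Pool.Agent.TA (CtxR)
open Pool.Agent.TW (Ctx ctx_of_ctxR PDv MobQ0N)
open Pool.Agent.ALLF (ctxR_of_ext exists_max_ind)

universe u

/-- The value group of `V` is not `p`-divisible. -/
def NDV (p : ℕ) (K : Type u) [Field K] (V : ValuationSubring K) : Prop :=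
  ∃ f : K, f ≠ 0 ∧ ∀ g : K, g ≠ 0 → ¬ (f / g ^ p ∈ V ∧ g ^ p / f ∈ V)

/-- The motions for the value groups which are not `p`-divisible. -/
def MobN (p : ℕ) [Fact p.Prime] : Prop :=
  ∀ (k Ω : Type u) [Field k] [IsAlgClosed k] [CharP k p] [Field Ω] [Algebra k Ω] [IsAlgClosed Ω]
    [CharP Ω p] (v : RVal Ω), Ctx k v 1 → MobQ0N p v k 1 4

theorem ndv_iff {p : ℕ} {K : Type u} [Field K] {V : ValuationSubring K} {v : RVal K}
    (hrel : Rel V v) : NDV p K V ↔ ∃ f : K, f ≠ 0 ∧ ∀ g : K, g ≠ 0 → v f ≠ p * v g := by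
  have key : ∀ f g : K, f ≠ 0 → g ≠ 0 →
      ((f / g ^ p ∈ V ∧ g ^ p / f ∈ V) ↔ v f = p * v g) := by
    intro f g hf hg
    have hgp := pow_ne_zero p hg
    rw [hrel _ (div_ne_zero hf hgp), hrel _ (div_ne_zero hgp hf),
      v.map_div hf hgp, v.map_div hgp hf, v.map_pow hg]
    constructor
    · rintro ⟨h1, h2⟩
      linarith
    · intro h1
      constructor <;> linarith
  constructor
  · rintro ⟨f, hf, h⟩
    exact ⟨f, hf, fun g hg h1 => h g hg ((key f g hf hg).2 h1)⟩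
  · rintro ⟨f, hf, h⟩
    exact ⟨f, hf, fun g hg h1 => h g hg ((key f g hf hg).1 h1)⟩

/-- **The function fields of transcendence degree at most four.** -/
theorem lus_nd_alg (p : ℕ) [Fact p.Prime] (hMob : MobN.{u} p) {κ K Ω : Type u} [Field κ]
    [IsAlgClosed κ] [CharP κ p] [Field K] [Algebra κ K] [Field Ω] [IsAlgClosed Ω] [Algebra κ Ω]
    [Algebra K Ω] [IsScalarTower κ K Ω] [Algebra.IsAlgebraic K Ω]
    (hK : (⊤ : IntermediateField κ K).FG)
    (v : RVal K) (hc0 : Ctx0 κ v) (w : RVal Ω)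
    (hw : ∀ g : K, g ≠ 0 → w (algebraMap K Ω g) = v g) (hpos : ∃ c : K, c ≠ 0 ∧ 0 < v c)
    (htr : Algebra.trdeg κ K ≤ ((4 : ℕ) : Cardinal))
    (hQ : ∃ f : K, f ≠ 0 ∧ ∀ g : K, g ≠ 0 → v f ≠ p * v g) :
    LUs w (algebraMap κ Ω).range (algebraMap K Ω).fieldRange := by
  classical
  obtain ⟨n, hn⟩ := Cardinal.lt_aleph0.1 (lt_of_le_of_lt htr Cardinal.natCast_lt_aleph0)
  have hn4 : n ≤ 4 := by
    rw [hn] at htr
    exact_mod_cast htr
  obtain ⟨r, x, hx0, hx, hspan⟩ := exists_max_ind v hc0.triv hn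
  have hctx : CtxR κ w n r := ctxR_of_ext v hc0 w hw hn x hx0 hx hspan
  have hr : 0 < r := by
    rcases Nat.eq_zero_or_pos r with h0 | h0
    · exfalso
      subst h0
      obtain ⟨c, hc0, hc⟩ := hpos
      have h1 := hspan c hc0
      rw [Set.range_eq_empty, Submodule.span_empty, Submodule.mem_bot] at h1
      rw [h1] at hc
      exact lt_irrefl _ hc
    · exact h0
  let ι : K →ₐ[κ] Ω := IsScalarTower.toAlgHom κ K Ω
  let L : IntermediateField κ Ω := ι.fieldRange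
  have hL : L.toSubfield = (algebraMap K Ω).fieldRange := by
    ext f
    constructor
    · rintro ⟨g, hg⟩
      exact ⟨g, hg⟩
    · rintro ⟨g, hg⟩
      exact ⟨g, hg⟩
  have hLfg : L.FG := by
    obtain ⟨S, hS⟩ := hK
    refine ⟨S.image ι, ?_⟩
    rw [Finset.coe_image, ← IntermediateField.adjoin_map, hS]
    exact (AlgHom.fieldRange_eq_map ι).symm
  have halg : ∀ g : Ω, IsAlgebraic L g := by
    intro g
    obtain ⟨P, hP0, hP⟩ := (Algebra.IsAlgebraic.isAlgebraic g : IsAlgebraic K g)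
    let j : K →+* L := (ι.rangeRestrict : K →ₐ[κ] ι.range).toRingHom
    refine ⟨P.map j, ?_, ?_⟩
    · exact (Polynomial.map_ne_zero_iff j.injective).2 hP0
    · rw [Polynomial.aeval_def, Polynomial.eval₂_map]
      exact hP
  have e : K ≃ₐ[κ] L := AlgEquiv.ofInjectiveField ι
  rw [← hL]
  by_cases h2 : n ≤ r + 2
  · exact TW.lus_twoR p hctx hr h2 hLfg halg
  · obtain rfl : r = 1 := by omega
    obtain rfl : n = 4 := by omega
    have hc : Ctx κ w 1 := ctx_of_ctxR hctx hr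
    have htrL : Algebra.trdeg κ L = (4 : ℕ) := e.trdeg_eq.symm.trans hn
    have : CharP Ω p := charP_of_injective_algebraMap (algebraMap κ Ω).injective p
    refine TW.lus_four_of_mobN p (fun Ω' _ _ _ _ v' h' => hMob κ Ω' v' h') Ω w 1 hc L hLfg halg
      (n := 4) htrL (Or.inr ⟨rfl, fun hP => ?_⟩)
    obtain ⟨f, hf0, hf⟩ := hQ
    obtain ⟨_, ⟨g, rfl⟩, hg0, h5⟩ := hP (ι f) ⟨f, rfl⟩ ((_root_.map_ne_zero ι).2 hf0)
    have hg0' : g ≠ 0 := (_root_.map_ne_zero ι).1 hg0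
    apply hf g hg0'
    rw [← hw f hf0, ← hw g hg0']
    exact h5

/-- **The fields `K₀` of `LUC.Setup`.** -/
theorem lus_nd (p : ℕ) [Fact p.Prime] (hMob : MobN.{u} p) {κ Ω : Type u} [Field κ]
    [IsAlgClosed κ] [CharP κ p]
    [Field Ω] [IsAlgClosed Ω] [Algebra κ Ω] {w : RVal Ω} {S : Subring Ω} {m e q : ℕ}
    {x : Fin m → Ω} {t : Fin e → Ω} {K₀ K' : Subfield Ω} {B : Finset Ω} {α : Fin q → Ω} {u : Ω}
    {H : Polynomial Ω} (h : Setup w (algebraMap κ Ω).range S x t K₀ K' B α u H)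
    (h0 : Ctx0 κ w) (hm : m + e ≤ 4) (E : IntermediateField κ Ω) (hE : E.toSubfield ≤ K')
    (hcl : ∀ f ∈ K', f ∈ Cl w E.toSubfield) (halg : ∀ g : Ω, IsAlgebraic E g)
    (hpos : ∃ c ∈ K', c ≠ 0 ∧ 0 < w c)
    (hQ : ∃ f ∈ E, f ≠ 0 ∧ ∀ g ∈ E, g ≠ 0 → w f ≠ p * w g) :
    LUs w (algebraMap κ Ω).range K₀ := by
  classical
  have hκK : ∀ c : κ, algebraMap κ Ω c ∈ K₀ := fun c =>
    h.quo₀.1 _ (base_le_adj _ _ ⟨c, rfl⟩)
  let i0 : Algebra κ K₀ := ((algebraMap κ Ω).codRestrict K₀ hκK).toAlgebra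
  have i1 : IsScalarTower κ K₀ Ω := IsScalarTower.of_algebraMap_eq fun c => rfl
  -- `K₀ ≤ K'`
  have hS : S ≤ K'.toSubring := by
    intro s hs
    exact h.quo.1 s (base_le_adj _ _ hs)
  have hKK : K₀ ≤ K' := by
    intro f hf
    obtain ⟨a, ha, b, hb, -, rfl⟩ := h.quo₀.2 f hf
    have h1 : adj (algebraMap κ Ω).range (B : Set Ω) ≤ K'.toSubring := by
      refine adj_le (fun s hs => hS (h.base.le hs)) fun b hb => ?_
      exact h.quo.1 b (mem_adj (Or.inl hb))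
    exact K'.div_mem (h1 ha) (h1 hb)
  -- the algebraic closure of `K₀`
  let Ω₀ : IntermediateField K₀ Ω := algebraicClosure K₀ Ω
  let i2 : Algebra κ Ω₀ := ((algebraMap K₀ Ω₀).comp (algebraMap κ K₀)).toAlgebra
  have i3 : IsScalarTower κ K₀ Ω₀ := IsScalarTower.of_algebraMap_eq fun c => rfl
  have i4 : IsAlgClosed Ω₀ := (algebraicClosure.isAlgClosure K₀ Ω).isAlgClosed
  have i5 : Algebra.IsAlgebraic K₀ Ω₀ := (algebraicClosure.isAlgClosure K₀ Ω).isAlgebraic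
  let j : Ω₀ →ₐ[κ] Ω := { Ω₀.val.toRingHom with commutes' := fun c => rfl }
  let w₀ : RVal Ω₀ := rcomap w j.toRingHom
  let v₀ : RVal K₀ := rcomap w K₀.subtype
  have hv₀ : ∀ a : K₀, v₀ a = w (a : Ω) := fun a => rfl
  -- the field `K₀`
  have hc0 : Ctx0 κ v₀ := by
    refine ⟨fun c hc => h0.triv c hc, fun g hg hg0 => ?_⟩
    obtain ⟨c, hc, hc1⟩ := h0.res (g : Ω) (fun h1 => hg (Subtype.ext h1)) hg0
    refine ⟨c, hc, fun h2 => ?_⟩
    exact hc1 fun h3 => h2 (Subtype.ext h3)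
  have hpos₀ : ∃ c : K₀, c ≠ 0 ∧ 0 < v₀ c := by
    obtain ⟨c, hcK, hc0, hcw⟩ := hpos
    obtain ⟨c₀, hc₀, hc₀0, hc₀w, -⟩ := Cl.exists_val (h.cl c hcK) 0 hc0
    refine ⟨⟨c₀, hc₀⟩, fun h1 => hc₀0 (congrArg Subtype.val h1), ?_⟩
    rw [hv₀]
    exact hc₀w.symm ▸ hcw
  have hQ₀ : ∃ f : K₀, f ≠ 0 ∧ ∀ g : K₀, g ≠ 0 → v₀ f ≠ p * v₀ g := by
    obtain ⟨f, hf, hf0, hfg⟩ := hQ
    obtain ⟨f₀, hf₀, hf₀0, hf₀w, -⟩ := Cl.exists_val (h.cl f (hE hf)) 0 hf0
    refine ⟨⟨f₀, hf₀⟩, fun h1 => hf₀0 (congrArg Subtype.val h1), fun g hg h1 => ?_⟩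
    have hg0 : (g : Ω) ≠ 0 := fun h2 => hg (Subtype.ext h2)
    obtain ⟨g₀, hg₀, hg₀0, hg₀w, -⟩ := Cl.exists_val (hcl g (hKK g.2)) 0 hg0
    apply hfg g₀ hg₀ hg₀0
    rw [hg₀w, ← hf₀w]
    exact h1
  have h5 : LUs w₀ (algebraMap κ Ω₀).range (algebraMap K₀ Ω₀).fieldRange :=
    lus_nd_alg p hMob h.fg v₀ hc0 w₀ (fun g _ => rfl) hpos₀
      (h.trdeg_le.trans (by exact_mod_cast hm)) hQ₀
  -- back to `Ω`
  set V₀ : ValuationSubring K₀ := vring v₀ with hV₀
  have hV1 : ∀ f : K₀, f ∈ V₀ ↔ w₀.Ge 0 (algebraMap K₀ Ω₀ f) := by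
    intro f
    rw [(rel_vring v₀).mem_iff]
    constructor
    · intro h1 h2
      exact h1 (by simpa using h2)
    · intro h1 h2
      exact h1 (by simpa using h2)
  have hkV : ∀ c : κ, algebraMap κ K₀ c ∈ V₀ := by
    intro c
    rw [(rel_vring v₀).mem_iff]
    intro h1
    have h2 : c ≠ 0 := by
      rintro rfl
      exact h1 (map_zero _)
    rw [hv₀]
    exact (h0.triv c h2).ge
  have hL := LUs.lurV hV1 hkV h5
  have hL' := LUrV.lus (w := w) (Ω := Ω) (V := V₀) (fun f => by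
    rw [(rel_vring v₀).mem_iff]
    constructor
    · intro h1 h2
      exact h1 (by simpa using h2)
    · intro h1 h2
      exact h1 (by simpa using h2)) hkV hL
  have hr : (algebraMap K₀ Ω).fieldRange = K₀ := by
    ext f
    constructor
    · rintro ⟨y, rfl⟩
      exact y.2
    · intro hf
      exact ⟨⟨f, hf⟩, rfl⟩
  rw [hr] at hL'
  exact hL'

/-- **The class over regular local rings with a coefficient field.** -/
theorem bbp_nd (p : ℕ) [Fact p.Prime] (hMob : MobN.{u} p) : BBP.{u} p (NDV p) := by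
  intro κ S K _ _ _ _ _ _ _ _ _ _ _ _ _ _ _ hres m hdim s hs hsep V hR hS hmS hz hN hQ
  classical
  obtain ⟨v, w, hrel, hw, hV, hVpos, c', hc0, hcV⟩ := exists_entry V hR
  let Ω : Type u := AlgebraicClosure K
  let ι : K →+* Ω := algebraMap K Ω
  have hι0 : ∀ f : K, ι f ≠ 0 ↔ f ≠ 0 := fun f => (_root_.map_ne_zero ι)
  have hinj : Function.Injective (algebraMap S Ω) := by
    rw [IsScalarTower.algebraMap_eq S K Ω]
    exact ι.injective.comp (FaithfulSMul.algebraMap_injective S K)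
  obtain ⟨x, hB⟩ := exists_base (k := κ) hinj w hres hdim
    (fun s => by rw [IsScalarTower.algebraMap_apply S K Ω]; exact (hV _).1 (hS s))
    (fun s hs => by rw [IsScalarTower.algebraMap_apply S K Ω]; exact hVpos _ (hmS s hs))
  obtain ⟨e, -, -, -, -, -, -, -, -, -, -, htr⟩ := exists_primitive s hs hsep V
  have hk : ∀ c : κ, algebraMap κ K c ∈ V := by
    intro c
    rw [IsScalarTower.algebraMap_apply κ S K]
    exact hS _
  have hN' : m + e ≤ 4 := by
    rw [htr] at hN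
    have : e + m ≤ 4 := by exact_mod_cast hN
    omega
  -- the residue field of the algebraic closure
  have htriv : ∀ c : κ, c ≠ 0 → v (algebraMap κ K c) = 0 := by
    intro c hc
    have hc' : algebraMap κ K c ≠ 0 := by rwa [_root_.map_ne_zero]
    have h1 := (hrel _ hc').1 (hk c)
    have h2 := (hrel _ (inv_ne_zero hc')).1 (by rw [← map_inv₀]; exact hk c⁻¹)
    rw [v.map_inv hc'] at h2
    linarith
  have hctx : Ctx0 κ v := by
    refine ⟨htriv, fun g hg hg0 => ?_⟩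
    obtain ⟨c, hc⟩ := hz g ((hrel g hg).2 hg0.ge)
    have hc1 := (hrel.lt_one_iff' _).1 hc
    refine ⟨c, ?_, hc1⟩
    rintro rfl
    rw [_root_.map_zero, sub_zero] at hc1
    have h1 := hc1 hg
    rw [hg0] at h1
    exact lt_irrefl _ h1
  have hwctx : Ctx0 κ w := by
    refine ⟨fun c hc => ?_, fun g hg hg0 => residue_ext0 v hctx w hw g hg hg0⟩
    rw [IsScalarTower.algebraMap_apply κ K Ω, hw _ (by rwa [_root_.map_ne_zero])]
    exact htriv c hc
  let E : IntermediateField κ Ω := (IsScalarTower.toAlgHom κ K Ω).fieldRange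
  have hE : E.toSubfield = (algebraMap K Ω).fieldRange := by
    ext f
    constructor
    · rintro ⟨g, hg⟩
      exact ⟨g, hg⟩
    · rintro ⟨g, hg⟩
      exact ⟨g, hg⟩
  have halg : ∀ g : Ω, IsAlgebraic E g := by
    intro g
    obtain ⟨P, hP0, hP⟩ := (Algebra.IsAlgebraic.isAlgebraic g : IsAlgebraic K g)
    let j : K →+* E := ((IsScalarTower.toAlgHom κ K Ω).rangeRestrict).toRingHom
    refine ⟨P.map j, ?_, ?_⟩
    · exact (Polynomial.map_ne_zero_iff j.injective).2 hP0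
    · rw [Polynomial.aeval_def, Polynomial.eval₂_map]
      exact hP
  refine lurV_of_base' s hs hsep V w hV hS ⟨c', hc0, by rw [hw c' hc0]; exact hcV⟩ _ x hB htr
    fun t q K₀ K' B α u H ht hKK' hcl hset => ?_
  refine lus_nd p hMob hset hwctx hN' E (by rw [hE]; exact hKK') (by rw [hE]; exact hcl) halg
    ⟨ι c', hKK' ⟨c', rfl⟩, (hι0 c').2 hc0, by rw [hw c' hc0]; exact hcV⟩ ?_
  obtain ⟨f, hf0, hf⟩ := (ndv_iff hrel).1 hQ
  refine ⟨ι f, ⟨f, rfl⟩, (hι0 f).2 hf0, ?_⟩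
  rintro _ ⟨g, rfl⟩ hg0
  have hg0' : g ≠ 0 := (hι0 g).1 hg0
  have h1 := hf g hg0'
  rw [← hw f hf0, ← hw g hg0'] at h1
  exact h1

/-- **The class passes to dense extensions.** -/
theorem denseP_nd (p : ℕ) : DenseP.{u} (NDV p) := by
  intro K K' _ _ V V' h w hrel j hj hd hR
  have hrelK : Rel V (rcomap w j) := fun g hg => hj g hg
  rw [ndv_iff hrel]
  obtain ⟨f, hf0, hf⟩ := (ndv_iff hrelK).1 h
  refine ⟨j f, (_root_.map_ne_zero j).2 hf0, fun g' hg' h1 => ?_⟩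
  -- an element of `K` with the value of `g'`
  obtain ⟨y, hy⟩ := hd g' (w g' + 1)
  have h2 : j y ≠ 0 ∧ w (j y) = w g' := by
    by_cases h3 : g' - j y = 0
    · have h4 : g' = j y := sub_eq_zero.1 h3
      rw [← h4]
      exact ⟨hg', rfl⟩
    · have h4 := hy h3
      have h5 : w g' < w (-(g' - j y)) := by
        rw [w.map_neg _ h3]
        linarith
      have h6 := w.add_of_lt hg' (neg_ne_zero.2 h3) h5
      have h7 : g' + -(g' - j y) = j y := by ring
      rw [h7] at h6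
      exact h6
  have hy0 : y ≠ 0 := (_root_.map_ne_zero j).1 h2.1
  apply hf y hy0
  change w (j f) = p * w (j y)
  rw [h2.2, h1]

end Pool.Agent.TWD
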