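import Pool.Agent.Lib.TWE_h25.PD

/-!
# TANK W: dimension four, rational rank one and value group not `p`-divisible, from motions
-/

set_option autoImplicit false

open Polynomial Filter Topology

namespace Pool.Agent.TW

open Pool.Agent.H15JM (RVal)
open Pool.Agent.LU1 (VPos adj)
open Pool.Agent.LUC (Cl LUs lv)
open Pool.Agent.D2 (Ctx0)
open Pool.Agent.D2P (hen mem_hen mem_adj_self isAlgebraic_mono)
open Pool.Agent.LU3 (resv)

universe u

/-- `MobQ0` for the fields with value group not `p`-divisible. -/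
def MobQ0N (p : ℕ) {Ω : Type u} [Field Ω] (v : RVal Ω) (k : Type u) [Field k] [Algebra k Ω]
    (r n : ℕ) : Prop :=
  ∀ K₀ : IntermediateField k Ω, K₀.FG → (∀ g : Ω, IsAlgebraic K₀ g) →
    Algebra.trdeg k K₀ = n → BD p v K₀ → ¬ PDv p v K₀ → HRone v K₀ →
    LUs v (algebraMap k Ω).range K₀.toSubfield → (∀ m, m < n → LUB p v k r m) →
    ∀ g : Ω, g ∉ K₀ → g ^ p ∈ K₀ → BD p v (adj K₀ g) → HRone v (adj K₀ g) ∨
      ∃ (φ : ℕ → (Ω ≃ₐ[k] Ω)) (δ : ℕ → Ω) (ρ : ℝ), Mot v K₀ φ δ ρ ∧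
        ∀ i, ∃ c ∈ hen v K₀, ∃ b ∈ hen v K₀, c ≠ 0 ∧ φ i (g ^ p) = c ^ p * g ^ p + b ^ p

section

variable {k Ω : Type u} [Field k] [Field Ω] [Algebra k Ω] {v : RVal Ω} {r : ℕ}

/-- A field over which a field with value group not `p`-divisible is algebraic. -/
theorem npd_down {p : ℕ} (hp : p.Prime) {M E : IntermediateField k Ω} (h : ¬ PDv p v E)
    (hME : M ≤ E) (halg : ∀ g ∈ E, IsAlgebraic M g) : ¬ PDv p v M :=
  fun hM => h (hM.up hp hME halg)

theorem MobQ0.toN {p : ℕ} {n : ℕ} (h : MobQ0 p v k r n) : MobQ0N p v k r n :=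
  fun K₀ h1 h2 h3 h4 _ h5 h6 h7 => h K₀ h1 h2 h3 h4 h5 h6 h7

/-- `lub_of_mob` for the fields with value group not `p`-divisible. -/
theorem lub_of_mobN [IsAlgClosed Ω] [IsAlgClosed k] (p : ℕ) [Fact p.Prime] [CharP k p]
    [CharP Ω p] (h : Ctx k v r) {n : ℕ} (hn : r + 2 ≤ n) (hMob : MobQ0N p v k r n)
    (hlow : ∀ m, m < n → LUB p v k r m)
    (hW : ∀ W : RVal Ω, Ctx k W (r + 1) → ∀ E : IntermediateField k Ω, E.FG →
      (∀ g : Ω, IsAlgebraic E g) → Algebra.trdeg k E = n →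
      LUs W (algebraMap k Ω).range E.toSubfield)
    {E : IntermediateField k Ω} (hE : E.FG) (hΩ : ∀ g : Ω, IsAlgebraic E g)
    (htr : Algebra.trdeg k E = n) (hBD : BD p v E) (hPD : ¬ PDv p v E) : HRone v E ∧ LU p v r E := by
  have hp : 0 < p := (Fact.out : p.Prime).pos
  obtain ⟨D, rfl⟩ : ∃ D, n = r + (D + 1) := ⟨n - (r + 1), by omega⟩
  have hlow' : LUB p v k r (r + D) := hlow (r + D) (by omega)
  have hfull : Full v E := full_of_alg hΩ
  obtain ⟨L₀, hL₀E, hL₀fg, hL₀F, hL₀n⟩ :=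
    exists_corank_one (n := r + D) h (by omega) E hfull htr
  have hHR : HRone v E := by
    refine hrone_of_corank' p h E hE hfull htr hBD L₀ hL₀E hL₀fg hL₀F hL₀n ?_
    intro K₀ _ hKE hK hfK htK hBDK hHRK g hgE hg hBDg
    by_cases hgK : g ∈ K₀
    · have h1 : adj K₀ g = K₀ := le_antisymm
        (D2P.adj_le le_rfl hgK) (mem_adj_self K₀ g).2
      rwa [h1]
    have hΩK : ∀ f : Ω, IsAlgebraic K₀ f := isAlgebraic_of_trdeg_eq htK htr hΩ
    rcases hMob K₀ hK hΩK htK hBDK (npd_down Fact.out hPD hKE fun f _ => hΩK f) hHRK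
      (lus_of_hr p h hlow' hK hfK htK hBDK hHRK hΩK) hlow g hgK hg hBDg with h1 | h1
    · exact h1
    · obtain ⟨φ, δ, ρ, hM, hroot⟩ := h1
      choose δ' hδ' using fun i => IsAlgClosed.exists_pow_nat_eq (δ i) hp
      have hM' := Mot.root p h.toCtx0 hM hδ' hg hroot
      have htg : Algebra.trdeg k (adj K₀ g) = (r + (D + 1) : ℕ) := by
        refine (trdeg_eq_of_alg (mem_adj_self K₀ g).2 (D2P.isAlgebraic_sup {g} ?_)).trans htK
        rintro s rfl
        exact D2P.isAlgebraic_of_pow hp (D2P.isAlgebraic_of_mem hg)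
      have hΩg : ∀ f : Ω, IsAlgebraic (adj K₀ g) f := isAlgebraic_of_trdeg_eq htg htr hΩ
      exact hrone_of_mot p h (D2P.fg_adj hK g) hΩg htg hM' fun W hcW =>
        hW W hcW (adj K₀ g) (D2P.fg_adj hK g) hΩg htg
  exact ⟨hHR, lu_of_hr p h hlow' hE hfull htr hBD hHR⟩

/-- `LU` for the fields with bounded distortion and value group not `p`-divisible. -/
def LUBN (p : ℕ) {Ω : Type u} [Field Ω] (v : RVal Ω) (k : Type u) [Field k] [Algebra k Ω]
    (r n : ℕ) : Prop :=
  ∀ E : IntermediateField k Ω, E.FG → Full v E → Algebra.trdeg k E = n → BD p v E →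
    ¬ PDv p v E → LU p v r E

/-- `lub_transfer` for the fields with value group not `p`-divisible. -/
theorem lub_transferN [IsAlgClosed Ω] [IsAlgClosed k] (p : ℕ) [Fact p.Prime] [CharP k p]
    [CharP Ω p] (h : Ctx k v r) {n : ℕ}
    (H : ∀ (Ω' : Type u) [Field Ω'] [Algebra k Ω'] [IsAlgClosed Ω'] [CharP Ω' p] (v' : RVal Ω'),
      Ctx k v' r → ∀ E : IntermediateField k Ω', E.FG → (∀ g : Ω', IsAlgebraic E g) →
        Algebra.trdeg k E = n → BD p v' E → ¬ PDv p v' E → LU p v' r E) : LUBN p v k r n := by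
  intro E hE hEf htr hBD hPD
  set W := acl E with hWdef
  have hEW : E ≤ W := le_acl E
  have _ : IsAlgClosed W := acl_isAlgClosed E
  have _ : CharP W p := D2P.charP_field p W
  have hctx : Ctx k (resv v W) r := WM11.ctx_acl h hEf hEW
  refine WM11.lu_map hctx hEW (H W (resv v W) hctx (E.comap W.val) (fg_comap_val hEW hE)
    (fun g => ?_) ?_ (WM11.bd_comap hBD hEW) ?_)
  · have h1 : IsAlgebraic E (g : Ω) := mem_acl.1 g.2
    obtain ⟨P, hP0, hP⟩ := h1
    let φ : E →+* (E.comap W.val : IntermediateField k W) :=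
      { toFun := fun a => ⟨⟨(a : Ω), hEW a.2⟩, a.2⟩
        map_one' := rfl
        map_mul' := fun _ _ => rfl
        map_zero' := rfl
        map_add' := fun _ _ => rfl }
    refine ⟨P.map φ, (Polynomial.map_ne_zero_iff φ.injective).2 hP0, ?_⟩
    apply (algebraMap W Ω).injective
    rw [map_zero, aeval_def, eval₂_map, hom_eval₂]
    exact hP
  · rw [← htr]
    have e : (E.comap W.val : IntermediateField k W) ≃ₐ[k] E :=
      AlgEquiv.ofBijective
        { toFun := fun a => ⟨((a : W) : Ω), a.2⟩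
          map_one' := rfl
          map_mul' := fun _ _ => rfl
          map_zero' := rfl
          map_add' := fun _ _ => rfl
          commutes' := fun _ => rfl }
        ⟨fun a b hab => Subtype.ext (Subtype.ext (congrArg (fun z : E => (z : Ω)) hab)),
          fun b => ⟨⟨⟨b, hEW b.2⟩, b.2⟩, rfl⟩⟩
    exact e.trdeg_eq
  · refine fun h1 => hPD fun f hf hf0 => ?_
    obtain ⟨g, hg, hg0, hfg⟩ := h1 ⟨f, hEW hf⟩ hf (fun h0 => hf0 (congrArg Subtype.val h0))
    exact ⟨g, hg, fun h0 => hg0 (Subtype.ext h0), hfg⟩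

/-- `LU.lus` for the fields with value group not `p`-divisible. -/
theorem LU.lusN [IsAlgClosed Ω] [IsAlgClosed k] (p : ℕ) [Fact p.Prime] [CharP k p]
    [CharP Ω p] (h : Ctx k v r) {E : IntermediateField k Ω} (hE : E.FG) (hfull : Full v E)
    (hBD : BD p v E) (hPD : ¬ PDv p v E) {n : ℕ} (htr : Algebra.trdeg k E = n)
    (hLU : LUBN p v k r n) (hΩ : ∀ g : Ω, IsAlgebraic E g) :
    LUs v (algebraMap k Ω).range E.toSubfield := by
  obtain ⟨D, rfl⟩ := Nat.exists_eq_add_of_le (hfull.rank_le h htr)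
  refine LU.lus_of p h hE htr (hLU E hE hfull htr hBD hPD) (fun F hF => ?_) hΩ
  have hFE : F.K ≤ E := by
    have h1 : F.K = IntermediateField.adjoin k (Set.range F.x ∪ Set.range F.y) := rfl
    rw [h1, IntermediateField.adjoin_le_iff]
    rintro _ (⟨i, rfl⟩ | ⟨j, rfl⟩)
    · exact hF.x_mem i
    · exact hF.y_mem j
  exact hLU F.K (Est.fg_K F) (Est.full_K h F) (Est.trdeg_K F)
    (hBD.congr p (Est.fg_K F) (hF.hen_eq p h))
    (npd_down Fact.out hPD hFE fun g _ => isAlgebraic_of_trdeg_eq (Est.trdeg_K F) htr hΩ g)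

end

end Pool.Agent.TW
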