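import Pool.Agent.Lib.TWD.NFin
import Pool.Agent.Lib.TWIV.TameZ

/-!
# Dimension four, value group not `p`-divisible: the theorems

* `mobN`: the motions; `realCls_ndiv_all`: the class `NDivCls`.
-/

set_option autoImplicit false

namespace Pool.Agent.TW

open Pool.Agent.LU2 Pool.Agent.LU2G Pool.Agent.LU2H

universe u

/-- The class of the valuation rings with residue field `k` of dimension at most four, with value
group not `p`-divisible in dimension four. -/
theorem realCls_ndiv_all (p : ℕ) [Fact p.Prime] (k : Type u) [Field k] [IsAlgClosed k]
    [CharP k p] : RealCls (NDivCls p k) :=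
  realCls_ndiv_of p (TWIV.tameLeaf_all p k)

end Pool.Agent.TW

namespace Pool.Agent.TWD

universe u

/-- The motions for the value groups which are not `p`-divisible. -/
theorem mobN (p : ℕ) [Fact p.Prime] : MobN.{u} p :=
  mobN_of p fun k _ _ _ => TWIV.tameLeaf_all p k

end Pool.Agent.TWD
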