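import Pool.Agent.Lib.TWD.Main
import Pool.Agent.Lib.TWC.BdClC

/-!
# Valuations whose completion is isogenous to a tower: all towers

* `TowerVal.t3m`: the class of valuation rings, in the algebraic closure;
* `TowerVal.realProp`: the hypotheses of `lur_of_prop` for the class `ClC p (T3m p k)`;
* `exists_smooth_centres_crit`, `logUniformizable_crit`: the geometric statements, from the
  criterion `CritM` for the class.
-/

set_option autoImplicit false

open AlgebraicGeometry CategoryTheory

namespace Pool.Agent.TWD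

open Pool.Agent.LU2 Pool.Agent.LU2G Pool.Agent.LU2H
open Pool.Agent.H15JM (RVal)
open Pool.Agent.TWM
open Pool.Agent.TW (ClC CProp T3m CritM VProp RealProp Ctx)

universe u

/-- The fields whose closure is isogenous to a tower over `cl k(x, y)`. -/
def QT3m (p : ℕ) (k : Type u) [Field k] : VProp k := fun _ _ _ _ v E => ClC p (T3m p k) v E

section

variable {k K : Type u} [Field k] [Field K] [Algebra k K] {p : ℕ} [Fact p.Prime]
  {V : ValuationSubring K}

/-- The class of valuation rings, in the algebraic closure. -/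
theorem TowerVal.t3m (h : TowerVal (k := k) p (IsTower p k) V)
    (Ω : Type u) [Field Ω] [Algebra k Ω] [IsAlgClosed Ω] (v : RVal Ω)
    (L : IntermediateField k Ω) (e : K ≃ₐ[k] L) (hx : Ctx k v 1)
    (he : ∀ g : K, g ≠ 0 → (g ∈ V ↔ 0 ≤ v (e g : Ω))) (halg : ∀ g : Ω, IsAlgebraic L g) :
    ClC p (T3m p k) v L :=
  h.clc (Q := T3m p k) (fun Ω _ _ v M hT => by
    obtain ⟨x, y, u, z, s, h1⟩ := hT
    obtain ⟨h3, h4⟩ := h1.t3
    exact ⟨h4.cld, x, y, s, h3, h4⟩) Ω v L e hx he halg

/-- The hypotheses of `lur_of_prop`. -/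
theorem TowerVal.realProp [IsAlgClosed k] [CharP k p]
    (h : TowerVal (k := k) p (IsTower p k) V) (hK : (⊤ : IntermediateField k K).FG) :
    RealProp p (QT3m p k) V where
  rank := h.rank
  res := h.res
  trdeg := h.trdeg
  prop Ω _ _ _ v L e hc he halg := by
    have : CharP Ω p := charP_of_injective_algebraMap (algebraMap k Ω).injective p
    have h1 := h.t3m Ω v L e hc he halg
    exact ⟨TWC.bd_of_t3m (TW.fg_of_equiv hK e) (e.trdeg_eq.symm.trans h.trdeg) h1, TW.her_clc h1⟩

end

/-- The geometric statement. -/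
theorem exists_smooth_centres_crit (p : ℕ) [Fact p.Prime] (k : Type) [Field k] [IsAlgClosed k]
    [CharP k p] (hQ : CritM p k (QT3m p k)) (X : Scheme.{0}) [IsIntegral X]
    (f : X ⟶ Spec (CommRingCat.of k))
    [LocallyOfFiniteType f] (m : ℕ) (V : Fin m → ValuationSubring X.functionField)
    (hV : ∀ i, @TowerVal p k X.functionField _ _ (consts f).toAlgebra (IsTower p k) (V i))
    (c : ∀ i, Spec (CommRingCat.of (V i)) ⟶ X)
    (hc : ∀ i, Spec.map (CommRingCat.ofHom (algebraMap (V i) X.functionField)) ≫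
      c i = X.fromSpecStalk (genericPoint X)) :
    ∃ (Y : Scheme.{0}) (π : Y ⟶ X), IsIntegral Y ∧ IsProper π ∧
      (∀ W : X.Opens, (∀ (i : Fin m) (V' : ValuationSubring X.functionField) (h : V i ≤ V'),
        V' ≠ ⊤ → (coarser h ≫ c i) (IsLocalRing.closedPoint V') ∈ W →
          IsSmoothAt f ((coarser h ≫ c i) (IsLocalRing.closedPoint V'))) → IsIso (π ∣_ W)) ∧
      ∀ i, ∃ c' : Spec (CommRingCat.of (V i)) ⟶ Y, c' ≫ π = c i ∧
        IsSmoothAt (π ≫ f) (c' (IsLocalRing.closedPoint (V i))) :=
  TW.exists_smooth_centres_prop p k hQ X f m V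
    (fun i hK => (let _ : Algebra k X.functionField := (consts f).toAlgebra
      (hV i).realProp hK)) c hc

/-- The statement for affine models. -/
theorem logUniformizable_crit (p : ℕ) [Fact p.Prime] (k : Type) [Field k] [IsAlgClosed k]
    [CharP k p] (hQ : CritM p k (QT3m p k)) (A : Type) [CommRing A] [IsDomain A] [Algebra k A]
    [Algebra.EssFiniteType k A]
    (V : ValuationSubring (FractionRing A)) (hV : ∀ a : A, algebraMap A (FractionRing A) a ∈ V)
    (h : TowerVal (k := k) p (IsTower p k) V) : LU2G.LogUniformizable V :=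
  TW.logUniformizable_prop p k hQ A V hV h.realProp

end Pool.Agent.TWD
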