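import Pool.Agent.Lib.TWD.UCa
import Pool.Agent.Lib.LU2G.LogDefs
import Pool.Agent.Lib.LU2_h15.Defs

/-!
# TANK W, uniformizable components: from log desingularizations to monomials

`exists_mono`: a log desingularization `O` of `(Spec A, V(D))`, dominating the blowing up in `J`,
along `W`, gives a regular system of parameters of `O` in which the quotients `a / b`, `a b` a
divisor of all elements of `D`, `(a, b)` a factor of `J`, are monomials.
-/

set_option autoImplicit false

open IsLocalRing

namespace Pool.Agent.TWD

open Pool.Agent.LU2 Pool.Agent.LU2G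

section

variable {A : Type} [CommRing A] [IsDomain A] {W : ValuationSubring (FractionRing A)}
  {S : Subalgebra A (FractionRing A)}

theorem le_centerRing {f : FractionRing A} (hf : f ∈ S) : f ∈ centerRing W S :=
  ⟨f, hf, 1, S.one_mem, map_one _, by rw [div_one]⟩

theorem centerRing_val (hS : ∀ f ∈ S, W.valuation f ≤ 1) {f : FractionRing A}
    (hf : f ∈ centerRing W S) : W.valuation f ≤ 1 := by
  obtain ⟨a, ha, b, hb, hvb, rfl⟩ := hf
  rw [map_div₀, hvb, div_one]
  exact hS a ha

theorem centerRing_inv {f : FractionRing A} (hf : f ∈ centerRing W S) (h1 : W.valuation f = 1) :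
    f⁻¹ ∈ centerRing W S := by
  obtain ⟨a, ha, b, hb, hvb, rfl⟩ := hf
  rw [map_div₀, hvb, div_one] at h1
  exact ⟨b, hb, a, ha, h1, by rw [inv_div]⟩

theorem centerRing_isUnit (hS : ∀ f ∈ S, W.valuation f ≤ 1) {f : centerRing W S} :
    IsUnit f ↔ W.valuation (f : FractionRing A) = 1 := by
  constructor
  · rintro ⟨u, rfl⟩
    refine le_antisymm (centerRing_val hS (u : centerRing W S).2) ?_
    have h1 := centerRing_val hS ((u⁻¹ : (centerRing W S)ˣ) : centerRing W S).2
    have h2 : ((u : centerRing W S) : FractionRing A) *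
        (((u⁻¹ : (centerRing W S)ˣ) : centerRing W S) : FractionRing A) = 1 := by
      rw [← Subalgebra.coe_mul, Units.mul_inv, Subalgebra.coe_one]
    have h3 := congrArg W.valuation h2
    rw [map_mul, map_one] at h3
    by_contra h4
    push Not at h4
    have h5 := mul_lt_of_lt_of_le_one h4 h1
    rw [h3] at h5
    exact lt_irrefl _ h5
  · intro h
    have h0 : (f : FractionRing A) ≠ 0 := by
      intro h0
      rw [h0, map_zero] at h
      exact zero_ne_one h
    refine IsUnit.of_mul_eq_one ⟨(f : FractionRing A)⁻¹, centerRing_inv f.2 h⟩ ?_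
    apply Subtype.ext
    exact mul_inv_cancel₀ h0

theorem chart_val {I : Ideal A} {g : A}
    (hmax : ∀ a ∈ I, W.valuation (algebraMap A (FractionRing A) a) ≤
      W.valuation (algebraMap A (FractionRing A) g)) (hg : g ≠ 0)
    (hA : ∀ a : A, algebraMap A (FractionRing A) a ∈ W) :
    ∀ f ∈ chart I g, W.valuation f ≤ 1 := by
  intro f hf
  unfold chart at hf
  have hg0 : W.valuation (algebraMap A (FractionRing A) g) ≠ 0 := by
    rw [Valuation.ne_zero_iff]
    exact (map_ne_zero_iff _ (IsFractionRing.injective A (FractionRing A))).2 hg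
  induction hf using Algebra.adjoin_induction with
  | mem f hf =>
    obtain ⟨a, ha, rfl⟩ := hf
    rw [map_div₀]
    exact div_le_one_of_le₀ (hmax a ha) zero_le
  | algebraMap a => exact (W.valuation_le_one_iff _).2 (hA a)
  | add f g _ _ hf hg => exact (W.valuation.map_add_le hf hg)
  | mul f g _ _ hf hg =>
    rw [map_mul]
    exact mul_le_one' hf hg

theorem div_mem_chart {I : Ideal A} {g a : A} (ha : a ∈ I) :
    algebraMap A (FractionRing A) a / algebraMap A (FractionRing A) g ∈ chart I g :=
  Algebra.subset_adjoin ⟨a, ha, rfl⟩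

/-- A factor of the blown up ideal becomes principal at the centre. -/
theorem exists_factor {M N : Ideal A} {g : A} (hg : g ∈ M * N) (hg0 : g ≠ 0)
    (hmax : ∀ a ∈ M * N, W.valuation (algebraMap A (FractionRing A) a) ≤
      W.valuation (algebraMap A (FractionRing A) g)) :
    ∃ m ∈ M, m ≠ 0 ∧ ∀ m' ∈ M, algebraMap A (FractionRing A) m' /
      algebraMap A (FractionRing A) m ∈ centerRing W (chart (M * N) g) := by
  have hinj := IsFractionRing.injective A (FractionRing A)
  have hv0 : W.valuation (algebraMap A (FractionRing A) g) ≠ 0 := by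
    rw [Valuation.ne_zero_iff]
    exact (map_ne_zero_iff _ hinj).2 hg0
  obtain ⟨m, hm, n, hn, hmn⟩ : ∃ m ∈ M, ∃ n ∈ N, W.valuation (algebraMap A (FractionRing A)
      (m * n)) = W.valuation (algebraMap A (FractionRing A) g) := by
    by_contra hcon
    push Not at hcon
    have key : ∀ r ∈ M * N, W.valuation (algebraMap A (FractionRing A) r) <
        W.valuation (algebraMap A (FractionRing A) g) := by
      intro r hr
      refine Submodule.mul_induction_on hr (fun m hm n hn => ?_) fun x y hx hy => ?_
      · exact lt_of_le_of_ne (hmax _ (Ideal.mul_mem_mul hm hn)) (hcon m hm n hn)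
      · rw [map_add]
        exact W.valuation.map_add_lt hx hy
    exact lt_irrefl _ (key g hg)
  have hmn0 : m * n ≠ 0 := by
    intro h
    rw [h, map_zero, map_zero] at hmn
    exact hv0 hmn.symm
  have hm0 : m ≠ 0 := left_ne_zero_of_mul hmn0
  have hn0 : n ≠ 0 := right_ne_zero_of_mul hmn0
  refine ⟨m, hm, hm0, fun m' hm' => ?_⟩
  have h1 := le_centerRing (W := W) (div_mem_chart (g := g) (Ideal.mul_mem_mul hm hn))
  have h2 : W.valuation (algebraMap A (FractionRing A) (m * n) /
      algebraMap A (FractionRing A) g) = 1 := by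
    rw [map_div₀, hmn, div_self hv0]
  have h3 := centerRing_inv h1 h2
  have h4 := le_centerRing (W := W) (div_mem_chart (g := g) (Ideal.mul_mem_mul hm' hn))
  have h5 := (centerRing W (chart (M * N) g)).mul_mem h4 h3
  have hm1 : algebraMap A (FractionRing A) m ≠ 0 := (map_ne_zero_iff _ hinj).2 hm0
  have hn1 : algebraMap A (FractionRing A) n ≠ 0 := (map_ne_zero_iff _ hinj).2 hn0
  have hg1 : algebraMap A (FractionRing A) g ≠ 0 := (map_ne_zero_iff _ hinj).2 hg0
  have e : algebraMap A (FractionRing A) m' / algebraMap A (FractionRing A) m =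
      algebraMap A (FractionRing A) (m' * n) / algebraMap A (FractionRing A) g *
        (algebraMap A (FractionRing A) (m * n) / algebraMap A (FractionRing A) g)⁻¹ := by
    rw [map_mul, map_mul]
    field_simp
  rw [e]
  exact h5

/-- The quotients of the generators of a factor `(a, b)`. -/
theorem div_mem_of_factor {a b : A} {N : Ideal A} {g : A} (hg : g ∈ Ideal.span {a, b} * N)
    (hg0 : g ≠ 0) (hmax : ∀ a' ∈ Ideal.span {a, b} * N, W.valuation (algebraMap A
      (FractionRing A) a') ≤ W.valuation (algebraMap A (FractionRing A) g))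
    (hA : ∀ a : A, algebraMap A (FractionRing A) a ∈ W)
    (hab : W.valuation (algebraMap A (FractionRing A) a) ≤
      W.valuation (algebraMap A (FractionRing A) b)) :
    algebraMap A (FractionRing A) a / algebraMap A (FractionRing A) b ∈
      centerRing W (chart (Ideal.span {a, b} * N) g) := by
  have hinj := IsFractionRing.injective A (FractionRing A)
  obtain ⟨m, hm, hm0, h⟩ := exists_factor hg hg0 hmax
  have hm1 : algebraMap A (FractionRing A) m ≠ 0 := (map_ne_zero_iff _ hinj).2 hm0
  have hvm0 : W.valuation (algebraMap A (FractionRing A) m) ≠ 0 := (Valuation.ne_zero_iff _).2 hm1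
  have ha := h a (Ideal.subset_span (by simp))
  have hb := h b (Ideal.subset_span (by simp))
  have hS := chart_val hmax hg0 hA
  have h1 : W.valuation (algebraMap A (FractionRing A) m) ≤
      W.valuation (algebraMap A (FractionRing A) b) := by
    obtain ⟨c, d, hcd⟩ := Ideal.mem_span_pair.1 hm
    rw [← hcd, map_add]
    refine W.valuation.map_add_le ?_ ?_
    · rw [map_mul, map_mul]
      exact (mul_le_of_le_one_left' ((W.valuation_le_one_iff _).2 (hA c))).trans hab
    · rw [map_mul, map_mul]
      exact mul_le_of_le_one_left' ((W.valuation_le_one_iff _).2 (hA d))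
  have h2 := centerRing_val hS hb
  rw [map_div₀, div_le_one₀ (zero_lt_iff.2 hvm0)] at h2
  have h3 : W.valuation (algebraMap A (FractionRing A) b / algebraMap A (FractionRing A) m) = 1 := by
    rw [map_div₀, le_antisymm h2 h1, div_self hvm0]
  have hb1 : algebraMap A (FractionRing A) b ≠ 0 := by
    intro h0
    rw [h0, zero_div, map_zero] at h3
    exact zero_ne_one h3
  have h4 := (centerRing W (chart (Ideal.span {a, b} * N) g)).mul_mem ha (centerRing_inv hb h3)
  have e : algebraMap A (FractionRing A) a / algebraMap A (FractionRing A) b =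
      algebraMap A (FractionRing A) a / algebraMap A (FractionRing A) m *
        (algebraMap A (FractionRing A) b / algebraMap A (FractionRing A) m)⁻¹ := by
    field_simp
  rw [e]
  exact h4

end

end Pool.Agent.TWD
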