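import Pool.Agent.Lib.TWD.UCb

/-!
# TANK W, uniformizable components: monomials at the centre of a log desingularization
-/

set_option autoImplicit false

open IsLocalRing

namespace Pool.Agent.TWD

open Pool.Agent.LU2 Pool.Agent.LU2G

section

variable {A : Type} [CommRing A] [IsDomain A] {W : ValuationSubring (FractionRing A)}

theorem div_mem_of_eq {a b : A} {I N : Ideal A} (hI : I = Ideal.span {a, b} * N) {g : A}
    (hg : g ∈ I) (hg0 : g ≠ 0) (hmax : ∀ a' ∈ I, W.valuation (algebraMap A
      (FractionRing A) a') ≤ W.valuation (algebraMap A (FractionRing A) g))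
    (hA : ∀ a : A, algebraMap A (FractionRing A) a ∈ W)
    (hab : W.valuation (algebraMap A (FractionRing A) a) ≤
      W.valuation (algebraMap A (FractionRing A) b)) :
    algebraMap A (FractionRing A) a / algebraMap A (FractionRing A) b ∈
      centerRing W (chart I g) := by
  subst hI
  exact div_mem_of_factor hg hg0 hmax hA hab

/-- `t` is a Laurent monomial in the `x i` times a unit of `R`, of the right sign. -/
def MonoF (W : ValuationSubring (FractionRing A)) (R : Subalgebra A (FractionRing A)) {n : ℕ}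
    (x : Fin n → R) (t : FractionRing A) : Prop :=
  ∃ e : Fin n → ℤ, ∃ w ∈ R, W.valuation w = 1 ∧ t = (∏ i, (x i : FractionRing A) ^ e i) * w ∧
    (W.valuation t ≤ 1 → ∀ i, 0 ≤ e i) ∧ (1 ≤ W.valuation t → ∀ i, e i ≤ 0)

section Gen

variable {R : Subalgebra A (FractionRing A)} [IsRegularLocalRing R] {n : ℕ} {x : Fin n → R}

omit [IsRegularLocalRing R] in
theorem coe_mono {a : A} {e : Fin n → ℕ} {u : R}
    (h : algebraMap A R a = (∏ i, x i ^ e i) * u) : algebraMap A (FractionRing A) a =
      (∏ i, (x i : FractionRing A) ^ (e i : ℤ)) * (u : FractionRing A) := by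
  have h1 := congrArg Subtype.val h
  have h2 : ((∏ i, x i ^ e i : R) : FractionRing A) = ∏ i, (x i : FractionRing A) ^ e i := by
    push_cast
    rfl
  simp only [zpow_natCast]
  rw [← h2]
  exact h1

theorem monoF_gen (hu : ∀ f : R, IsUnit f ↔ W.valuation (f : FractionRing A) = 1)
    (hval : ∀ f : R, W.valuation (f : FractionRing A) ≤ 1)
    (hx : maximalIdeal R = Ideal.span (Set.range x)) {a : A} {e : Fin n → ℕ} {u : R}
    (hu1 : IsUnit u) (he : algebraMap A R a = (∏ i, x i ^ e i) * u) :
    MonoF W R x (algebraMap A (FractionRing A) a) := by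
  refine ⟨fun i => (e i : ℤ), u, u.2, (hu u).1 hu1, coe_mono he, fun _ i => Int.natCast_nonneg _,
    fun h1 i => ?_⟩
  by_contra hlt
  push Not at hlt
  have hi : 0 < e i := by exact_mod_cast hlt
  have h2 : algebraMap A R a ∈ maximalIdeal R := by
    rw [he]
    refine Ideal.mul_mem_right _ _ ?_
    refine Ideal.mem_of_dvd _ (Finset.dvd_prod_of_mem (fun j => x j ^ e j) (Finset.mem_univ i)) ?_
    refine Ideal.pow_mem_of_mem _ ?_ _ hi
    exact hx ▸ Ideal.subset_span ⟨i, rfl⟩
  have h3 : W.valuation ((algebraMap A R a : R) : FractionRing A) = 1 :=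
    le_antisymm (hval _) h1
  exact (mem_maximalIdeal _).1 h2 ((hu _).2 h3)

theorem monoF_div (hinv : ∀ f ∈ R, W.valuation f = 1 → f⁻¹ ∈ R)
    (hu : ∀ f : R, IsUnit f ↔ W.valuation (f : FractionRing A) = 1)
    (hdim : ringKrullDim R = (n : WithBot ℕ∞))
    (hx : maximalIdeal R = Ideal.span (Set.range x)) {a b : A} (ha : a ≠ 0) (hb : b ≠ 0)
    {e f : Fin n → ℕ} {u w : R} (hu1 : IsUnit u) (hw1 : IsUnit w)
    (he : algebraMap A R a = (∏ i, x i ^ e i) * u) (hf : algebraMap A R b = (∏ i, x i ^ f i) * w)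
    (hab : W.valuation (algebraMap A (FractionRing A) a) ≤
      W.valuation (algebraMap A (FractionRing A) b) →
      algebraMap A (FractionRing A) a / algebraMap A (FractionRing A) b ∈ R)
    (hba : W.valuation (algebraMap A (FractionRing A) b) ≤
      W.valuation (algebraMap A (FractionRing A) a) →
      algebraMap A (FractionRing A) b / algebraMap A (FractionRing A) a ∈ R) :
    MonoF W R x (algebraMap A (FractionRing A) a / algebraMap A (FractionRing A) b) := by
  have hinj := IsFractionRing.injective A (FractionRing A)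
  have he' := coe_mono he
  have hf' := coe_mono hf
  have hvu := (hu u).1 hu1
  have hvw := (hu w).1 hw1
  have ha1 : algebraMap A (FractionRing A) a ≠ 0 := (map_ne_zero_iff _ hinj).2 ha
  have hb1 : algebraMap A (FractionRing A) b ≠ 0 := (map_ne_zero_iff _ hinj).2 hb
  have hxF : ∀ i, (x i : FractionRing A) ≠ 0 := fun i h =>
    (par_prime hdim hx.symm i).ne_zero (Subtype.ext h)
  have hv2 : 0 < W.valuation (algebraMap A (FractionRing A) b) :=
    zero_lt_iff.2 ((Valuation.ne_zero_iff _).2 hb1)
  refine ⟨fun i => (e i : ℤ) - f i, (u : FractionRing A) * (w : FractionRing A)⁻¹,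
    R.mul_mem u.2 (hinv _ w.2 hvw), ?_, ?_, fun h1 i => ?_, fun h1 i => ?_⟩
  · rw [map_mul, map_inv₀, hvu, hvw, inv_one, mul_one]
  · rw [he', hf', mul_div_mul_comm, ← Finset.prod_div_distrib, div_eq_mul_inv (u : FractionRing A)]
    congr 1
    refine Finset.prod_congr rfl fun i _ => ?_
    rw [zpow_sub₀ (hxF i)]
  · rw [map_div₀, div_le_one₀ hv2] at h1
    have h2 := hab h1
    have h3 : ∏ i, x i ^ f i ∣ (∏ i, x i ^ e i) * u := by
      have h4 : algebraMap A R b ∣ algebraMap A R a := by
        refine ⟨⟨_, h2⟩, ?_⟩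
        apply Subtype.ext
        change algebraMap A (FractionRing A) a = algebraMap A (FractionRing A) b *
          (algebraMap A (FractionRing A) a / algebraMap A (FractionRing A) b)
        rw [mul_div_cancel₀ _ hb1]
      rw [he, hf] at h4
      exact (Dvd.intro _ rfl).trans h4
    have := exp_le_of_dvd hdim hx.symm hu1 h3 i
    dsimp only
    omega
  · rw [map_div₀, one_le_div₀ hv2] at h1
    have h2 := hba h1
    have h3 : ∏ i, x i ^ e i ∣ (∏ i, x i ^ f i) * w := by
      have h4 : algebraMap A R a ∣ algebraMap A R b := by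
        refine ⟨⟨_, h2⟩, ?_⟩
        apply Subtype.ext
        change algebraMap A (FractionRing A) b = algebraMap A (FractionRing A) a *
          (algebraMap A (FractionRing A) b / algebraMap A (FractionRing A) a)
        rw [mul_div_cancel₀ _ ha1]
      rw [he, hf] at h4
      exact (Dvd.intro _ rfl).trans h4
    have := exp_le_of_dvd hdim hx.symm hw1 h3 i
    dsimp only
    omega

/-- An element whose zeros are zeros of `I` is a monomial. -/
theorem mono_of_log (hdim : ringKrullDim R = (n : WithBot ℕ∞))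
    (hx : maximalIdeal R = Ideal.span (Set.range x)) {s : Finset (Fin n)} {I : Ideal A}
    (hz : PrimeSpectrum.zeroLocus (I.map (algebraMap A R) : Set R) =
      PrimeSpectrum.zeroLocus {∏ i ∈ s, x i}) {a : A} (ha : a ≠ 0)
    (hP : ∀ P : Ideal R, P.IsPrime → algebraMap A R a ∈ P → ∀ y ∈ I, algebraMap A R y ∈ P) :
    ∃ (e : Fin n → ℕ) (u : R), IsUnit u ∧ algebraMap A R a = (∏ i, x i ^ e i) * u := by
  have ha0 : algebraMap A R a ≠ 0 := by
    intro h
    refine ha (IsFractionRing.injective A (FractionRing A) ?_)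
    rw [map_zero]
    exact congrArg Subtype.val h
  refine mono_of_zeros hdim hx.symm (s := s) ha0 fun P hPp haP => ?_
  have h1 : (⟨P, hPp⟩ : PrimeSpectrum R) ∈
      PrimeSpectrum.zeroLocus (I.map (algebraMap A R) : Set R) := by
    have h2 : I.map (algebraMap A R) ≤ P := Ideal.map_le_iff_le_comap.2 (hP P hPp haP)
    exact h2
  rw [hz] at h1
  exact h1 (Set.mem_singleton _)

end Gen

/-- The data at the centre of a log desingularization. -/
theorem exists_monoF (hW : LogUniformizable W)
    (hA : ∀ a : A, algebraMap A (FractionRing A) a ∈ W) (T : Finset (A × A))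
    (hT : ∀ c ∈ T, c.1 ≠ 0 ∧ c.2 ≠ 0) :
    ∃ (I : Ideal A) (g : A), g ∈ I ∧ g ≠ 0 ∧
      (∀ a ∈ I, W.valuation (algebraMap A (FractionRing A) a) ≤
        W.valuation (algebraMap A (FractionRing A) g)) ∧
      ∃ (_ : IsLocalRing (centerRing W (chart I g))) (n : ℕ)
        (x : Fin n → centerRing W (chart I g)),
        ringKrullDim (centerRing W (chart I g)) = n ∧
        maximalIdeal (centerRing W (chart I g)) = Ideal.span (Set.range x) ∧
        (∀ i, x i ≠ 0) ∧
        MonoF W (centerRing W (chart I g)) x (algebraMap A (FractionRing A) g) ∧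
        ∀ c ∈ T, MonoF W (centerRing W (chart I g)) x
          (algebraMap A (FractionRing A) c.1 / algebraMap A (FractionRing A) c.2) := by
  classical
  have hinj := IsFractionRing.injective A (FractionRing A)
  obtain ⟨D, hD⟩ : ∃ D : Ideal A, D = Ideal.span {∏ c ∈ T, c.1 * c.2} := ⟨_, rfl⟩
  obtain ⟨J, hJ⟩ : ∃ J : Ideal A, J = ∏ c ∈ T, Ideal.span {c.1, c.2} := ⟨_, rfl⟩
  have hD0 : D ≠ ⊥ := by
    rw [hD, Ne, Ideal.span_singleton_eq_bot]
    exact Finset.prod_ne_zero_iff.2 fun c hc => mul_ne_zero (hT c hc).1 (hT c hc).2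
  have hJ0 : J ≠ ⊥ := by
    have : ∀ c ∈ T, Ideal.span {c.1, c.2} ≠ (0 : Ideal A) := by
      intro c hc h
      have h1 : c.1 ∈ Ideal.span {c.1, c.2} := Ideal.subset_span (by simp)
      rw [h] at h1
      exact (hT c hc).1 h1
    rw [hJ]
    exact Finset.prod_ne_zero_iff.2 this
  obtain ⟨I', -, hLD⟩ := hW D hD0 J hJ0
  obtain ⟨I, hI, g, hg, hg0, hmax, hreg, n, x, s, hdim, hx, hz⟩ :
    ∃ I, I = J * I' ∧ IsLogDesing W D I := ⟨_, rfl, hLD⟩
  have hS := chart_val hmax hg0 hA
  have hunit : ∀ f : centerRing W (chart I g), IsUnit f ↔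
      W.valuation (f : FractionRing A) = 1 := fun f => centerRing_isUnit hS
  refine ⟨I, g, hg, hg0, hmax, inferInstance, n, x, hdim, hx,
    fun i => (par_prime hdim hx.symm i).ne_zero, ?_, ?_⟩
  · -- the generator
    obtain ⟨e, u, hu, he⟩ := mono_of_log hdim hx hz hg0 fun P hPp hgP y hy => by
      have hy' : y ∈ I := (Ideal.mul_le_right : D * I ≤ I) hy
      have h1 : algebraMap A (centerRing W (chart I g)) y =
          algebraMap A (centerRing W (chart I g)) g *
          ⟨algebraMap A (FractionRing A) y / algebraMap A (FractionRing A) g,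
            le_centerRing (div_mem_chart hy')⟩ := by
        apply Subtype.ext
        have hg1 : algebraMap A (FractionRing A) g ≠ 0 := (map_ne_zero_iff _ hinj).2 hg0
        change algebraMap A (FractionRing A) y = algebraMap A (FractionRing A) g *
          (algebraMap A (FractionRing A) y / algebraMap A (FractionRing A) g)
        rw [mul_div_cancel₀ _ hg1]
      rw [h1]
      exact P.mul_mem_right _ hgP
    exact monoF_gen hunit (fun f => centerRing_val hS f.2) hx hu he
  · -- the quotients
    intro c hc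
    have hkey : ∀ a : A, a ≠ 0 → a ∣ ∏ c ∈ T, c.1 * c.2 →
        ∃ (e : Fin n → ℕ) (u : centerRing W (chart I g)), IsUnit u ∧
          algebraMap A (centerRing W (chart I g)) a = (∏ i, x i ^ e i) * u := by
      intro a ha had
      refine mono_of_log hdim hx hz ha fun P hPp haP y hy => ?_
      have hy' : y ∈ D := (Ideal.mul_le_left : D * I ≤ D) hy
      rw [hD] at hy'
      obtain ⟨r, rfl⟩ := Ideal.mem_span_singleton.1 hy'
      obtain ⟨q, hq⟩ := had
      rw [hq, map_mul, map_mul, mul_assoc]
      exact P.mul_mem_right _ haP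
    have hdvd := Finset.dvd_prod_of_mem (fun c : A × A => c.1 * c.2) hc
    obtain ⟨e, u, hu, he⟩ := hkey c.1 (hT c hc).1 ((Dvd.intro _ rfl).trans hdvd)
    obtain ⟨f, w, hw, hf⟩ := hkey c.2 (hT c hc).2 ((Dvd.intro_left _ rfl).trans hdvd)
    obtain ⟨N, hN⟩ : ∃ N : Ideal A, I = Ideal.span {c.1, c.2} * N :=
      ⟨(∏ c ∈ T.erase c, Ideal.span {c.1, c.2}) * I', by
        rw [hI, hJ, ← Finset.mul_prod_erase _ _ hc, mul_assoc]⟩
    have hN' : I = Ideal.span {c.2, c.1} * N := by rw [hN, Set.pair_comm]
    exact monoF_div (fun f hf h1 => centerRing_inv hf h1) hunit hdim hx (hT c hc).1 (hT c hc).2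
      hu hw he hf (div_mem_of_eq hN hg hg0 hmax hA) (div_mem_of_eq hN' hg hg0 hmax hA)

end

end Pool.Agent.TWD
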