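import Pool.Agent.Lib.TWD.UCc

/-!
# TANK W, uniformizable components: `LogUniformizable` on all affine models implies `LU`
-/

set_option autoImplicit false

open IsLocalRing

namespace Pool.Agent.TWD

open Pool.Agent.LU2 Pool.Agent.LU2G

/-- The valuation ring `V` of the extension `K` of `k` is log uniformizable on all affine models:
for every finitely generated `k`-algebra `A` without zero divisors, contained in `V` by an embedding
of `Frac A` in `K` over `k`, the valuation ring of `Frac A` induced by `V` is log uniformizable on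
`Spec A`. -/
def ModelsUnif (k : Type) {K : Type} [Field k] [Field K] [Algebra k K] (V : ValuationSubring K) :
    Prop :=
  ∀ (A : Type) [CommRing A] [IsDomain A] [Algebra k A] [Algebra.FiniteType k A]
    (j : FractionRing A →+* K), (∀ c : k, j (algebraMap k (FractionRing A) c) = algebraMap k K c) →
    (∀ a : A, j (algebraMap A (FractionRing A) a) ∈ V) → LogUniformizable (V.comap j)

section

variable {k K : Type} [Field k] [Field K] [Algebra k K] {V : ValuationSubring K}

theorem ModelsUnif.comap (h : ModelsUnif k V) (L : IntermediateField k K) :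
    ModelsUnif k (V.comap (algebraMap L K)) := by
  intro A _ _ _ _ j hj hA
  exact h A ((algebraMap L K).comp j) (fun c => by
    rw [RingHom.comp_apply, hj, ← IsScalarTower.algebraMap_apply]) fun a => hA a

theorem comap_val_le {F : Type} [Field F] (j : F →+* K) (f g : F) :
    (V.comap j).valuation f ≤ (V.comap j).valuation g ↔ V.valuation (j f) ≤ V.valuation (j g) := by
  by_cases hg : g = 0
  · rw [hg, map_zero, map_zero, map_zero]
    simp only [le_zero_iff, map_eq_zero]
  · have hg' : j g ≠ 0 := (_root_.map_ne_zero j).2 hg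
    have h1 : 0 < (V.comap j).valuation g := zero_lt_iff.2 ((Valuation.ne_zero_iff _).2 hg)
    have h2 : 0 < V.valuation (j g) := zero_lt_iff.2 ((Valuation.ne_zero_iff _).2 hg')
    rw [← div_le_one₀ h1, ← div_le_one₀ h2, ← map_div₀, ← map_div₀,
      ValuationSubring.valuation_le_one_iff, ValuationSubring.valuation_le_one_iff,
      ValuationSubring.mem_comap, map_div₀]

theorem comap_val_le_one {F : Type} [Field F] (j : F →+* K) (f : F) :
    (V.comap j).valuation f ≤ 1 ↔ V.valuation (j f) ≤ 1 := by
  have := comap_val_le (V := V) j f 1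
  simpa only [map_one] using this

theorem comap_one_le_val {F : Type} [Field F] (j : F →+* K) (f : F) :
    1 ≤ (V.comap j).valuation f ↔ 1 ≤ V.valuation (j f) := by
  have := comap_val_le (V := V) j 1 f
  simpa only [map_one] using this

theorem comap_val_eq_one {F : Type} [Field F] (j : F →+* K) (f : F) :
    (V.comap j).valuation f = 1 ↔ V.valuation (j f) = 1 := by
  rw [le_antisymm_iff, le_antisymm_iff, comap_val_le_one, comap_one_le_val]

theorem comap_val_lt_one {F : Type} [Field F] (j : F →+* K) (f : F) :
    (V.comap j).valuation f < 1 ↔ V.valuation (j f) < 1 := by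
  rw [← not_le, ← not_le, comap_one_le_val]

theorem isFractionRing_of_isFrac {A : Subalgebra k K} (h : IsFrac A) : IsFractionRing A K := by
  refine IsFractionRing.of_field A K fun f => ?_
  obtain ⟨a, ha, b, hb, -, rfl⟩ := h f
  exact ⟨⟨a, ha⟩, ⟨b, hb⟩, rfl⟩

section Chart

variable [DecidableEq K] {A : Subalgebra k K} (e : FractionRing A ≃ₐ[A] K)

/-- The chart as subalgebra of `K`. -/
theorem chart_image {I : Ideal A} {g : A} {G : Finset A}
    (hG : Ideal.span (G : Set A) = I) {A' : Subalgebra k K}
    (hA' : A' = Algebra.adjoin k ((A : Set K) ∪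
      (fun x => x / (g : K)) '' ((G.image (fun a : A => (a : K)) : Finset K) : Set K))) :
    (∀ f ∈ chart I g, e f ∈ A') ∧ ∀ y ∈ A', ∃ f ∈ chart I g, e f = y := by
  have heA : ∀ a : A, e (algebraMap A (FractionRing A) a) = a := fun a => e.commutes a
  have hAA' : ∀ a : A, (a : K) ∈ A' := fun a => by
    rw [hA']
    exact Algebra.subset_adjoin (Or.inl a.2)
  constructor
  · intro f hf
    unfold chart at hf
    induction hf using Algebra.adjoin_induction with
    | mem f hf =>
      obtain ⟨a, ha, rfl⟩ := hf
      rw [map_div₀, heA, heA]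
      rw [← hG] at ha
      induction ha using Submodule.span_induction with
      | mem x hx =>
        rw [hA']
        exact Algebra.subset_adjoin (Or.inr ⟨x, by simpa using hx, rfl⟩)
      | zero =>
        rw [ZeroMemClass.coe_zero, zero_div]
        exact A'.zero_mem
      | add x y _ _ hx hy =>
        rw [AddMemClass.coe_add, add_div]
        exact A'.add_mem hx hy
      | smul c x _ hx =>
        rw [smul_eq_mul, MulMemClass.coe_mul, mul_div_assoc]
        exact A'.mul_mem (hAA' c) hx
    | algebraMap a =>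
      rw [heA]
      exact hAA' a
    | add f g _ _ hf hg =>
      rw [map_add]
      exact A'.add_mem hf hg
    | mul f g _ _ hf hg =>
      rw [map_mul]
      exact A'.mul_mem hf hg
  · intro y hy
    rw [hA'] at hy
    induction hy using Algebra.adjoin_induction with
    | mem y hy =>
      rcases hy with hy | ⟨x, hx, rfl⟩
      · exact ⟨algebraMap A (FractionRing A) ⟨y, hy⟩, (chart I g).algebraMap_mem _, heA _⟩
      · rw [Finset.coe_image] at hx
        obtain ⟨a, ha, rfl⟩ := hx
        refine ⟨_, div_mem_chart (g := g) (hG ▸ Ideal.subset_span ha : a ∈ I), ?_⟩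
        rw [map_div₀, heA, heA]
    | algebraMap c =>
      refine ⟨algebraMap A (FractionRing A) (algebraMap k A c), (chart I g).algebraMap_mem _, ?_⟩
      rw [heA]
      rfl
    | add x y _ _ hx hy =>
      obtain ⟨f, hf, rfl⟩ := hx
      obtain ⟨f', hf', rfl⟩ := hy
      exact ⟨f + f', (chart I g).add_mem hf hf', map_add _ _ _⟩
    | mul x y _ _ hx hy =>
      obtain ⟨f, hf, rfl⟩ := hx
      obtain ⟨f', hf', rfl⟩ := hy
      exact ⟨f * f', (chart I g).mul_mem hf hf', map_mul _ _ _⟩

/-- The centre ring as subalgebra of `K`. -/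
theorem mem_centerRing_iff {I : Ideal A} {g : A} {G : Finset A}
    (hG : Ideal.span (G : Set A) = I) {A' : Subalgebra k K}
    (hA' : A' = Algebra.adjoin k ((A : Set K) ∪
      (fun x => x / (g : K)) '' ((G.image (fun a : A => (a : K)) : Finset K) : Set K)))
    (f : FractionRing A) :
    f ∈ centerRing (V.comap (e : FractionRing A →+* K)) (chart I g) ↔ e f ∈ locV V A' := by
  obtain ⟨h1, h2⟩ := chart_image e hG hA'
  constructor
  · rintro ⟨a, ha, b, hb, hvb, rfl⟩
    exact ⟨e a, h1 a ha, e b, h1 b hb, (comap_val_eq_one _ _).1 hvb, map_div₀ _ _ _⟩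
  · rintro ⟨a, ha, b, hb, hvb, hab⟩
    obtain ⟨a', ha', rfl⟩ := h2 a ha
    obtain ⟨b', hb', rfl⟩ := h2 b hb
    refine ⟨a', ha', b', hb', (comap_val_eq_one _ _).2 hvb, ?_⟩
    apply e.injective
    rw [hab, map_div₀]

end Chart

/-- **`LogUniformizable` on all affine models implies `LU`.** -/
theorem lu_of_models (h : ModelsUnif k V) : LU k V := by
  classical
  intro A hfg hA hfrac T hT
  have i1 : Algebra.FiniteType k A := (Subalgebra.fg_iff_finiteType A).1 hfg
  have i2 : IsNoetherianRing A := Algebra.FiniteType.isNoetherianRing k A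
  have i3 : IsFractionRing A K := isFractionRing_of_isFrac hfrac
  let e : FractionRing A ≃ₐ[A] K := FractionRing.algEquiv A K
  have heA : ∀ a : A, e (algebraMap A (FractionRing A) a) = a := fun a => e.commutes a
  obtain ⟨W, hWdef⟩ : ∃ W : ValuationSubring (FractionRing A),
    W = V.comap (e : FractionRing A →+* K) := ⟨_, rfl⟩
  have hle : ∀ f g, W.valuation f ≤ W.valuation g ↔ V.valuation (e f) ≤ V.valuation (e g) := by
    rw [hWdef]
    exact comap_val_le _
  have hle1 : ∀ f, W.valuation f ≤ 1 ↔ V.valuation (e f) ≤ 1 := by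
    rw [hWdef]
    exact comap_val_le_one _
  have h1le : ∀ f, 1 ≤ W.valuation f ↔ 1 ≤ V.valuation (e f) := by
    rw [hWdef]
    exact comap_one_le_val _
  have heq1 : ∀ f, W.valuation f = 1 ↔ V.valuation (e f) = 1 := by
    rw [hWdef]
    exact comap_val_eq_one _
  have hlt1 : ∀ f, W.valuation f < 1 ↔ V.valuation (e f) < 1 := by
    rw [hWdef]
    exact comap_val_lt_one _
  have hW : LogUniformizable W := by
    rw [hWdef]
    refine h A (e : FractionRing A →+* K) (fun c => ?_) fun a => ?_
    · rw [IsScalarTower.algebraMap_apply k A (FractionRing A)]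
      exact heA _
    · have := hA a a.2
      rw [← heA a] at this
      exact this
  have hAW : ∀ a : A, algebraMap A (FractionRing A) a ∈ W := by
    intro a
    rw [hWdef, ValuationSubring.mem_comap]
    have := hA a a.2
    rw [← heA a] at this
    exact this
  have hfr : ∀ t ∈ T, ∃ c : A × A, (c.1 ≠ 0 ∧ c.2 ≠ 0) ∧ t = (c.1 : K) / c.2 := by
    intro t ht
    obtain ⟨a, ha, b, hb, hb0, rfl⟩ := hfrac t
    refine ⟨(⟨a, ha⟩, ⟨b, hb⟩), ⟨fun h0 => ?_, fun h0 => hb0 (congrArg Subtype.val h0)⟩, rfl⟩
    have h1 : a = 0 := congrArg Subtype.val h0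
    exact hT _ ht (by rw [h1, zero_div])
  choose! c hc hct using hfr
  obtain ⟨I, g, hg, hg0, hmax, hloc, n, x, hdim, hx, hx0, hgm, hTm⟩ :=
    exists_monoF hW hAW (T.image c) (fun d hd => by
      obtain ⟨t, ht, rfl⟩ := Finset.mem_image.1 hd
      exact hc t ht)
  obtain ⟨G, hG⟩ : ∃ G : Finset A, Ideal.span (G : Set A) = I := (IsNoetherian.noetherian I)
  have hgK : (g : K) ≠ 0 := fun h0 => hg0 (Subtype.ext h0)
  obtain ⟨A', hA'⟩ : ∃ A' : Subalgebra k K, A' = Algebra.adjoin k ((A : Set K) ∪
      (fun x => x / (g : K)) '' ((G.image (fun a : A => (a : K)) : Finset K) : Set K)) := ⟨_, rfl⟩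
  have hiff : ∀ f : FractionRing A, f ∈ centerRing W (chart I g) ↔ e f ∈ locV V A' := by
    intro f
    rw [hWdef]
    exact mem_centerRing_iff e hG hA' f
  obtain ⟨R, hR⟩ : ∃ R, R = centerRing W (chart I g) := ⟨_, rfl⟩
  rw [← hR] at hiff
  have hS := chart_val hmax hg0 hAW
  have hunit : ∀ f : centerRing W (chart I g), IsUnit f ↔
      W.valuation (f : FractionRing A) = 1 := fun f => centerRing_isUnit hS
  -- the isomorphism
  let φ : centerRing W (chart I g) ≃+* locV V A' :=
    { toFun := fun f => ⟨e f, (hiff f).1 (hR ▸ f.2)⟩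
      invFun := fun f => ⟨e.symm f, by
        rw [← hR, hiff, e.apply_symm_apply]
        exact f.2⟩
      left_inv := fun f => Subtype.ext (e.symm_apply_apply _)
      right_inv := fun f => Subtype.ext (e.apply_symm_apply _)
      map_mul' := fun f f' => Subtype.ext (map_mul e _ _)
      map_add' := fun f f' => Subtype.ext (map_add e _ _) }
  have hφ : ∀ f, ((φ f : locV V A') : K) = e f := fun f => rfl
  have hmonoK : ∀ t : FractionRing A, MonoF W (centerRing W (chart I g)) x t →
      Mono V (locV V A') (fun i => e (x i)) (e t) := by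
    rintro t ⟨ε, w, hw, hw1, htw, hpos, hneg⟩
    refine ⟨ε, e w, (hiff w).1 (hR ▸ hw), (heq1 _).1 hw1, ?_, fun h1 =>
      hpos ((hle1 _).2 h1), fun h1 => hneg ((h1le _).2 h1)⟩
    conv_lhs => rw [htw]
    rw [map_mul, map_prod]
    congr 1
    exact Finset.prod_congr rfl fun i _ => map_zpow₀ e _ _
  refine ⟨A', g, ⟨g.2, hgK, G.image (fun a : A => (a : K)), fun y hy => ?_, hA'⟩, n,
    fun i => e (x i), ?_, ?_, fun t ht => ?_⟩
  · obtain ⟨a, ha, rfl⟩ := Finset.mem_image.1 hy
    refine ⟨a.2, ?_⟩
    have h1 := hmax a (hG ▸ Ideal.subset_span ha)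
    rw [hle, heA, heA] at h1
    exact h1
  · refine ⟨fun i => (hiff _).1 (hR ▸ (x i).2), fun i h0 => ?_, fun i => ?_, fun f hf hvf => ?_, ?_⟩
    · have h1 : (x i : FractionRing A) = 0 := e.injective (by rw [map_zero]; exact h0)
      exact hx0 i (Subtype.ext h1)
    · have h1 : x i ∈ maximalIdeal (centerRing W (chart I g)) := hx ▸ Ideal.subset_span ⟨i, rfl⟩
      have h2 : ¬ W.valuation (x i : FractionRing A) = 1 := fun h3 =>
        (mem_maximalIdeal _).1 h1 ((hunit _).2 h3)
      have h4 := lt_of_le_of_ne (centerRing_val hS (x i).2) h2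
      exact (hlt1 _).1 h4
    · have h1 : e.symm f ∈ centerRing W (chart I g) := by
        rw [← hR, hiff, e.apply_symm_apply]
        exact hf
      have h2 : (⟨e.symm f, h1⟩ : centerRing W (chart I g)) ∈
          maximalIdeal (centerRing W (chart I g)) := by
        rw [mem_maximalIdeal, mem_nonunits_iff, hunit]
        intro h3
        rw [heq1] at h3
        have h4 : e ((⟨e.symm f, h1⟩ : centerRing W (chart I g)) : FractionRing A) = f :=
          e.apply_symm_apply f
        rw [h4] at h3
        exact absurd h3 hvf.ne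
      rw [hx, Ideal.mem_span_range_iff_exists_fun] at h2
      obtain ⟨a, ha⟩ := h2
      refine ⟨fun i => e (a i), fun i => (hiff _).1 (hR ▸ (a i).2), ?_⟩
      have h5 := congrArg (fun z : centerRing W (chart I g) => e (z : FractionRing A)) ha
      simp only at h5
      rw [e.apply_symm_apply] at h5
      rw [← h5]
      push_cast
      rw [map_sum]
      exact Finset.sum_congr rfl fun i _ => map_mul e _ _
    · rw [← hdim]
      exact (ringKrullDim_eq_of_ringEquiv φ).symm
  · have := hmonoK _ hgm
    rwa [heA] at this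
  · have := hmonoK _ (hTm (c t) (Finset.mem_image_of_mem c ht))
    rw [map_div₀, heA, heA, ← hct t ht] at this
    exact this

end

end Pool.Agent.TWD
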