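import Pool.Agent.Lib.TWD.UCd
import Pool.Agent.Lib.TW.TopS

/-!
# TANK W, uniformizable components: classes

* `RealClsU C`: log uniformization (`LU`) of the real valuations in the class `C`;
* `logUniformizable_denseU`: all rank one components in the class;
* `UCls`: the valuation rings that are log uniformizable on all affine models;
* `UnifComponent`: the corresponding condition on a component.
-/

set_option autoImplicit false

namespace Pool.Agent.TWD

open Pool.Agent.LU2 Pool.Agent.LU2G Pool.Agent.LU2H
open Pool.Agent.TW (Cls RealCls CompC AllCompC Cls.union)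

universe u

/-- Log uniformization of the real valuations in the class. -/
def RealClsU {k : Type u} [Field k] (C : Cls k) : Prop :=
  ∀ (K : Type u) [Field K] [Algebra k K], (⊤ : IntermediateField k K).FG →
    ∀ V : ValuationSubring K, (∀ c : k, algebraMap k K c ∈ V) → IsR1 V → C K V → LU k V

theorem RealClsU.of_real {k : Type u} [Field k] {C : Cls k} (h : RealCls C) : RealClsU C :=
  fun K _ _ hK V hk hR hC => (h K hK V hk hR hC).lu

theorem RealClsU.union {k : Type u} [Field k] {C C' : Cls k} (h : RealClsU C)
    (h' : RealClsU C') : RealClsU (TW.Cls.union C C') := by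
  rintro K _ _ hK V hk hR (hC | hC)
  · exact h K hK V hk hR hC
  · exact h' K hK V hk hR hC

section

variable {k : Type u} [Field k] {C : Cls k} {K : Type u} [Field K] [Algebra k K]

theorem lu_chainU (hsub : C.Sub) (hreal : RealClsU C) (K : Type u) [Field K] [Algebra k K]
    (n : ℕ) :
    ∀ W : Fin (n + 1) → ValuationSubring K, W 0 = ⊤ →
      (∀ i : Fin n, Covers (W i.succ) (W i.castSucc)) →
      (∀ c : k, algebraMap k K c ∈ W (Fin.last n)) → AllCompC C (W (Fin.last n)) →
      LU k (W (Fin.last n)) := by
  induction n with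
  | zero =>
    intro W hW0 _ _ _
    have h1 : W (Fin.last 0) = ⊤ := hW0
    rw [h1]
    exact lu_top
  | succ n ih =>
    intro W hW0 hcov hk hdef
    have hcovV : Covers (W (Fin.last (n + 1))) (W (Fin.last n).castSucc) := hcov (Fin.last n)
    have hle := hcovV.1.le
    have hLU₁ : LU k (W (Fin.last n).castSucc) := ih (fun i => W i.castSucc) hW0
      (fun i => hcov i.castSucc) (fun c => hle (hk c)) (hdef.of_le hle)
    obtain ⟨K₁, _, _, φ, V₂, hres, hfin₁, hC⟩ := hdef _ _ le_rfl hcovV
    have hk₂ : ∀ c : k, algebraMap k K₁ c ∈ V₂ := hres.const₂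
    refine composite hres ?_ hLU₁ ?_
    · have := FinTrdeg.of_trdeg hfin₁
      obtain ⟨s, hs⟩ := exists_finset_isTranscendenceBasis k K₁
      refine ⟨s, ?_⟩
      have h := hs.isAlgebraic_field
      rwa [Subtype.range_coe_subtype, Finset.setOfPred_mem] at h
    · intro L hL halg
      have hLtop : (⊤ : IntermediateField k L).FG := by
        rw [← IntermediateField.essFiniteType_iff] at hL
        rw [IntermediateField.fg_top_iff]
        exact hL
      by_cases hne : V₂.comap (algebraMap L K₁) = ⊤
      · rw [hne]
        exact lu_top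
      refine hreal L hLtop _ ?_ (comap_isR1 hres hcovV L hne) (hsub K₁ V₂ hk₂ hfin₁ hC L)
      intro c
      rw [ValuationSubring.mem_comap]
      have h := hk₂ c
      rwa [IsScalarTower.algebraMap_apply k L K₁] at h

/-- Log uniformization of the valuation rings all of whose components are in the class. -/
theorem lu_compU (hsub : C.Sub) (hreal : RealClsU C)
    (hfin : Algebra.trdeg k K < Cardinal.aleph0) (V : ValuationSubring K)
    (hk : ∀ c : k, algebraMap k K c ∈ V) (hV : AllCompC C V) : LU k V := by
  by_cases htop : V = ⊤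
  · rw [htop]
    exact lu_top
  · obtain ⟨n, W, hW0, hWn, hcov⟩ := exists_chain hk htop hfin
    subst hWn
    exact lu_chainU hsub hreal K n W hW0 hcov hk hV

end

/-- With a dense subfield, for a class. -/
theorem logUniformizable_denseU (k : Type) [Field k] {C : Cls k} (hsub : C.Sub)
    (hreal : RealClsU C) (A : Type) [CommRing A] [IsDomain A] [Algebra k A]
    [Algebra.EssFiniteType k A] (V : ValuationSubring (FractionRing A))
    (hV : ∀ a : A, algebraMap A (FractionRing A) a ∈ V)
    (F : IntermediateField k (FractionRing A)) (hF : F.FG)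
    (hdense : ∀ a b : FractionRing A, b ≠ 0 → ∃ c ∈ F, V.valuation (a - c) < V.valuation b)
    (s : Finset (FractionRing A)) (hs : AlgebraicIndependent F (Subtype.val : s → FractionRing A))
    (hsep : Algebra.IsSeparable (IntermediateField.adjoin F (s : Set (FractionRing A)))
      (FractionRing A))
    (hdef : AllCompC C (V.comap (algebraMap F (FractionRing A)))) :
    LU2G.LogUniformizable V := by
  have h1 : Algebra.EssFiniteType A (FractionRing A) :=
    Algebra.EssFiniteType.of_isLocalization _ (nonZeroDivisors A)
  have h2 : Algebra.EssFiniteType k (FractionRing A) :=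
    Algebra.EssFiniteType.comp k A (FractionRing A)
  have hFtop : (⊤ : IntermediateField k F).FG := by
    rw [← IntermediateField.essFiniteType_iff] at hF
    rw [IntermediateField.fg_top_iff]
    exact hF
  have hKtop : (⊤ : IntermediateField k (FractionRing A)).FG :=
    IntermediateField.fg_top_iff.2 h2
  have h3 : Algebra.EssFiniteType k F := IntermediateField.fg_top_iff.1 hFtop
  have hfin : Algebra.trdeg k F < Cardinal.aleph0 := _root_.trdeg_lt_aleph0 k F
  have hkV : ∀ c : k, algebraMap k (FractionRing A) c ∈ V := by
    intro c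
    rw [IsScalarTower.algebraMap_apply k A (FractionRing A)]
    exact hV _
  have hLU : Pool.Agent.LU2.LU k (V.comap (algebraMap F (FractionRing A))) := by
    refine lu_compU hsub hreal hfin _ (fun c => ?_) hdef
    rw [ValuationSubring.mem_comap]
    exact hkV c
  refine Pool.Agent.LU2G.logUniformizable_of_LU_ess k A V hV (LUC.lu_iff.2 ?_)
  refine LUC.ascent (LUC.ascends_lu k) V (fun a b hb => ?_) (LUC.fgField_of_fg hFtop)
    (LUC.fgField_of_fg hKtop) s hs hsep (LUC.lu_iff.1 hLU)
  obtain ⟨c, hc, hc'⟩ := hdense a b hb
  exact ⟨⟨c, hc⟩, hc'⟩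

/-- The valuation rings that are log uniformizable on all affine models. -/
def UCls (k : Type) [Field k] : Cls k := fun _ _ _ V => ModelsUnif k V

theorem UCls.sub (k : Type) [Field k] : (UCls k).Sub :=
  fun _ _ _ _ _ _ h L => h.comap L

theorem realClsU_ucls (k : Type) [Field k] : RealClsU (UCls k) :=
  fun _ _ _ _ _ _ _ h => lu_of_models h

/-- The component between the valuation rings `V₁ ⊂ V₂` of `K` is log uniformizable: for every
finitely generated `k`-algebra `A` without zero divisors, every embedding `j` of its field of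
fractions over `k` in the residue field of `V₂`, and the valuation ring `W` of `Frac A` induced by
`V₁`, if `W` contains `A` then `W` is log uniformizable on `Spec A`. -/
def UnifComponent {k K : Type} [Field k] [Field K] (ι : k →+* K) (V₁ V₂ : ValuationSubring K)
    (h₂ : ∀ a, ι a ∈ V₂) : Prop :=
  ∀ (A : Type) [CommRing A] [IsDomain A] [Algebra k A] [Algebra.FiniteType k A]
    (j : FractionRing A →+* IsLocalRing.ResidueField V₂) (W : ValuationSubring (FractionRing A)),
    (∀ a : k, j (algebraMap k (FractionRing A) a) = IsLocalRing.residue V₂ ⟨ι a, h₂ a⟩) →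
    (∀ (f : FractionRing A) (b : V₂), j f = IsLocalRing.residue V₂ b → (f ∈ W ↔ (b : K) ∈ V₁)) →
    (∀ a : A, algebraMap A (FractionRing A) a ∈ W) → LogUniformizable W

theorem UnifComponent.cls {k K : Type} [Field k] [Field K] [Algebra k K]
    {V₁ V₂ : ValuationSubring K} (hle : V₁ ≤ V₂) (hk₁ : ∀ c : k, algebraMap k K c ∈ V₁)
    (hk₂ : ∀ c : k, algebraMap k K c ∈ V₂) (h : UnifComponent (algebraMap k K) V₁ V₂ hk₂) :
    @UCls k _ (IsLocalRing.ResidueField V₂) _ (((IsLocalRing.residue V₂).comp
      ((algebraMap k K).codRestrict V₂ hk₂)).toAlgebra) (imgV hle) := by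
  let alg : Algebra k (IsLocalRing.ResidueField V₂) :=
    ((IsLocalRing.residue V₂).comp ((algebraMap k K).codRestrict V₂ hk₂)).toAlgebra
  have hres : IsRes (k := k) V₁ V₂ (IsLocalRing.residue V₂) (imgV hle) :=
    isRes_residue hle hk₁ hk₂
  intro A _ _ _ _ j hj hA
  refine h A j _ hj (fun f b hfb => ?_) hA
  rw [ValuationSubring.mem_comap, hfb]
  exact hres.mem b

end Pool.Agent.TWD
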