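import Pool.Agent.Lib.ALL_h68.FrK

/-!
# TANK W, uniformizable components: lattices

`exists_split_basis`: a homomorphism `L` from `ℤ ^ n` to an ordered field with `L e_i > 0`: there
are a basis `e` of a complement of the kernel, with independent positive values, and a basis `ν` of
the kernel, such that the unit vectors have nonnegative exponents in `e`.
-/

set_option autoImplicit false

namespace Pool.Agent.TWD

open Module

/-- Bases adapted to a homomorphism with positive values. -/
theorem exists_split_basis {𝕂 : Type*} [Field 𝕂] [LinearOrder 𝕂] [IsStrictOrderedRing 𝕂] {n : ℕ}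
    (L : (Fin n → ℤ) →ₗ[ℤ] 𝕂) (hL : ∀ i, 0 < L (Pi.single i 1)) :
    ∃ (r m : ℕ) (_ : r + m = n) (e : Fin r → (Fin n → ℤ)) (ν : Fin m → (Fin n → ℤ)),
      (∀ j, 0 < L (e j)) ∧ LinearIndependent ℤ (fun j => L (e j)) ∧ (∀ l, L (ν l) = 0) ∧
      ∀ i, ∃ (a : Fin r → ℤ) (b : Fin m → ℤ), (∀ j, 0 ≤ a j) ∧ a ≠ 0 ∧
        (Pi.single i 1 : Fin n → ℤ) = ∑ j, a j • e j + ∑ l, b l • ν l := by
  classical
  have hfin : Module.Finite ℤ (LinearMap.range L) := inferInstance
  have hfree : Module.Free ℤ (LinearMap.range L) := Module.free_of_finite_type_torsion_free'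
  have hfin' : Module.Finite ℤ (LinearMap.ker L) := inferInstance
  have hfree' : Module.Free ℤ (LinearMap.ker L) := inferInstance
  obtain ⟨r, hr⟩ : ∃ r, r = finrank ℤ (LinearMap.range L) := ⟨_, rfl⟩
  obtain ⟨m, hm⟩ : ∃ m, m = finrank ℤ (LinearMap.ker L) := ⟨_, rfl⟩
  have hrm : r + m = n := by
    have h1 := Submodule.finrank_quotient_add_finrank (LinearMap.ker L)
    rw [LinearEquiv.finrank_eq L.quotKerEquivRange, ← hr, ← hm] at h1
    rw [h1]
    simp
  let φ : (Fin r → ℤ) ≃ₗ[ℤ] LinearMap.range L :=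
    ((Module.finBasis ℤ (LinearMap.range L)).reindex (finCongr hr.symm)).equivFun.symm
  let ψ : (Fin m → ℤ) ≃ₗ[ℤ] LinearMap.ker L :=
    ((Module.finBasis ℤ (LinearMap.ker L)).reindex (finCongr hm.symm)).equivFun.symm
  let S : Finset (LinearMap.range L) :=
    Finset.univ.image fun i : Fin n => (⟨L (Pi.single i 1), _, rfl⟩ : LinearMap.range L)
  obtain ⟨φ', hp, hn⟩ := LUA.perron φ S (fun g hg => by
    obtain ⟨i, -, rfl⟩ := Finset.mem_image.1 hg
    exact hL i)
  have hch : ∀ j : Fin r, ∃ l : Fin n → ℤ, L l = (φ' (Pi.single j 1) : 𝕂) := fun j =>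
    (φ' (Pi.single j 1)).2
  choose e he using hch
  have hexp : ∀ g : LinearMap.range L,
      (g : 𝕂) = ∑ j, (φ'.symm g) j • ((φ' (Pi.single j 1) : LinearMap.range L) : 𝕂) := by
    intro g
    have h1 : φ'.symm g = ∑ j, (φ'.symm g) j • (Pi.single j 1 : Fin r → ℤ) := by
      ext i
      simp [Finset.sum_apply, Pi.single_apply]
    have h2 : g = ∑ j, (φ'.symm g) j • φ' (Pi.single j 1) := by
      conv_lhs => rw [← φ'.apply_symm_apply g, h1]
      rw [map_sum]
      exact Finset.sum_congr rfl fun j _ => map_smul _ _ _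
    conv_lhs => rw [h2]
    rw [AddSubmonoidClass.coe_finsetSum]
    rfl
  refine ⟨r, m, hrm, e, fun l => (ψ (Pi.single l 1) : Fin n → ℤ), fun j => ?_, ?_, fun l => ?_,
    fun i => ?_⟩
  · rw [he]
    exact hp j
  · have h1 : (fun j => L (e j)) = fun j => ((φ' (Pi.single j 1) : LinearMap.range L) : 𝕂) :=
      funext he
    rw [h1]
    have h2 := ((Pi.basisFun ℤ (Fin r)).map φ').linearIndependent.map'
      (Submodule.subtype _) (Submodule.ker_subtype _)
    have h3 : (fun j => ((φ' (Pi.single j 1) : LinearMap.range L) : 𝕂)) =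
        (Submodule.subtype _) ∘ ((Pi.basisFun ℤ (Fin r)).map φ') := by
      funext j
      simp
    rw [h3]
    exact h2
  · exact (ψ (Pi.single l 1)).2
  · let g : LinearMap.range L := ⟨L (Pi.single i 1), _, rfl⟩
    have hg : g ∈ S := Finset.mem_image_of_mem _ (Finset.mem_univ i)
    have hker : (Pi.single i 1 : Fin n → ℤ) - ∑ j, (φ'.symm g) j • e j ∈ LinearMap.ker L := by
      rw [LinearMap.mem_ker, map_sub, map_sum]
      simp only [map_smul, he]
      rw [← hexp g]
      exact sub_self _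
    refine ⟨φ'.symm g, ψ.symm ⟨_, hker⟩, hn g hg, fun h0 => ?_, ?_⟩
    · have h1 := hexp g
      rw [h0] at h1
      simp only [Pi.zero_apply, zero_smul, Finset.sum_const_zero] at h1
      exact absurd h1 (hL i).ne'
    · have h1 : (⟨_, hker⟩ : LinearMap.ker L) =
          ∑ l, (ψ.symm ⟨_, hker⟩) l • ψ (Pi.single l 1) := by
        have h2 : ψ.symm ⟨_, hker⟩ = ∑ l, (ψ.symm ⟨_, hker⟩) l • (Pi.single l 1 : Fin m → ℤ) := by
          ext i
          simp [Finset.sum_apply, Pi.single_apply]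
        conv_lhs => rw [← ψ.apply_symm_apply ⟨_, hker⟩, h2]
        rw [map_sum]
        exact Finset.sum_congr rfl fun j _ => map_smul _ _ _
      have h3 := congrArg Subtype.val h1
      rw [AddSubmonoidClass.coe_finsetSum] at h3
      have h4 : (Pi.single i 1 : Fin n → ℤ) - ∑ j, (φ'.symm g) j • e j =
          ∑ l, (ψ.symm ⟨_, hker⟩) l • (ψ (Pi.single l 1) : Fin n → ℤ) := h3
      rw [← h4]
      abel

end Pool.Agent.TWD
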