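import Pool.Agent.Lib.TWD.URa

/-!
# TANK W, uniformizable components: the toric step

`lurAt_of_par`: a regular model at the centre of a zero-dimensional `W ≤ V`, `V` of rank one, in
which the elements of `T` are monomials in parameters (with any values), gives `LUrAt V A T`.
-/

set_option autoImplicit false

namespace Pool.Agent.TWD

open Pool.Agent.LU2 Pool.Agent.TAO Pool.Agent.LU2G Pool.Agent.ALL68

universe u w

variable {k K : Type u} [Field k] [Field K] [Algebra k K] {𝕂 : Type w} [Field 𝕂]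
  [LinearOrder 𝕂] [IsStrictOrderedRing 𝕂] {V W : ValuationSubring K} {v : OVal 𝕂 K}

/-- Monomials in monomials. -/
theorem mx_pair {n r m : ℕ} {z : Fin n → K} (hz : ∀ i, z i ≠ 0) (e : Fin r → Fin n → ℤ)
    (ν : Fin m → Fin n → ℤ) (a : Fin r → ℤ) (b : Fin m → ℤ) :
    mx z (∑ j, a j • e j + ∑ l, b l • ν l) =
      mx (fun j => mx z (e j)) a * mx (fun l => mx z (ν l)) b := by
  have h1 : ∀ {s : ℕ} (d : Fin s → Fin n → ℤ) (f : Fin s → ℤ),
      Matrix.vecMul f (d : Matrix (Fin s) (Fin n) ℤ) = ∑ j, f j • d j := by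
    intro s d f
    ext i
    simp [Matrix.vecMul, dotProduct, Finset.sum_apply]
  rw [mx_add hz, mx_mx z e a hz, mx_mx z ν b hz, h1, h1]

/-- Exponents, after a change of basis. -/
theorem mx_change {n r m : ℕ} {z : Fin n → K} (hz : ∀ i, z i ≠ 0) {e : Fin r → Fin n → ℤ}
    {ν : Fin m → Fin n → ℤ} (h : ∀ i, ∃ (a : Fin r → ℤ) (b : Fin m → ℤ),
      (Pi.single i 1 : Fin n → ℤ) = ∑ j, a j • e j + ∑ l, b l • ν l) (l : Fin n → ℤ) :
    ∃ (a : Fin r → ℤ) (b : Fin m → ℤ),
      mx z l = mx (fun j => mx z (e j)) a * mx (fun l => mx z (ν l)) b := by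
  classical
  have h1 : ∃ (a : Fin r → ℤ) (b : Fin m → ℤ), l = ∑ j, a j • e j + ∑ i, b i • ν i := by
    have h2 : l = ∑ i, l i • (Pi.single i 1 : Fin n → ℤ) := by
      ext i
      simp [Finset.sum_apply, Pi.single_apply]
    choose a b hab using h
    refine ⟨∑ i, l i • a i, ∑ i, l i • b i, ?_⟩
    conv_lhs => rw [h2]
    simp only [hab, smul_add, Finset.sum_add_distrib, Finset.smul_sum, Finset.sum_apply,
      Pi.smul_apply, Finset.sum_smul, smul_assoc]
    congr 1
    · exact Finset.sum_comm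
    · exact Finset.sum_comm
  obtain ⟨a, b, hab⟩ := h1
  exact ⟨a, b, by rw [hab, mx_pair hz]⟩

/-- **The toric step.** -/
theorem lurAt_of_par (hle : W ≤ V) (hR1 : IsR1 V) (hk : ∀ c : k, algebraMap k K c ∈ W)
    (hres : ∀ f ∈ W, ∃ c : k, W.valuation (f - algebraMap k K c) < 1)
    (hv : RelO W v) {A : Subalgebra k K} (hfg : A.FG) (hA : ∀ f ∈ A, f ∈ W) (hfrac : IsFrac A)
    {n : ℕ} (htr : Algebra.trdeg k K = n) {z : Fin n → K} (hz : IsPar W (locV W A) z)
    (T : Finset K)
    (hT : ∀ t ∈ T, ∃ l : Fin n → ℤ, ∃ u ∈ locV W A, W.valuation u = 1 ∧ t = mx z l * u) :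
    LUrAt V A T := by
  classical
  have hz0 := hz.ne
  let L : (Fin n → ℤ) →ₗ[ℤ] 𝕂 := Fintype.linearCombination ℤ fun i => v (z i)
  have hL : ∀ l, L l = v (mx z l) := by
    intro l
    rw [v_mx hz0]
    change ∑ i, l i • v (z i) = _
    exact Finset.sum_congr rfl fun i _ => by rw [zsmul_eq_mul]
  have hL0 : ∀ i, 0 < L (Pi.single i 1) := by
    intro i
    rw [hL, mx_single, zpow_one]
    exact (hv.lt_one_iff (hz0 i)).1 (hz.pos i)
  obtain ⟨r, m, hrm, e, ν, he, hei, hν, hsingle⟩ := exists_split_basis L hL0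
  set x : Fin r → K := fun j => mx z (e j) with hx
  set u : Fin m → K := fun l => mx z (ν l) with hu
  have hx0 : ∀ j, x j ≠ 0 := fun j => mx_ne hz0 _
  have hu0 : ∀ l, u l ≠ 0 := fun l => mx_ne hz0 _
  have hxpos : ∀ j, W.valuation (x j) < 1 := by
    intro j
    rw [hv.lt_one_iff (hx0 j), ← hL]
    exact he j
  have hu1 : ∀ l, W.valuation (u l) = 1 := by
    intro l
    rw [hv.eq_one_iff (hu0 l), ← hL]
    exact hν l
  have huW : ∀ l, u l ∈ W := fun l => (W.valuation_le_one_iff _).1 (hu1 l).le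
  choose c hc using fun l => hres (u l) (huW l)
  have hc0 : ∀ l, c l ≠ 0 := by
    intro l h0
    have h1 := hc l
    rw [h0, map_zero, sub_zero, hu1] at h1
    exact lt_irrefl _ h1
  -- common denominators
  choose α hα β hβ hβ1 hαβ using fun i => hz.mem i
  have hα0 : ∀ i, α i ≠ 0 := by
    intro i h0
    exact hz0 i (by rw [hαβ i, h0, zero_div])
  have hβ0 : ∀ i, β i ≠ 0 := by
    intro i h0
    have h1 := hβ1 i
    rw [h0, map_zero] at h1
    exact zero_ne_one h1
  let M : Submonoid K := Submonoid.closure (Set.range α ∪ Set.range β)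
  have hαM : ∀ i, α i ∈ M := fun i => Submonoid.subset_closure (Or.inl ⟨i, rfl⟩)
  have hβM : ∀ i, β i ∈ M := fun i => Submonoid.subset_closure (Or.inr ⟨i, rfl⟩)
  have hM : ∀ b ∈ M, b ∈ A ∧ b ≠ 0 := by
    intro b hb
    induction hb using Submonoid.closure_induction with
    | mem b hb =>
      rcases hb with ⟨i, rfl⟩ | ⟨i, rfl⟩
      · exact ⟨hα i, hα0 i⟩
      · exact ⟨hβ i, hβ0 i⟩
    | one => exact ⟨A.one_mem, one_ne_zero⟩
    | mul a b _ _ ha hb => exact ⟨A.mul_mem ha.1 hb.1, mul_ne_zero ha.2 hb.2⟩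
  have hmxM : ∀ l : Fin n → ℤ, ∃ a ∈ M, ∃ b ∈ M, mx z l = a / b := by
    intro l
    unfold mx
    have : ∀ s : Finset (Fin n), ∃ a ∈ M, ∃ b ∈ M, ∏ i ∈ s, z i ^ l i = a / b := by
      intro s
      induction s using Finset.induction_on with
      | empty => exact ⟨1, M.one_mem, 1, M.one_mem, by simp⟩
      | insert i s hi ih =>
        obtain ⟨a, ha, b, hb, hab⟩ := ih
        rw [Finset.prod_insert hi, hab]
        rcases Int.eq_nat_or_neg (l i) with ⟨N, hN | hN⟩
        · refine ⟨α i ^ N * a, M.mul_mem (M.pow_mem (hαM i) N) ha, β i ^ N * b,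
            M.mul_mem (M.pow_mem (hβM i) N) hb, ?_⟩
          rw [hN, zpow_natCast, hαβ i, div_pow, div_mul_div_comm]
        · refine ⟨β i ^ N * a, M.mul_mem (M.pow_mem (hβM i) N) ha, α i ^ N * b,
            M.mul_mem (M.pow_mem (hαM i) N) hb, ?_⟩
          rw [hN, zpow_neg, zpow_natCast, hαβ i, div_pow, inv_div, div_mul_div_comm]
    exact this Finset.univ
  -- the chart
  let X' : Finset K := Finset.univ.image x ∪ (Finset.univ.image u ∪
    Finset.univ.image fun l => (u l)⁻¹)
  have hxX : ∀ j, x j ∈ X' := fun j =>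
    Finset.mem_union_left _ (Finset.mem_image_of_mem _ (Finset.mem_univ j))
  have huX : ∀ l, u l ∈ X' := fun l => Finset.mem_union_right _ (Finset.mem_union_left _
    (Finset.mem_image_of_mem _ (Finset.mem_univ l)))
  have huX' : ∀ l, (u l)⁻¹ ∈ X' := fun l => Finset.mem_union_right _ (Finset.mem_union_right _
    (Finset.mem_image_of_mem (fun l => (u l)⁻¹) (Finset.mem_univ l)))
  have hXcase : ∀ f ∈ X', (∃ j, f = x j) ∨ (∃ l, f = u l) ∨ ∃ l, f = (u l)⁻¹ := by
    intro f hf
    rcases Finset.mem_union.1 hf with hf | hf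
    · obtain ⟨j, -, rfl⟩ := Finset.mem_image.1 hf
      exact Or.inl ⟨j, rfl⟩
    rcases Finset.mem_union.1 hf with hf | hf
    · obtain ⟨l, -, rfl⟩ := Finset.mem_image.1 hf
      exact Or.inr (Or.inl ⟨l, rfl⟩)
    · obtain ⟨l, -, rfl⟩ := Finset.mem_image.1 hf
      exact Or.inr (Or.inr ⟨l, rfl⟩)
  have hXW : ∀ f ∈ X', f ∈ W := by
    intro f hf
    rcases hXcase f hf with ⟨j, rfl⟩ | ⟨l, rfl⟩ | ⟨l, rfl⟩
    · exact (W.valuation_le_one_iff _).1 (hxpos j).le
    · exact huW l
    · rw [← W.valuation_le_one_iff, map_inv₀, hu1, inv_one]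
  obtain ⟨g, hgM, hch⟩ := exists_chart_of_den (V := V) A M hM X' (by
    intro f hf
    refine ⟨(V.valuation_le_one_iff f).2 (hle (hXW f hf)), ?_⟩
    have key : ∃ a ∈ M, ∃ b ∈ M, f = a / b := by
      rcases hXcase f hf with ⟨j, rfl⟩ | ⟨l, rfl⟩ | ⟨l, rfl⟩
      · exact hmxM _
      · exact hmxM _
      · obtain ⟨a, ha, b, hb, hab⟩ := hmxM (ν l)
        exact ⟨b, hb, a, ha, by rw [hu]; simp only; rw [hab, inv_div]⟩
    obtain ⟨a, ha, b, hb, hab⟩ := key
    refine ⟨b, hb, ?_⟩
    rw [hab, div_mul_cancel₀ _ (hM b hb).2]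
    exact (hM a ha).1)
  obtain ⟨SA, hSA⟩ := hfg
  set A₁ : Subalgebra k K := Algebra.adjoin k ((A : Set K) ∪ X') with hA₁
  have hA₁' : A₁ = Algebra.adjoin k ((SA : Set K) ∪ X') := by
    rw [hA₁]
    apply le_antisymm
    · refine Algebra.adjoin_le ?_
      rintro f (hf | hf)
      · have h1 : A ≤ Algebra.adjoin k ((SA : Set K) ∪ X') := by
          rw [← hSA]
          exact Algebra.adjoin_mono Set.subset_union_left
        exact h1 hf
      · exact Algebra.subset_adjoin (Or.inr hf)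
    · refine Algebra.adjoin_mono (Set.union_subset_union_left _ ?_)
      rw [← hSA]
      exact Algebra.subset_adjoin
  have hAA₁ : A ≤ A₁ := fun a ha => Algebra.subset_adjoin (Or.inl ha)
  have hXA₁ : ∀ f ∈ X', f ∈ A₁ := fun f hf => Algebra.subset_adjoin (Or.inr hf)
  have hA₁W : ∀ f ∈ A₁, f ∈ W := by
    intro f hf
    rw [hA₁] at hf
    induction hf using Algebra.adjoin_induction with
    | mem f hf =>
      rcases hf with hf | hf
      · exact hA f hf
      · exact hXW f hf
    | algebraMap c => exact hk c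
    | add f g _ _ hf hg => exact W.add_mem _ _ hf hg
    | mul f g _ _ hf hg => exact W.mul_mem _ _ hf hg
  have hA₁fg : A₁.FG := hch.fg ⟨SA, hSA⟩
  have hA₁frac : IsFrac A₁ := by
    intro f
    obtain ⟨a, ha, b, hb, hb0, hab⟩ := hfrac f
    exact ⟨a, hAA₁ ha, b, hAA₁ hb, hb0, hab⟩
  set R := locV W A₁ with hR
  have hOR : locV W A ≤ R := locV_mono hAA₁
  have hxR : ∀ j, x j ∈ R := fun j => le_locV _ (hXA₁ _ (hxX j))
  have huR : ∀ l, u l ∈ R := fun l => le_locV _ (hXA₁ _ (huX l))
  have huR' : ∀ l, (u l)⁻¹ ∈ R := fun l => le_locV _ (hXA₁ _ (huX' l))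
  have huzR : ∀ (l : Fin m) (N : ℤ), u l ^ N ∈ R := by
    intro l N
    rcases Int.eq_nat_or_neg N with ⟨M', hM' | hM'⟩
    · rw [hM', zpow_natCast]
      exact R.pow_mem (huR l) _
    · rw [hM', zpow_neg, zpow_natCast, ← inv_pow]
      exact R.pow_mem (huR' l) _
  have humR : ∀ b : Fin m → ℤ, mx u b ∈ R := fun b => by
    unfold mx
    exact R.prod_mem fun l _ => huzR l _
  have hum1 : ∀ b : Fin m → ℤ, W.valuation (mx u b) = 1 := fun b => by
    rw [val_mx]
    refine Finset.prod_eq_one fun l _ => ?_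
    rw [hu1, one_zpow]
  -- the parameters
  let y : Fin m → K := fun l => if u l - algebraMap k K (c l) = 0 then
    z ⟨0, by have := l.pos; omega⟩ else u l - algebraMap k K (c l)
  have hyR : ∀ l, y l ∈ R := by
    intro l
    simp only [y]
    split_ifs
    · exact hOR (hz.mem _)
    · exact R.sub_mem (huR l) (R.algebraMap_mem _)
  have hy0 : ∀ l, y l ≠ 0 := by
    intro l
    simp only [y]
    split_ifs with h0
    · exact hz0 _
    · exact h0
  have hypos : ∀ l, W.valuation (y l) < 1 := by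
    intro l
    simp only [y]
    split_ifs
    · exact hz.pos _
    · exact hc l
  subst hrm
  set Z : Fin (r + m) → K := Fin.append x y with hZ
  have hxI : ∀ j, InI R Z (x j) := by
    intro j
    have h1 : Z (Fin.castAdd m j) = x j := Fin.append_left _ _ _
    rw [← h1]
    exact InI.self _
  have hyI : ∀ l, InI R Z (y l) := by
    intro l
    have h1 : Z (Fin.natAdd r l) = y l := Fin.append_right _ _ _
    rw [← h1]
    exact InI.self _
  have huI : ∀ l, InI R Z (u l - algebraMap k K (c l)) := by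
    intro l
    by_cases h0 : u l - algebraMap k K (c l) = 0
    · rw [h0]
      exact InI.zero
    · have h1 : y l = u l - algebraMap k K (c l) := by
        simp only [y]
        rw [if_neg h0]
      rw [← h1]
      exact hyI l
  have hsplit : ∀ i, ∃ (a : Fin r → ℤ) (b : Fin m → ℤ), (∀ j, 0 ≤ a j) ∧ a ≠ 0 ∧
      z i = mx x a * mx u b := by
    intro i
    obtain ⟨a, b, ha, ha0, hab⟩ := hsingle i
    refine ⟨a, b, ha, ha0, ?_⟩
    have h1 : z i = mx z (Pi.single i 1) := by rw [mx_single, zpow_one]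
    rw [h1, hab, mx_pair hz0]
  have hzI : ∀ i, InI R Z (z i) := by
    intro i
    obtain ⟨a, b, ha, ha0, hab⟩ := hsplit i
    rw [hab, mul_comm]
    exact InI.mul (humR b) (InI.mx hx0 hxR hxI ha ha0)
  have hOI : ∀ f ∈ locV W A, W.valuation f < 1 → InI R Z f := by
    intro f hf hf1
    obtain ⟨a, ha, rfl⟩ := hz.gen f hf hf1
    exact InI.sum _ fun i _ => InI.mul (hOR (ha i)) (hzI i)
  have hgenA : ∀ f ∈ locV W A₁, W.valuation f < 1 →
      ∃ a : Fin (r + m) → K, (∀ i, a i ∈ locV W A₁) ∧ f = ∑ i, a i * Z i := by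
    have hAdj : A₁ = Algebra.adjoin k ((SA : Set K) ∪ X') := hA₁'
    rw [hAdj]
    refine gen_of_adjoin hk (fun f hf => hA₁W f (hAdj ▸ hf)) (fun i => ?_) (fun i => ?_) ?_
    · rw [← hAdj]
      refine Fin.addCases (fun j => ?_) (fun l => ?_) i
      · rw [hZ, Fin.append_left]
        exact hxR j
      · rw [hZ, Fin.append_right]
        exact hyR l
    · refine Fin.addCases (fun j => ?_) (fun l => ?_) i
      · rw [hZ, Fin.append_left]
        exact hxpos j
      · rw [hZ, Fin.append_right]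
        exact hypos l
    · intro f hf
      rw [← hAdj]
      have key : ∃ d : k, InI R Z (f - algebraMap k K d) := by
        rcases hf with hf | hf
        · have hfA : f ∈ A := hSA ▸ Algebra.subset_adjoin hf
          obtain ⟨d, hd⟩ := hres f (hA f hfA)
          exact ⟨d, hOI _ ((locV W A).sub_mem (le_locV _ hfA) ((locV W A).algebraMap_mem d)) hd⟩
        · rcases hXcase f hf with ⟨j, rfl⟩ | ⟨l, rfl⟩ | ⟨l, rfl⟩
          · exact ⟨0, by rw [map_zero, sub_zero]; exact hxI j⟩
          · exact ⟨c l, huI l⟩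
          · refine ⟨(c l)⁻¹, ?_⟩
            have hcl : algebraMap k K (c l) ≠ 0 := (_root_.map_ne_zero _).2 (hc0 l)
            have e1 : (u l)⁻¹ - algebraMap k K (c l)⁻¹ =
                (-((u l)⁻¹ * algebraMap k K (c l)⁻¹)) * (u l - algebraMap k K (c l)) := by
              rw [map_inv₀]
              have := hu0 l
              field_simp
              ring
            rw [e1]
            exact InI.mul (R.neg_mem (R.mul_mem (huR' l) (R.algebraMap_mem _))) (huI l)
      obtain ⟨d, a, ha, hd⟩ := key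
      exact ⟨d, a, ha, by rw [← hd]; ring⟩
  have hpar : IsPar W (locV W A₁) Z := by
    refine isPar_of_gen hk hres A₁ hA₁fg hA₁W hA₁frac htr (fun i => ?_) (fun i => ?_)
      (fun i => ?_) hgenA
    · refine Fin.addCases (fun j => ?_) (fun l => ?_) i
      · rw [hZ, Fin.append_left]
        exact hxR j
      · rw [hZ, Fin.append_right]
        exact hyR l
    · refine Fin.addCases (fun j => ?_) (fun l => ?_) i
      · rw [hZ, Fin.append_left]
        exact hx0 j
      · rw [hZ, Fin.append_right]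
        exact hy0 l
    · refine Fin.addCases (fun j => ?_) (fun l => ?_) i
      · rw [hZ, Fin.append_left]
        exact hxpos j
      · rw [hZ, Fin.append_right]
        exact hypos l
  -- monomials
  have hmono : ∀ t : K, (∃ l : Fin (r + m) → ℤ, ∃ w ∈ locV W A, W.valuation w = 1 ∧
      t = mx z l * w) → ∃ l : Fin r → ℤ, ∃ w ∈ locV W A₁, W.valuation w = 1 ∧
      t = mx x l * w := by
    rintro t ⟨l, w, hw, hw1, rfl⟩
    obtain ⟨a, b, hab⟩ := mx_change hz0 (fun i => by
      obtain ⟨a, b, -, -, hab⟩ := hsingle i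
      exact ⟨a, b, hab⟩) l
    refine ⟨a, mx u b * w, R.mul_mem (humR b) (hOR hw), ?_, ?_⟩
    · rw [map_mul, hum1, hw1, one_mul]
    · rw [hab, mul_assoc]
  have hgz : ∀ b ∈ M, ∃ l : Fin (r + m) → ℤ, ∃ w ∈ locV W A, W.valuation w = 1 ∧
      b = mx z l * w := by
    intro b hb
    induction hb using Submonoid.closure_induction with
    | mem b hb =>
      rcases hb with ⟨i, rfl⟩ | ⟨i, rfl⟩
      · refine ⟨Pi.single i 1, β i, le_locV _ (hβ i), hβ1 i, ?_⟩
        rw [mx_single, zpow_one, hαβ i, div_mul_cancel₀ _ (hβ0 i)]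
      · exact ⟨0, β i, le_locV _ (hβ i), hβ1 i, by rw [mx_zero, one_mul]⟩
    | one => exact ⟨0, 1, Subalgebra.one_mem _, map_one _, by rw [mx_zero, mul_one]⟩
    | mul a b _ _ ha hb =>
      obtain ⟨l, w, hw, hw1, rfl⟩ := ha
      obtain ⟨l', w', hw', hw1', rfl⟩ := hb
      exact ⟨l + l', w * w', Subalgebra.mul_mem _ hw hw', by rw [map_mul, hw1, hw1', one_mul], by
        rw [mx_add hz0]; ring⟩
  have hlur : LUrAt V A₁ (insert g T) := by
    refine lurAt_of_mono hle hR1 hk hres hv hA₁fg hA₁W hA₁frac htr hpar ?_ ?_ _ ?_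
    · have h1 : (fun j => v (x j)) = fun j => L (e j) := funext fun j => (hL _).symm
      rw [h1]
      exact (LinearIndependent.iff_fractionRing ℤ ℚ).1 hei
    · intro j
      exact hXA₁ _ (hxX j)
    · intro t ht
      rcases Finset.mem_insert.1 ht with rfl | ht
      · exact hmono _ (hgz _ hgM)
      · exact hmono _ (hT t ht)
  exact LUrAt.of_chart (fun a ha => hle (hA a ha)) hch (Finset.mem_insert_self _ _)
    (fun t ht => Finset.mem_insert_of_mem ht) hlur

end Pool.Agent.TWD
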