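import Pool.Agent.Lib.TWD.URb
import Pool.Agent.Lib.ALL_h25.Coarse
import Pool.Agent.Lib.ALL_h25.Setup

/-!
# TANK W, uniformizable components: from `LU` at zero-dimensional refinements to `LUr`

`lur_of_exists`: `V` of rank one over an algebraically closed field; if every affine model has a
zero-dimensional `W ≤ V` with its centre on it that is log uniformizable, then `LUr k V`.
-/

set_option autoImplicit false

namespace Pool.Agent.TWD

open Pool.Agent.LU2 Pool.Agent.TAO Pool.Agent.LU2G Pool.Agent.ALL68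

universe u

variable {k K : Type u} [Field k] [Field K] [Algebra k K] {V W : ValuationSubring K}

/-- The number of parameters is at most the transcendence degree. -/
theorem par_le_trdeg {n m : ℕ} {A : Subalgebra k K} (hA : ∀ f ∈ A, f ∈ W)
    (htr : Algebra.trdeg k K = m) {z : Fin n → K} (hz : IsPar W (locV W A) z) : n ≤ m := by
  have hp := PI_prime W A hA
  have hheight : (n : ℕ∞) ≤ (PI W A hA).height := by
    let _ : Algebra A (locV W A) := (Subalgebra.inclusion (le_locV (V := W) A)).toAlgebra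
    have hl : IsLocalization.AtPrime (locV W A) (PI W A hA) :=
      isLocalization_locV W A _ hA (le_locV A) rfl
    have h1 := IsLocalization.AtPrime.ringKrullDim_eq_height (PI W A hA) (locV W A)
    rw [hz.dim] at h1
    exact_mod_cast h1.le
  let t : Fin 0 → A := Fin.elim0
  have hindq : AlgebraicIndependent k fun j => Ideal.Quotient.mk (PI W A hA) (t j) := by
    have : Nontrivial (A ⧸ PI W A hA) := Ideal.Quotient.nontrivial_iff.2 hp.ne_top
    exact algebraicIndependent_empty_type
  have h1 := le_trdeg (PI W A hA) hheight t hindq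
  rw [add_zero] at h1
  have h2 : Algebra.trdeg k A ≤ Algebra.trdeg k K :=
    trdeg_le_of_injective A.val Subtype.val_injective
  have h3 := h1.trans (h2.trans htr.le)
  exact_mod_cast h3

/-- A chart along `W` is a chart along `V ≥ W`. -/
theorem chart_coarse (hle : W ≤ V) {A A' : Subalgebra k K} {g : K} (h : IsChart W A A' g) :
    IsChart V A A' g := by
  obtain ⟨hg, hg0, G, hG, hA'⟩ := h
  refine ⟨hg, hg0, G, fun x hx => ⟨(hG x hx).1, ?_⟩, hA'⟩
  have hp : 0 < V.valuation g := (Valuation.pos_iff _).2 hg0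
  have hp' : 0 < W.valuation g := (Valuation.pos_iff _).2 hg0
  have h1 : W.valuation (x / g) ≤ 1 := by
    rw [map_div₀]
    exact div_le_one_of_le₀ (hG x hx).2 zero_le
  have h2 := (V.valuation_le_one_iff _).2 (hle ((W.valuation_le_one_iff _).1 h1))
  rw [map_div₀] at h2
  exact (div_le_one₀ hp).1 h2

/-- **From `LU` at zero-dimensional refinements to `LUr`.** -/
theorem lur_of_exists [IsAlgClosed k] (hR1 : IsR1 V) {n : ℕ} (htr : Algebra.trdeg k K = n)
    (h : ∀ A : Subalgebra k K, A.FG → (∀ a ∈ A, a ∈ V) → IsFrac A →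
      ∃ W : ValuationSubring K, W ≤ V ∧ (∀ c : k, algebraMap k K c ∈ W) ∧
        (∀ f ∈ W, ∃ c : k, W.valuation (f - algebraMap k K c) < 1) ∧ (∀ a ∈ A, a ∈ W) ∧
        LU k W) : LUr k V := by
  classical
  intro A hfg hA hfrac T hT
  obtain ⟨W, hle, hk, hres, hAW, hLU⟩ := h A hfg hA hfrac
  have hW : W ≠ ⊤ := by
    rintro rfl
    exact hR1.1 (top_le_iff.1 hle)
  obtain ⟨A₁, g₁, hch, n', z, hz, hg, hT'⟩ := hLU A hfg hAW hfrac T hT
  have hch' : IsChart V A A₁ g₁ := chart_coarse hle hch
  have hfg₁ : A₁.FG := hch.fg hfg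
  have hA₁ : ∀ f ∈ A₁, f ∈ W := hch.mem hAW
  have hfrac₁ : IsFrac A₁ := by
    intro f
    obtain ⟨a, ha, b, hb, h0, hf⟩ := hfrac f
    exact ⟨a, hch.le ha, b, hch.le hb, h0, hf⟩
  have hn : n' = n := le_antisymm (par_le_trdeg hA₁ htr hz)
    (ALL68.IsPar.trdeg hk hres A₁ hfg₁ hA₁ hfrac₁ htr hz)
  subst hn
  obtain ⟨𝕂, i1, i2, i3, v, -, -, -, -, -, hv, -⟩ := ALLF.exists_ctx htr W hk hres hW
  refine LUrAt.of_chart hA hch' (T' := insert g₁ T) (Finset.mem_insert_self _ _)
    (fun t ht => Finset.mem_insert_of_mem ht) ?_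
  refine lurAt_of_par hle hR1 hk hres (v := v) hv hfg₁ hA₁ hfrac₁ htr hz _ ?_
  intro t ht
  have hm : Mono W (locV W A₁) z t := by
    rcases Finset.mem_insert.1 ht with rfl | ht
    · exact hg
    · exact hT' t ht
  obtain ⟨e, w, hw, hw1, hte, -, -⟩ := hm
  exact ⟨e, w, hw, hw1, hte⟩

end Pool.Agent.TWD
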