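import Pool.Agent.Lib.TWS.Ac
import Pool.Agent.Lib.LU2_h15z.ValC
import Pool.Agent.Lib.TA.Basis
import Mathlib.RingTheory.NoetherNormalization

/-!
# TANK W, uniformizable components: zero-dimensional valuation rings without defect

`exists_zeroDim_abh`: over an algebraically closed field `k`, every finitely generated subalgebra
of a field of finite transcendence degree is contained in a valuation ring with residue field `k`
and Abhyankar defect zero.
-/

set_option autoImplicit false

namespace Pool.Agent.TWD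

open Pool.Agent.H15JM (RVal)
open Pool.Agent.LU1 (VPos)
open Pool.Agent.TWS
open Pool.Agent.LU2 (IndVal IndRes DefLE Rel vring rcomap rel_vring)

universe u

/-- Positive reals, independent over the rationals. -/
theorem exists_indep_pos (ι : Type) [Finite ι] : ∃ a : ι → ℝ, (∀ i, 0 < a i) ∧
    LinearIndependent ℚ a := by
  classical
  obtain ⟨q, ⟨e⟩⟩ := Finite.exists_equiv_fin ι
  have hrank : ((q : ℕ) : Cardinal) ≤ Module.rank ℚ ℝ := by
    rw [Real.rank_rat_real]
    exact (Cardinal.nat_lt_continuum _).le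
  obtain ⟨x, hx⟩ := Module.le_rank_iff.1 hrank
  have hx0 : ∀ i, x i ≠ 0 := fun i => hx.ne_zero i
  have h1 : LinearIndependent ℚ fun i => |x i| := by
    have h2 : (fun i => |x i|) = fun i => (if 0 < x i then (1 : ℚˣ) else -1) • x i := by
      funext i
      split_ifs with h
      · rw [one_smul, abs_of_pos h]
      · rw [Units.smul_def, Units.val_neg, Units.val_one, neg_smul, one_smul,
          abs_of_nonpos (not_lt.1 h)]
    rw [h2]
    exact hx.units_smul fun i => if 0 < x i then (1 : ℚˣ) else -1
  exact ⟨fun i => |x (e i)|, fun i => abs_pos.2 (hx0 _), h1.comp e e.injective⟩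

variable {k : Type u} [Field k]

/-- The embeddings in an algebraically closed field. -/
theorem exists_emb {κ Ω ι : Type*} [Field κ] [Algebra k κ] [Field Ω] [Algebra k Ω]
    [IsAlgClosed Ω] {x : ι → κ} (hx : IsTranscendenceBasis k x) {y : ι → Ω}
    (hy : AlgebraicIndependent k y) : ∃ j : κ →ₐ[k] Ω, ∀ i, j (x i) = y i := by
  have hind := hx.1
  let A₀ := Algebra.adjoin k (Set.range x)
  let ψ : A₀ →ₐ[k] Ω := (MvPolynomial.aeval y).comp hind.aevalEquiv.symm.toAlgHom
  have hy' : Function.Injective (MvPolynomial.aeval y : MvPolynomial ι k →ₐ[k] Ω) := hy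
  have hψ : Function.Injective ψ := hy'.comp hind.aevalEquiv.symm.injective
  have hψx : ∀ (i : ι) (h : x i ∈ A₀), ψ ⟨x i, h⟩ = y i := by
    intro i h
    have h1 : hind.aevalEquiv.symm ⟨x i, h⟩ = MvPolynomial.X i := by
      rw [AlgEquiv.symm_apply_eq]
      apply Subtype.ext
      exact (MvPolynomial.aeval_X x i).symm
    change MvPolynomial.aeval y (hind.aevalEquiv.symm ⟨x i, h⟩) = y i
    rw [h1, MvPolynomial.aeval_X]
  let alg : Algebra A₀ Ω := ψ.toRingHom.toAlgebra
  have htower : IsScalarTower k A₀ Ω := IsScalarTower.of_algebraMap_eq fun c =>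
    (ψ.commutes c).symm
  have halg : Algebra.IsAlgebraic A₀ κ := hx.isAlgebraic
  have htf : FaithfulSMul A₀ Ω := (faithfulSMul_iff_algebraMap_injective A₀ Ω).2 hψ
  let j : κ →ₐ[A₀] Ω := IsAlgClosed.lift
  refine ⟨j.restrictScalars k, fun i => ?_⟩
  have hxi : x i ∈ A₀ := Algebra.subset_adjoin ⟨i, rfl⟩
  have h2 := j.commutes ⟨x i, hxi⟩
  have h3 : algebraMap A₀ κ ⟨x i, hxi⟩ = x i := rfl
  rw [h3] at h2
  change j (x i) = _
  rw [h2]
  exact hψx i hxi

/-- **Zero-dimensional valuation rings without defect.** -/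
theorem exists_zeroDim_abh [IsAlgClosed k] {κ : Type u} [Field κ] [Algebra k κ] {q : ℕ}
    (htr : Algebra.trdeg k κ = q) (B : Subalgebra k κ) (hB : B.FG) :
    ∃ W : ValuationSubring κ, (∀ b ∈ B, b ∈ W) ∧ (∀ c : k, algebraMap k κ c ∈ W) ∧
      (∀ f ∈ W, ∃ c : k, W.valuation (f - algebraMap k κ c) < 1) ∧ DefLE k W 0 := by
  classical
  have hft : Algebra.FiniteType k B := (Subalgebra.fg_iff_finiteType B).1 hB
  obtain ⟨s, g, hg, hint⟩ := exists_integral_inj_algHom_of_fg k B
  let t : Fin s → κ := fun i => (g (MvPolynomial.X i) : κ)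
  have hgt : (B.val.comp g) = MvPolynomial.aeval t := by
    apply MvPolynomial.algHom_ext
    intro i
    rw [MvPolynomial.aeval_X]
    rfl
  have ht : AlgebraicIndependent k t := by
    change Function.Injective (MvPolynomial.aeval t : MvPolynomial (Fin s) k →ₐ[k] κ)
    rw [← hgt]
    exact Subtype.val_injective.comp hg
  obtain ⟨S, hS, hbasis⟩ := exists_isTranscendenceBasis_superset ht.coe_range
  have hfin : Finite S := by
    have h1 := hbasis.cardinalMk_eq_trdeg
    rw [htr] at h1
    exact Cardinal.lt_aleph0_iff_finite.1 (h1 ▸ Cardinal.natCast_lt_aleph0)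
  obtain ⟨n, ⟨e⟩⟩ := Finite.exists_equiv_fin S
  have hnq : n = q := by
    have h1 : Nat.card S = n := by rw [Nat.card_congr e, Nat.card_eq_fintype_card, Fintype.card_fin]
    have h2 := hbasis.cardinalMk_eq_trdeg
    rw [htr] at h2
    rw [← h1, Nat.card, h2, Cardinal.toNat_natCast]
  subst hnq
  obtain ⟨a, ha, hai⟩ := exists_indep_pos (Fin n)
  have hc := ctx0_hv k
  have hy : AlgebraicIndependent k fun i : S => mon k (a (e i)) := by
    have h1 : AlgebraicIndependent k fun i : Fin n => mon k (a i) :=
      Pool.Agent.TA.algInd_of_val (v := hv k) hc.triv (fun i => mon_ne k _) (by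
        simpa only [hv_mon] using hai)
    exact h1.comp e e.injective
  obtain ⟨j, hj⟩ := exists_emb hbasis hy
  set v : RVal κ := rcomap (hv k) j.toRingHom with hv'
  have hvj : ∀ f : κ, v f = hv k (j f) := fun f => rfl
  have hrel : Rel (vring v) v := rel_vring v
  have hxS : ∀ i : S, v (i : κ) = a (e i) := fun i => by rw [hvj, hj, hv_mon]
  have hne : ∀ i : S, (i : κ) ≠ 0 := fun i h0 => by
    have h1 := hj i
    rw [h0, map_zero] at h1
    exact mon_ne k _ h1.symm
  have htriv : ∀ c : k, c ≠ 0 → v (algebraMap k κ c) = 0 := by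
    intro c hc0
    rw [hvj, j.commutes]
    exact hc.triv c hc0
  have hconst : ∀ c : k, algebraMap k κ c ∈ vring v := by
    intro c h0
    rw [htriv c (by rintro rfl; exact h0 (map_zero _))]
  refine ⟨vring v, ?_, hconst, ?_, ?_⟩
  · -- integral closure
    have hX : ∀ i : Fin s, t i ∈ vring v := by
      intro i h0
      have h1 : t i ∈ S := hS ⟨i, rfl⟩
      have h2 := hxS ⟨t i, h1⟩
      rw [h2]
      exact (ha _).le
    have hpoly : ∀ P : MvPolynomial (Fin s) k, (g P : κ) ∈ vring v := by
      intro P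
      have h1 : (g P : κ) = MvPolynomial.aeval t P := by rw [← hgt]; rfl
      rw [h1]
      clear h1
      induction P using MvPolynomial.induction_on with
      | C c => rw [MvPolynomial.aeval_C]; exact hconst c
      | add p q hp hq => rw [map_add]; exact (vring v).add_mem _ _ hp hq
      | mul_X p i hp =>
        rw [map_mul, MvPolynomial.aeval_X]
        exact (vring v).mul_mem _ _ hp (hX i)
    intro b hb
    let θ : MvPolynomial (Fin s) k →+* vring v :=
      (B.val.toRingHom.comp g.toRingHom).codRestrict (vring v) hpoly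
    obtain ⟨P, hP, hP0⟩ := hint ⟨b, hb⟩
    have hbint : IsIntegral (vring v) b := by
      refine ⟨P.map θ, hP.map θ, ?_⟩
      rw [Polynomial.eval₂_map]
      have h1 := congrArg B.val hP0
      rw [map_zero] at h1
      have h2 := Polynomial.hom_eval₂ P g.toRingHom B.val.toRingHom ⟨b, hb⟩
      exact h2.symm.trans h1
    obtain ⟨y, hy⟩ := (IsIntegrallyClosed.isIntegral_iff (R := vring v) (K := κ)).1 hbint
    rw [← hy]
    exact y.2
  · intro f hf
    by_cases hf1 : (vring v).valuation f < 1
    · exact ⟨0, by rwa [map_zero, sub_zero]⟩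
    have h1 : (vring v).valuation f = 1 :=
      le_antisymm (((vring v).valuation_le_one_iff _).2 hf) (not_lt.1 hf1)
    have hf0 : f ≠ 0 := by
      rintro rfl
      rw [map_zero] at h1
      exact zero_ne_one h1
    have h2 : v f = 0 := (hrel.eq_one_iff hf0).1 h1
    obtain ⟨c, hc0, hc1⟩ := hc.res (j f) (by simpa using hf0) (by rw [← hvj]; exact h2)
    refine ⟨c, ?_⟩
    rw [hrel.lt_one_iff']
    intro h0
    have h3 := hc1 (by
      rw [← j.commutes, ← map_sub]
      exact (map_ne_zero j).2 h0)
    rw [← j.commutes, ← map_sub] at h3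
    exact h3
  · refine ⟨n, 0, by rw [htr, add_zero, add_zero], ⟨fun i => (e.symm i : κ), ?_⟩,
      Fin.elim0, fun i => i.elim0, fun P hP => ?_⟩
    · refine hrel.indVal_iff.2 ⟨fun i => hne _, ?_⟩
      have h1 : (fun i => v ((e.symm i : S) : κ)) = a := by
        funext i
        rw [hxS, Equiv.apply_symm_apply]
      rw [h1]
      exact hai
    · by_contra hP0
      obtain ⟨c, rfl⟩ := MvPolynomial.C_surjective (Fin 0) P
      rw [MvPolynomial.aeval_C] at hP
      have hc0 : c ≠ 0 := by
        rintro rfl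
        exact hP0 (map_zero _)
      have h1 := (hrel.eq_one_iff ((map_ne_zero _).2 hc0)).2 (htriv c hc0)
      rw [h1] at hP
      exact lt_irrefl _ hP

end Pool.Agent.TWD
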