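import Pool.Agent.Lib.TWD.URc
import Pool.Agent.Lib.TWD.URd
import Pool.Agent.Lib.TWD.UCe

/-!
# TANK W, uniformizable components: from `LU` to `LUr`, over an algebraically closed field

* `exists_refinement`: a zero-dimensional refinement `W ≤ V` with log uniformization;
* `lur_of_lu`: `LUr` for the log uniformizable valuation rings of rank one;
* `realCls_ucls`: the class of the valuation rings which are log uniformizable on all their models.
-/

set_option autoImplicit false

namespace Pool.Agent.TWD

open Pool.Agent.LU2 Pool.Agent.LU2G Pool.Agent.LU2H Pool.Agent.ALL68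

universe u

variable {k K : Type u} [Field k] [Field K] [Algebra k K] {V : ValuationSubring K}

/-- Zero-dimensional refinements with log uniformization. -/
theorem exists_refinement [IsAlgClosed k] (hreal : RealCase k) {n : ℕ}
    (htr : Algebra.trdeg k K = n) (hk : ∀ c : k, algebraMap k K c ∈ V) (hV : LU k V)
    (A : Subalgebra k K) (hfg : A.FG) (hA : ∀ a ∈ A, a ∈ V) :
    ∃ W : ValuationSubring K, W ≤ V ∧ (∀ c : k, algebraMap k K c ∈ W) ∧
      (∀ f ∈ W, ∃ c : k, W.valuation (f - algebraMap k K c) < 1) ∧ (∀ a ∈ A, a ∈ W) ∧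
      LU k W := by
  classical
  obtain ⟨K₁, i1, i2, φ, hself⟩ := exists_res_self V hk
  obtain ⟨q, hq, -, -⟩ := hself.trdeg_le htr (x := (Fin.elim0 : Fin 0 → K))
    ⟨fun i => i.elim0, fun e _ => Subsingleton.elim _ _⟩
  -- the image of the model
  let ψ : A →ₐ[k] K₁ :=
    { toFun := fun a => φ ⟨a, hA a a.2⟩
      map_one' := map_one φ
      map_mul' := fun a b => map_mul φ ⟨a, hA a a.2⟩ ⟨b, hA b b.2⟩
      map_zero' := map_zero φ
      map_add' := fun a b => map_add φ ⟨a, hA a a.2⟩ ⟨b, hA b b.2⟩
      commutes' := fun c => hself.map_const c (hk c) }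
  have hB : ψ.range.FG := by
    have h1 : Algebra.FiniteType k A := (Subalgebra.fg_iff_finiteType A).1 hfg
    rw [Subalgebra.fg_iff_finiteType]
    exact Algebra.FiniteType.of_surjective ψ.rangeRestrict ψ.rangeRestrict_surjective
  obtain ⟨U, hBU, hkU, hresU, hdU⟩ := exists_zeroDim_abh hq ψ.range hB
  let W : ValuationSubring K := pullV φ hself.eq_zero_iff U
  have hmem : ∀ x : V, φ x ∈ U ↔ (x : K) ∈ W := fun x => ⟨fun h => ⟨x.2, h⟩, fun ⟨_, h⟩ => h⟩
  have hres : IsRes (k := k) W V φ U :=
    { le := fun x hx => hx.1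
      const := fun c => ⟨hk c, by rw [hself.map_const c (hk c)]; exact hkU c⟩
      surj := hself.surj
      map_const := hself.map_const
      mem := hmem }
  refine ⟨W, hres.le, hres.const, ?_, ?_, ?_⟩
  · intro f hf
    obtain ⟨hfV, hfU⟩ := hf
    obtain ⟨c, hc⟩ := hresU _ hfU
    refine ⟨c, ?_⟩
    have hfc : f - algebraMap k K c ∈ V := sub_mem hfV (hk c)
    have h1 : φ ⟨f - algebraMap k K c, hfc⟩ = φ ⟨f, hfV⟩ - algebraMap k K₁ c := by
      rw [← hself.map_const c (hk c), ← map_sub]
      rfl
    exact (hres.val_lt_iff ⟨f - algebraMap k K c, hfc⟩).1 (by rw [h1]; exact hc)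
  · intro a ha
    exact ⟨hA a ha, hBU _ ⟨⟨a, ha⟩, rfl⟩⟩
  · have hfin₁ : Algebra.trdeg k K₁ < Cardinal.aleph0 := by
      rw [hq]
      exact Cardinal.natCast_lt_aleph0
    refine composite hres ?_ hV ?_
    · have := FinTrdeg.of_trdeg hfin₁
      obtain ⟨s, hs⟩ := exists_finset_isTranscendenceBasis k K₁
      refine ⟨s, ?_⟩
      have h := hs.isAlgebraic_field
      rwa [Subtype.range_coe_subtype, Finset.setOfPred_mem] at h
    · intro L hL halg
      have hLtop : (⊤ : IntermediateField k L).FG := by
        rw [← IntermediateField.essFiniteType_iff] at hL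
        rw [IntermediateField.fg_top_iff]
        exact hL
      have := halg
      refine lu_all hreal L hLtop _ ?_ (LU2.DefLE.comap hkU L (hdU.mono (by omega)))
      intro c
      rw [ValuationSubring.mem_comap]
      have h := hkU c
      rwa [IsScalarTower.algebraMap_apply k L K₁] at h

/-- **From `LU` to `LUr`.** -/
theorem lur_of_lu [IsAlgClosed k] (hreal : RealCase k) (hR1 : IsR1 V) {n : ℕ}
    (htr : Algebra.trdeg k K = n) (hk : ∀ c : k, algebraMap k K c ∈ V) (hV : LU k V) :
    LUr k V :=
  lur_of_exists hR1 htr fun A hfg hA _ => exists_refinement hreal htr hk hV A hfg hA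

/-- The class of the valuation rings that are log uniformizable on all affine models. -/
theorem realCls_ucls (p : ℕ) [Fact p.Prime] (k : Type) [Field k] [IsAlgClosed k] [CharP k p] :
    TW.RealCls (UCls k) := by
  intro K _ _ hK V hk hR hC
  have : Algebra.EssFiniteType k K := IntermediateField.fg_top_iff.1 hK
  obtain ⟨n, hn⟩ := Cardinal.lt_aleph0.1 (_root_.trdeg_lt_aleph0 k K)
  have hreal : RealCase k := fun L _ _ hL W hkW hRW hD =>
    LUr.toLU (Pool.Agent.LU2.realCaseR p Fact.out L hL W hkW hRW hD)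
  exact lur_of_lu hreal hR hn hk (lu_of_models hC)

end Pool.Agent.TWD
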