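import Pool.Agent.Lib.TWLM.Arc
import Pool.Agent.Lib.TWII.Soc
import Pool.Agent.Lib.TWMF.E1

/-!
# TANK W, base (R), exact case: strict points of an arc (Vandermonde)

An arc `Ψ` of a closed field `L`, `v δ = σ`. If for infinitely many `ζ ∈ k` the motion
`f ↦ ∑ (ζ δ) ^ l Ψ_l f` is strict, then all jets are pointwise strict, and the effect of the arc on an
element of level `ν` is in `L ^ p + O(> ν)`, coefficient by coefficient.
-/

set_option autoImplicit false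

open Polynomial Finset

namespace Pool.Agent.TWD

open Pool.Agent.H15JM (RVal)
open Pool.Agent.D2 (Ctx0)
open Pool.Agent.TWM
open Pool.Agent.TWLM (HSd Oi)
open Pool.Agent.TWII (PG LP)
open Pool.Agent.TWMF (Ptw)

universe u

/-- Inverse of the Vandermonde matrix. -/
theorem exists_vdm {k : Type*} [Field k] {N : ℕ} {ζ : Fin N → k} (h : Function.Injective ζ) :
    ∃ V : Fin N → Fin N → k, ∀ l m : Fin N,
      ∑ j, V l j * ζ j ^ (m : ℕ) = if l = m then 1 else 0 := by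
  have hdet : (Matrix.vandermonde ζ).det ≠ 0 := Matrix.det_vandermonde_ne_zero_iff.2 h
  have hinv : (Matrix.vandermonde ζ)⁻¹ * Matrix.vandermonde ζ = 1 :=
    Matrix.nonsing_inv_mul _ (isUnit_iff_ne_zero.2 hdet)
  refine ⟨fun l j => (Matrix.vandermonde ζ)⁻¹ l j, fun l m => ?_⟩
  have h1 := congrFun (congrFun hinv l) m
  rw [Matrix.mul_apply, Matrix.one_apply] at h1
  exact h1

/-- A polynomial with coefficients in a module, with infinitely many values in a submodule. -/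
theorem mem_of_vdm {k M : Type*} [Field k] [AddCommGroup M] [Module k M] (W : Submodule k M)
    {A : ℕ → M} {N : ℕ} {Θ : Set k} (hΘ : Θ.Infinite)
    (h : ∀ ζ ∈ Θ, ∑ l ∈ range N, ζ ^ l • A l ∈ W) : ∀ l < N, A l ∈ W := by
  intro l hl
  obtain ⟨T, hT, hTc⟩ := hΘ.exists_subset_card_eq N
  let e : Fin N ≃ T := (Finset.equivFinOfCardEq hTc).symm
  have hinj : Function.Injective fun j : Fin N => (e j : k) :=
    Subtype.val_injective.comp e.injective
  obtain ⟨V, hV⟩ := exists_vdm hinj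
  have h1 : A l = ∑ j, V ⟨l, hl⟩ j • ∑ m ∈ range N, (e j : k) ^ m • A m := by
    simp_rw [smul_sum, smul_smul]
    rw [sum_comm]
    have h2 : ∀ m ∈ range N, ∑ j, (V ⟨l, hl⟩ j * (e j : k) ^ m) • A m =
        if l = m then A m else 0 := by
      intro m hm
      rw [← sum_smul]
      have h3 := hV ⟨l, hl⟩ ⟨m, mem_range.1 hm⟩
      rw [h3]
      by_cases hlm : l = m
      · rw [if_pos (Fin.ext hlm), if_pos hlm, one_smul]
      · rw [if_neg (fun h4 => hlm (Fin.mk.inj h4)), if_neg hlm, zero_smul]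
    rw [sum_congr rfl h2, sum_ite_eq, if_pos (mem_range.2 hl)]
  rw [h1]
  exact sum_mem fun j _ => W.smul_mem _ (h _ (hT (e j).2))

variable {k Ω : Type u} [Field k] [Field Ω] [Algebra k Ω] {v : RVal Ω}

theorem Gt.smul (h : Ctx0 k v) {b : ℝ} {x : Ω} (hx : Gt v b x) (c : k) : Gt v b (c • x) := by
  rw [Algebra.smul_def, mul_comm]
  have h1 := Gt.mul_ge hx (h.ge c)
  rwa [add_zero] at h1

/-- `O(> b)`. -/
def gts (h : Ctx0 k v) (b : ℝ) : Submodule k Ω where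
  carrier := {x | Gt v b x}
  add_mem' hx hy := Gt.add hx hy
  zero_mem' := Gt.zero
  smul_mem' c _ hx := Gt.smul h hx c

/-- `L ^ p + O(> ν)`. -/
def pgs (p : ℕ) [hp : Fact p.Prime] [CharP Ω p] [PerfectRing k p] [CharP k p] (h : Ctx0 k v)
    (L : IntermediateField k Ω) (ν : ℝ) : Submodule k Ω where
  carrier := {x | PG p v L ν x}
  add_mem' := by
    rintro x y ⟨a, ha, h1⟩ ⟨b, hb, h2⟩
    refine ⟨a + b, add_mem ha hb, ?_⟩
    rw [add_pow_char]
    have e : x + y - (a ^ p + b ^ p) = (x - a ^ p) + (y - b ^ p) := by ring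
    rw [e]
    exact h1.add h2
  zero_mem' := ⟨0, zero_mem _, by rw [zero_pow hp.out.ne_zero, sub_zero]; exact Gt.zero⟩
  smul_mem' := by
    rintro c x ⟨a, ha, h1⟩
    obtain ⟨d, rfl⟩ := surjective_frobenius k p c
    refine ⟨algebraMap k Ω d * a, mul_mem (L.algebraMap_mem d) ha, ?_⟩
    have e : frobenius k p d • x - (algebraMap k Ω d * a) ^ p = frobenius k p d • (x - a ^ p) := by
      rw [frobenius_def, Algebra.smul_def, Algebra.smul_def, map_pow]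
      ring
    rw [e]
    exact Gt.smul h h1 _

/-- `τ` is the evaluation at `c` of the arc `Ψ`. -/
def Evl (v : RVal Ω) (L : IntermediateField k Ω) (Ψ : ℕ → Ω → Ω) (c : Ω) (τ : Ω → Ω) : Prop :=
  ∀ f ∈ L, ∀ C : ℝ, ∃ M₀ : ℕ, ∀ M : ℕ, M₀ ≤ M → v.Ge C (τ f - ∑ l ∈ range M, c ^ l * Ψ l f)

/-- Uniform strictness. -/
def Uns (v : RVal Ω) (L : IntermediateField k Ω) (τ : Ω → Ω) : Prop :=
  ∃ μ : ℝ, 0 < μ ∧ ∀ f ∈ L, ∀ b : ℝ, v.Ge b f → v.Ge (b + μ) (τ f - f)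

variable {L : IntermediateField k Ω} {Ψ : ℕ → Ω → Ω} {σ : ℝ} {δ : Ω}

theorem term_ge (hoi : Oi v L σ Ψ) (hδ : δ ≠ 0) (hδv : v δ = σ) {f : Ω} (hf : f ∈ L) (C : ℝ) :
    ∃ N : ℕ, ∀ l : ℕ, N ≤ l → v.Ge C (δ ^ l * Ψ l f) := by
  obtain ⟨N, hN⟩ := hoi f hf C
  refine ⟨N, fun l hl => ?_⟩
  have h1 : v.Ge (l * σ) (δ ^ l) := fun _ => by rw [v.map_pow hδ, hδv]
  exact (h1.mul (hN l hl)).mono (by linarith)

theorem term_ge' (h0 : Ctx0 k v) (hoi : Oi v L σ Ψ) (hδ : δ ≠ 0) (hδv : v δ = σ) {f : Ω}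
    (hf : f ∈ L) (C : ℝ) :
    ∃ N : ℕ, ∀ l : ℕ, N ≤ l → ∀ ζ : k, v.Ge C ((algebraMap k Ω ζ * δ) ^ l * Ψ l f) := by
  obtain ⟨N, hN⟩ := term_ge hoi hδ hδv hf C
  refine ⟨N, fun l hl ζ => ?_⟩
  have e : (algebraMap k Ω ζ * δ) ^ l * Ψ l f = algebraMap k Ω (ζ ^ l) * (δ ^ l * Ψ l f) := by
    rw [map_pow]
    ring
  rw [e]
  exact ((h0.ge _).mul (hN l hl)).mono (by linarith)

theorem sum_eq {f : Ω} (ζ : k) (M : ℕ) :
    ∑ l ∈ range M, (algebraMap k Ω ζ * δ) ^ l * Ψ l f =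
      ∑ l ∈ range M, ζ ^ l • (δ ^ l * Ψ l f) := by
  refine sum_congr rfl fun l _ => ?_
  rw [Algebra.smul_def, map_pow]
  ring

/-- The coefficients of an element of a submodule which contains the tails. -/
theorem coeff_mem (h0 : Ctx0 k v) (hoi : Oi v L σ Ψ) (hδ : δ ≠ 0) (hδv : v δ = σ) {f : Ω}
    (hf : f ∈ L) (hc0 : Ψ 0 f = f) (W : Submodule k Ω) {C : ℝ} (hW : ∀ x, v.Ge C x → x ∈ W)
    {Θ : Set k} (hΘ : Θ.Infinite)
    (h : ∀ ζ ∈ Θ, ∃ τ, Evl v L Ψ (algebraMap k Ω ζ * δ) τ ∧ τ f - f ∈ W) (l : ℕ) (hl : l ≠ 0) :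
    δ ^ l * Ψ l f ∈ W := by
  obtain ⟨N, hN⟩ := term_ge hoi hδ hδv hf C
  by_cases hlN : N ≤ l
  · exact hW _ (hN l hlN)
  push Not at hlN
  set A : ℕ → Ω := fun m => if m = 0 then 0 else δ ^ m * Ψ m f with hA
  have h1 : ∀ ζ ∈ Θ, ∑ m ∈ range N, ζ ^ m • A m ∈ W := by
    intro ζ hζ
    obtain ⟨τ, hτ, h1⟩ := h ζ hζ
    obtain ⟨M₀, hM⟩ := hτ f hf C
    obtain ⟨N', hN'⟩ := term_ge' h0 hoi hδ hδv hf C
    set M := max M₀ N with hMd
    have h2 := hM M (le_max_left _ _)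
    have h3 : ∑ l ∈ range M, (algebraMap k Ω ζ * δ) ^ l * Ψ l f - f ∈ W := by
      have e : ∑ l ∈ range M, (algebraMap k Ω ζ * δ) ^ l * Ψ l f - f =
          (τ f - f) - (τ f - ∑ l ∈ range M, (algebraMap k Ω ζ * δ) ^ l * Ψ l f) := by ring
      rw [e]
      exact W.sub_mem h1 (hW _ h2)
    rw [sum_eq] at h3
    have h4 : ∑ m ∈ range M, ζ ^ m • A m ∈ W := by
      have hM0 : 0 ∈ range M := mem_range.2 (lt_of_lt_of_le (by omega) (le_max_right _ _))
      have e : ∑ m ∈ range M, ζ ^ m • A m = ∑ l ∈ range M, ζ ^ l • (δ ^ l * Ψ l f) - f := by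
        rw [← sum_erase_add (range M) (fun m => ζ ^ m • A m) hM0,
          ← sum_erase_add (range M) (fun l => ζ ^ l • (δ ^ l * Ψ l f)) hM0]
        rw [hA]
        simp only [if_true, smul_zero, add_zero, pow_zero, one_smul, one_mul, hc0, add_sub_cancel_right]
        refine sum_congr rfl fun m hm => ?_
        rw [if_neg (Finset.ne_of_mem_erase hm)]
      rw [e]
      exact h3
    have h5 : ∑ m ∈ range M, ζ ^ m • A m =
        ∑ m ∈ range N, ζ ^ m • A m + ∑ m ∈ (range M).filter (N ≤ ·), ζ ^ m • A m := by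
      rw [← sum_filter_add_sum_filter_not (range M) (fun m => m < N)]
      congr 1
      · refine sum_congr ?_ fun _ _ => rfl
        ext m
        rw [mem_filter, mem_range, mem_range]
        have := le_max_right M₀ N
        omega
      · refine sum_congr ?_ fun _ _ => rfl
        ext m
        rw [mem_filter, mem_filter]
        constructor <;> rintro ⟨h6, h7⟩ <;> exact ⟨h6, by omega⟩
    have h6 : ∑ m ∈ (range M).filter (N ≤ ·), ζ ^ m • A m ∈ W := by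
      refine W.sum_mem fun m hm => W.smul_mem _ ?_
      rw [hA]
      dsimp only
      split_ifs
      · exact W.zero_mem
      · exact hW _ (hN m (mem_filter.1 hm).2)
    have h7 : ∑ m ∈ range N, ζ ^ m • A m =
        ∑ m ∈ range M, ζ ^ m • A m - ∑ m ∈ (range M).filter (N ≤ ·), ζ ^ m • A m := by
      rw [h5]
      ring
    rw [h7]
    exact W.sub_mem h4 h6
  have h2 := mem_of_vdm W hΘ h1 l hlN
  rw [hA] at h2
  dsimp only at h2
  rwa [if_neg hl] at h2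

/-- **Strict points, 1**: pointwise strictness of all jets. -/
theorem ptw_of_points (h0 : Ctx0 k v) (hs : HSd L Ψ) (hoi : Oi v L σ Ψ) (hδ : δ ≠ 0)
    (hδv : v δ = σ) {Θ : Set k} (hΘ : Θ.Infinite)
    (h : ∀ f ∈ L, f ≠ 0 → ∀ ζ ∈ Θ, ∃ τ, Evl v L Ψ (algebraMap k Ω ζ * δ) τ ∧
      Gt v (v f) (τ f - f)) : Ptw v L σ Ψ := by
  intro l hl f hf b hb
  by_cases hf0 : f = 0
  · rw [hf0, hs.zero]
    exact Gt.zero
  have h1 : Gt v (v f) (δ ^ l * Ψ l f) := by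
    refine coeff_mem h0 hoi hδ hδv hf (hs.c0 f hf) (gts h0 (v f)) (C := v f + 1) ?_ hΘ ?_ l hl
    · intro x hx
      exact Gt.of_ge hx (by linarith)
    · intro ζ hζ
      exact h f hf hf0 ζ hζ
  intro h2
  have h3 := h1 (mul_ne_zero (pow_ne_zero _ hδ) h2)
  rw [v.map_mul (pow_ne_zero _ hδ) h2, v.map_pow hδ, hδv] at h3
  have h4 := hb hf0
  linarith

/-- **Strict points, 2**: the effect on `a` vanishes coefficient by coefficient. -/
theorem pg_of_points {p : ℕ} [hp : Fact p.Prime] [CharP Ω p] [CharP k p] [PerfectRing k p]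
    (h0 : Ctx0 k v) (hs : HSd L Ψ) (hoi : Oi v L σ Ψ) (hδ : δ ≠ 0) (hδv : v δ = σ) {Θ : Set k}
    (hΘ : Θ.Infinite) {a : Ω} (ha : a ∈ L) {ν : ℝ}
    (h : ∀ ζ ∈ Θ, ∃ τ, Evl v L Ψ (algebraMap k Ω ζ * δ) τ ∧ PG p v L ν (τ a - a)) (l : ℕ)
    (hl : l ≠ 0) : PG p v L ν (δ ^ l * Ψ l a) := by
  refine coeff_mem h0 hoi hδ hδv ha (hs.c0 a ha) (pgs p h0 L ν) (C := ν + 1) ?_ hΘ h l hl
  intro x hx
  refine ⟨0, zero_mem _, ?_⟩
  rw [zero_pow hp.out.ne_zero, sub_zero]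
  exact Gt.of_ge hx (by linarith)

end Pool.Agent.TWD
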